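import Pool.Agent.P.MP_f8f34d_lc.W.Tool

/-! The game on the image side: conditions, families, reachable and persistent sets. -/

namespace Pool.Agent.MinDeg

/-- a level and a class -/
abbrev Cd : Type := CS × Set CS

/-- closure properties of the family of levels -/
structure Idl (J : Set CS) : Prop where
  zz : zz ∈ J
  rs : ∀ A ∈ J, ∀ B ∈ J, rs A B ∈ J
  cat : ∀ ζ, ∀ A ∈ J, cat ζ A ∈ J

def IsC (J : Set CS) (c : Cd) : Prop :=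
  c.1 ∈ J ∧ c.2.Nonempty ∧ ∃ i, ∀ y, y ∈ c.2 ↔ jn c.1 y ∈ K i

def Fam (c : Cd) (ζ : List Bool) (V : CS → Set CS) : Prop :=
  (∃ v, ∀ B y, y ∈ V B ↔ jn c.1 (jn B y) ∈ K v) ∧ ∀ B, Ext ζ B → (V B).Nonempty ∧ V B ⊆ c.2

def Rf (c : Cd) (ζ : List Bool) (V : CS → Set CS) (ζ' : List Bool) (V' : CS → Set CS) : Prop :=
  Fam c ζ' V' ∧ ∀ B, Ext ζ' B → Ext ζ B ∧ V' B ⊆ V B

/-- one move of the game from `c` into `R` -/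
def Mv (J : Set CS) (R : Set Cd) (c : Cd) : Prop :=
  ∃ ζ V, Fam c ζ V ∧ ∀ ζ' V', Rf c ζ V ζ' V' → ∃ B ∈ J, Ext ζ' B ∧ (rs c.1 B, V' B) ∈ R

def Reach (J : Set CS) (D : Set Cd) : Set Cd :=
  {c | ∀ R : Set Cd, D ⊆ R → (∀ d, IsC J d → Mv J R d → d ∈ R) → c ∈ R}

structure Pers (J : Set CS) (D : Set Cd) : Prop where
  isC : ∀ c ∈ D, IsC J c
  sub : ∀ c ∈ D, ∀ Q, IsC J (c.1, Q) → Q ⊆ c.2 → (c.1, Q) ∈ D
  ref : ∀ c ∈ D, ∀ ζ V, Fam c ζ V →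
    ∃ ζ' V', Rf c ζ V ζ' V' ∧ ∀ B ∈ J, Ext ζ' B → (rs c.1 B, V' B) ∈ D

def Goal (J : Set CS) (G : Set (Set Cd)) : Prop :=
  (∀ D ∈ G, Pers J D) ∧ ∀ c, IsC J c → c ∈ Reach J (⋃₀ G)

end Pool.Agent.MinDeg
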