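import Pool.Agent.P.MP_f8f34d_lc.W.Tool

/-! Enumerability relative to a point, the jump, the limit lemma, effective Baire category. -/

namespace Pool.Agent.MinDeg

open Pool.Agent.Lib.ComputableProp Filter

variable {α β γ : Type} [Primcodable α] [Primcodable β] [Primcodable γ]

/-- enumerable in `y` -/
def SE (y : CS) (P : α → Prop) : Prop := ∃ S : CS → α → Prop, Sig S ∧ ∀ a, S y a ↔ P a
/-- computable in `y` -/
def CF (y : CS) (f : α → β) : Prop := SE y (fun w : α × β => f w.1 = w.2)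
/-- Turing reducibility of points -/
def LeT (A y : CS) : Prop := CF y A
/-- decidable in `y` -/
def DE (y : CS) (P : α → Prop) : Prop := SE y P ∧ SE y (fun a => ¬ P a)
open Classical in
/-- the jump -/
noncomputable def jp (y : CS) : CS := fun i => decide (Un i y)

theorem Sig.se {S : CS → α → Prop} (h : Sig S) (y : CS) : SE y (S y) := ⟨S, h, fun _ => Iff.rfl⟩

namespace SE
variable {y : CS}

theorem of_iff {P Q : α → Prop} (h : SE y P) (H : ∀ a, P a ↔ Q a) : SE y Q :=
  (funext fun a => propext (H a) : P = Q) ▸ h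
theorem of_re {Q : α → Prop} (h : RE Q) : SE y Q := (Sig.of_re h).se y
theorem comp {P : β → Prop} {f : α → β} (h : SE y P) (hf : Computable f) :
    SE y (fun a => P (f a)) := by
  obtain ⟨S, h1, h2⟩ := h
  exact ⟨_, h1.comp hf, fun a => h2 _⟩
theorem and {P Q : α → Prop} (hP : SE y P) (hQ : SE y Q) : SE y (fun a => P a ∧ Q a) := by
  obtain ⟨S, h1, h2⟩ := hP
  obtain ⟨S', k1, k2⟩ := hQ
  exact ⟨_, h1.and k1, fun a => and_congr (h2 a) (k2 a)⟩
theorem or {P Q : α → Prop} (hP : SE y P) (hQ : SE y Q) : SE y (fun a => P a ∨ Q a) := by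
  obtain ⟨S, h1, h2⟩ := hP
  obtain ⟨S', k1, k2⟩ := hQ
  exact ⟨_, h1.or k1, fun a => or_congr (h2 a) (k2 a)⟩
theorem ex {P : α → β → Prop} (h : SE y (fun z : α × β => P z.1 z.2)) :
    SE y (fun a => ∃ b, P a b) := by
  obtain ⟨S, h1, h2⟩ := h
  exact ⟨_, Sig.ex (P := fun x a b => S x (a, b)) h1, fun a => exists_congr fun b => h2 (a, b)⟩
theorem forall_lt {P : α → ℕ → Prop} {l : α → ℕ} (hl : Computable l)
    (h : SE y (fun z : α × ℕ => P z.1 z.2)) : SE y (fun a => ∀ b < l a, P a b) := by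
  obtain ⟨S, h1, h2⟩ := h
  exact ⟨_, Sig.forall_lt (P := fun x a b => S x (a, b)) hl h1,
    fun a => forall₂_congr fun b _ => h2 (a, b)⟩
theorem forall_mem {P : α → β → Prop} {l : α → List β} (hl : Computable l)
    (h : SE y (fun z : α × β => P z.1 z.2)) : SE y (fun a => ∀ b ∈ l a, P a b) := by
  obtain ⟨S, h1, h2⟩ := h
  exact ⟨_, Sig.forall_mem (P := fun x a b => S x (a, b)) hl h1,
    fun a => forall₂_congr fun b _ => h2 (a, b)⟩
theorem forall_enc {P : α → β → Prop} {l : α → ℕ} (hl : Computable l)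
    (h : SE y (fun z : α × β => P z.1 z.2)) :
    SE y (fun a => ∀ b, Encodable.encode b < l a → P a b) := by
  obtain ⟨S, h1, h2⟩ := h
  exact ⟨_, Sig.forall_enc (P := fun x a b => S x (a, b)) hl h1,
    fun a => forall₂_congr fun b _ => h2 (a, b)⟩
theorem compCF {P : β → Prop} {f : α → β} (h : SE y P) (hf : CF y f) :
    SE y (fun a => P (f a)) :=
  (ex (P := fun a b => f a = b ∧ P b) (and hf (h.comp Computable.snd))).of_iff fun a => by simp

theorem up {P : α → Prop} (h : SE y P) : SE (jp y) P := by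
  obtain ⟨S, h1, h2⟩ := h
  obtain ⟨e, he⟩ := h1.index
  refine ⟨_, Sig.bit (f := fun a : α => Nat.pair e (Encodable.encode a)) (g := fun _ => true)
    (by fun_prop) (by fun_prop), fun a => ?_⟩
  rw [← h2, he]; simp [jp]
theorem up_not {P : α → Prop} (h : SE y P) : SE (jp y) (fun a => ¬ P a) := by
  obtain ⟨S, h1, h2⟩ := h
  obtain ⟨e, he⟩ := h1.index
  refine ⟨_, Sig.bit (f := fun a : α => Nat.pair e (Encodable.encode a)) (g := fun _ => false)
    (by fun_prop) (by fun_prop), fun a => ?_⟩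
  beta_reduce
  rw [← h2, he]; simp [jp]
theorem de {P : α → Prop} (h : SE y P) : DE (jp y) P := ⟨h.up, h.up_not⟩

theorem trans {A : CS} {P : α → Prop} (h : SE A P) (hA : LeT A y) : SE y P := by
  obtain ⟨S, ⟨R, h1, -, h3⟩, h2⟩ := h
  have : SE y (fun a => ∃ σ : List Bool, (∀ k < σ.length, A k = σ.getD k false) ∧ R σ a) :=
    ex (and (forall_lt (l := fun w : α × List Bool => w.2.length) (by fun_prop)
      (SE.comp (f := fun w : (α × List Bool) × ℕ => (w.2, w.1.2.getD w.2 false)) hA (by fun_prop)))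
      (of_re (h1.comp (f := fun w : α × List Bool => (w.2, w.1)) (by fun_prop))))
  refine this.of_iff fun a => ?_
  rw [← h2, h3]
  constructor
  · rintro ⟨σ, hσ, hR⟩
    exact ⟨σ.length, by rwa [Ext.eq_pre hσ]⟩
  · rintro ⟨n, hn⟩
    exact ⟨_, ext_pre _ _, hn⟩

/-- uniformisation of a total relation -/
theorem unif {R : α → β → Prop} (h : SE y (fun z : α × β => R z.1 z.2)) (tot : ∀ a, ∃ b, R a b) :
    ∃ g : α → β, CF y g ∧ ∀ a, R a (g a) := by
  obtain ⟨S, h1, h2⟩ := h
  obtain ⟨P, k1, k2, k3, k4⟩ := Sig.unif (P := fun x a b => S x (a, b)) h1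
  have : ∀ a, ∃ b, P y a b := fun a => by
    obtain ⟨b, hb⟩ := tot a
    exact k4 y a b ((h2 (a, b)).2 hb)
  choose g hg using this
  exact ⟨g, ⟨_, k1, fun w => ⟨fun H => k3 _ _ _ _ (hg _) H, fun H => H ▸ hg _⟩⟩,
    fun a => (h2 (a, g a)).1 (k2 _ _ _ (hg a))⟩

end SE

namespace CF
variable {y : CS}

theorem of_computable {f : α → β} (hf : Computable f) : CF y f :=
  SE.of_re (RE.eq (by fun_prop) (by fun_prop))
theorem of_eq {f g : α → β} (h : CF y f) (H : ∀ a, f a = g a) : CF y g := (funext H : f = g) ▸ h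
theorem comp {f : β → γ} {g : α → β} (hf : CF y f) (hg : CF y g) : CF y (fun a => f (g a)) :=
  (SE.ex (P := fun (w : α × γ) b => g w.1 = b ∧ f b = w.2) (SE.and
    (SE.comp (f := fun u : (α × γ) × β => (u.1.1, u.2)) hg (by fun_prop))
    (SE.comp (f := fun u : (α × γ) × β => (u.2, u.1.2)) hf (by fun_prop)))).of_iff fun w => by simp
theorem compC {f : β → γ} {g : α → β} (hf : CF y f) (hg : Computable g) :
    CF y (fun a => f (g a)) := hf.comp (of_computable hg)
theorem pair {f : α → β} {g : α → γ} (hf : CF y f) (hg : CF y g) : CF y (fun a => (f a, g a)) :=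
  (SE.and (SE.comp (f := fun u : α × β × γ => (u.1, u.2.1)) hf (by fun_prop))
    (SE.comp (f := fun u : α × β × γ => (u.1, u.2.2)) hg (by fun_prop))).of_iff fun w => by
      simp [Prod.ext_iff]
theorem up {f : α → β} (h : CF y f) : CF (jp y) f := SE.up h
theorem trans {A : CS} {f : α → β} (h : CF A f) (hA : LeT A y) : CF y f := SE.trans h hA
theorem ne {f : α → β} (h : CF y f) : SE y (fun w : α × β => f w.1 ≠ w.2) :=
  (SE.ex (P := fun (w : α × β) b => f w.1 = b ∧ b ≠ w.2) (SE.and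
    (SE.comp (f := fun u : (α × β) × β => (u.1.1, u.2)) h (by fun_prop))
    (SE.of_re (RE.ne (by fun_prop) (by fun_prop))))).of_iff fun w => by simp

theorem iter {g : ℕ × α → α} (hg : CF y g) (a0 : α) :
    CF y (fun n : ℕ => (Nat.rec a0 (fun s a => g (s, a)) n : α)) := by
  let st : ℕ → α := fun n => Nat.rec a0 (fun s a => g (s, a)) n
  have : SE y (fun w : ℕ × α => ∃ l : List α, (l.getD 0 a0 = a0 ∧ l.getD w.1 a0 = w.2) ∧
      ∀ s < w.1, g (s, l.getD s a0) = l.getD (s + 1) a0) :=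
    SE.ex (SE.and (SE.of_re (RE.and (RE.eq (by fun_prop) (by fun_prop))
      (RE.eq (by fun_prop) (by fun_prop))))
      (SE.forall_lt (l := fun u : (ℕ × α) × List α => u.1.1) (by fun_prop)
        (SE.comp (f := fun u : ((ℕ × α) × List α) × ℕ =>
          ((u.2, u.1.2.getD u.2 a0), u.1.2.getD (u.2 + 1) a0)) hg (by fun_prop))))
  refine this.of_iff fun w => ⟨?_, fun H => ?_⟩
  · rintro ⟨l, ⟨h1, h2⟩, h3⟩
    have key : ∀ s, s ≤ w.1 → st s = l.getD s a0 := by
      intro s
      induction s with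
      | zero => intro _; exact h1.symm
      | succ s ih =>
        intro hs
        rw [← h3 s (by omega), ← ih (by omega)]
    exact (key _ le_rfl).trans h2
  · have key : ∀ s, s ≤ w.1 → ((List.range (w.1 + 1)).map st).getD s a0 = st s := by
      intro s hs
      have : s < w.1 + 1 := by omega
      simp [List.getD_eq_getElem?_getD, this]
    refine ⟨(List.range (w.1 + 1)).map st, ⟨key 0 (by omega), (key _ le_rfl).trans H⟩,
      fun s hs => ?_⟩
    rw [key s (by omega), key (s + 1) (by omega)]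

end CF

/-- a run of a total transition relation -/
theorem SE.run {y : CS} {R : ℕ → α → α → Prop}
    (h : SE y (fun z : (ℕ × α) × α => R z.1.1 z.1.2 z.2)) (tot : ∀ s a, ∃ b, R s a b) (a0 : α) :
    ∃ st : ℕ → α, CF y st ∧ st 0 = a0 ∧ ∀ s, R s (st s) (st (s + 1)) := by
  obtain ⟨g, hg, H⟩ := SE.unif (R := fun (x : ℕ × α) b => R x.1 x.2 b) h (fun x => tot x.1 x.2)
  exact ⟨_, hg.iter a0, rfl, fun s => H (s, _)⟩

namespace DE
variable {y : CS}

theorem of_iff {P Q : α → Prop} (h : DE y P) (H : ∀ a, P a ↔ Q a) : DE y Q :=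
  (funext fun a => propext (H a) : P = Q) ▸ h
theorem not {P : α → Prop} (h : DE y P) : DE y (fun a => ¬ P a) :=
  ⟨h.2, h.1.of_iff fun _ => not_not.symm⟩
theorem and {P Q : α → Prop} (hP : DE y P) (hQ : DE y Q) : DE y (fun a => P a ∧ Q a) :=
  ⟨hP.1.and hQ.1, (hP.2.or hQ.2).of_iff fun _ => not_and_or.symm⟩
theorem or {P Q : α → Prop} (hP : DE y P) (hQ : DE y Q) : DE y (fun a => P a ∨ Q a) :=
  ⟨hP.1.or hQ.1, (hP.2.and hQ.2).of_iff fun _ => not_or.symm⟩
theorem imp {P Q : α → Prop} (hP : DE y P) (hQ : DE y Q) : DE y (fun a => P a → Q a) :=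
  (hP.not.or hQ).of_iff fun _ => imp_iff_not_or.symm
theorem comp {P : β → Prop} {f : α → β} (h : DE y P) (hf : Computable f) :
    DE y (fun a => P (f a)) := ⟨h.1.comp hf, h.2.comp hf⟩
theorem compCF {P : β → Prop} {f : α → β} (h : DE y P) (hf : CF y f) :
    DE y (fun a => P (f a)) := ⟨h.1.compCF hf, h.2.compCF hf⟩
theorem up {P : α → Prop} (h : DE y P) : DE (jp y) P := ⟨h.1.up, h.2.up⟩
theorem of_re {P : α → Prop} (h : RE P) (h' : RE fun a => ¬ P a) : DE y P :=
  ⟨SE.of_re h, SE.of_re h'⟩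
theorem eq {f g : α → β} (hf : Computable f) (hg : Computable g) : DE y (fun a => f a = g a) :=
  of_re (RE.eq hf hg) (RE.ne hf hg)
theorem lt {f g : α → ℕ} (hf : Computable f) (hg : Computable g) : DE y (fun a => f a < g a) :=
  of_re (RE.lt hf hg) ((RE.le hg hf).of_iff fun _ => not_lt.symm)
theorem le {f g : α → ℕ} (hf : Computable f) (hg : Computable g) : DE y (fun a => f a ≤ g a) :=
  of_re (RE.le hf hg) ((RE.lt hg hf).of_iff fun _ => not_le.symm)
theorem forall_lt {P : α → ℕ → Prop} {l : α → ℕ} (hl : Computable l)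
    (h : DE y (fun z : α × ℕ => P z.1 z.2)) : DE y (fun a => ∀ b < l a, P a b) :=
  ⟨SE.forall_lt hl h.1, (SE.ex (P := fun a b => b < l a ∧ ¬ P a b)
    (SE.and (SE.of_re (RE.lt (by fun_prop) (by fun_prop))) h.2)).of_iff fun a => by simp⟩
theorem forall_mem {P : α → β → Prop} {l : α → List β} (hl : Computable l)
    (h : DE y (fun z : α × β => P z.1 z.2)) : DE y (fun a => ∀ b ∈ l a, P a b) :=
  ⟨SE.forall_mem hl h.1, (SE.ex (P := fun a b => b ∈ l a ∧ ¬ P a b)
    (SE.and (SE.of_re (RE.mem (by fun_prop) (by fun_prop))) h.2)).of_iff fun a => by simp⟩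
theorem forall_enc {P : α → β → Prop} {l : α → ℕ} (hl : Computable l)
    (h : DE y (fun z : α × β => P z.1 z.2)) :
    DE y (fun a => ∀ b, Encodable.encode b < l a → P a b) :=
  ⟨SE.forall_enc hl h.1, (SE.ex (P := fun a b => Encodable.encode b < l a ∧ ¬ P a b)
    (SE.and (SE.of_re (RE.lt (by fun_prop) (by fun_prop))) h.2)).of_iff fun a => by simp⟩
/-- an existential quantifier costs one jump -/
theorem ex {P : α → β → Prop} (h : DE y (fun z : α × β => P z.1 z.2)) :
    DE (jp y) (fun a => ∃ b, P a b) := (SE.ex h.1).de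
/-- a universal quantifier costs one jump -/
theorem all {P : α → β → Prop} (h : DE y (fun z : α × β => P z.1 z.2)) :
    DE (jp y) (fun a => ∀ b, P a b) :=
  (ex (P := fun a b => ¬ P a b) h.not).not.of_iff fun a => by simp

end DE

theorem Sig.de {S : CS → α → Prop} (h : Sig S) (y : CS) : DE (jp y) (S y) := (h.se y).de
theorem Pii.de {S : CS → α → Prop} (h : Pii S) (y : CS) : DE (jp y) (S y) :=
  (Sig.de h y).not.of_iff fun _ => not_not
theorem CF.de {y : CS} {f : α → β} (h : CF y f) : DE y (fun w : α × β => f w.1 = w.2) := ⟨h, h.ne⟩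

theorem CM.leT {F : CS → α → CS} (h : CM F) (y : CS) (a : α) : LeT (F y a) y :=
  (Sig.comp (f := fun w : ℕ × Bool => (a, w)) h (by fun_prop)).se y
theorem LeT.refl (y : CS) : LeT y y := (CM.id (α := Unit)).leT y ()
theorem LeT.trans {A B C : CS} (h : LeT A B) (k : LeT B C) : LeT A C := SE.trans h k
theorem LeT.jn {A B y : CS} (h : LeT A y) (k : LeT B y) : LeT (jn A B) y := by
  refine (SE.or (SE.and (SE.of_re (RE.eq (f := fun w : ℕ × Bool => w.1 % 2) (g := fun _ => 0)
    (by fun_prop) (by fun_prop))) (SE.comp (f := fun w : ℕ × Bool => (w.1 / 2, w.2)) h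
    (by fun_prop))) (SE.and (SE.of_re (RE.ne (f := fun w : ℕ × Bool => w.1 % 2) (g := fun _ => 0)
    (by fun_prop) (by fun_prop))) (SE.comp (f := fun w : ℕ × Bool => (w.1 / 2, w.2)) k
    (by fun_prop)))).of_iff fun w => ?_
  by_cases e : w.1 % 2 = 0 <;> simp [MinDeg.jn, e]

theorem LeT.turing {A y : CS} (h : LeT A y) : TuringReducible (hat A) (hat y) := by
  obtain ⟨S, h1, h2⟩ := h
  have hS : Sig (fun x (a : ℕ × ℕ) => ∃ b : Bool, S x (a.1, b) ∧ a.2 = cond b 1 0) :=
    Sig.ex (Sig.and (h1.comp (f := fun w : (ℕ × ℕ) × Bool => (w.1.1, w.2)) (by fun_prop))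
      (Sig.of_re (RE.eq (by fun_prop) (by fun_prop))))
  refine RecursiveIn.iff_nat.2 (hS.tr (f := fun n => cond (A n) 1 0) fun k v => ?_)
  simp only [h2]
  simp

theorem LeT.of_turing {A y : CS} (h : TuringReducible (hat A) (hat y)) : LeT A y := by
  obtain ⟨F, hF, e⟩ := exists_oracleRec (RecursiveIn.iff_nat.1 h)
  refine ⟨_, hF.sig.comp (f := fun w : ℕ × Bool => (w.1, cond w.2 1 0)) (by fun_prop), fun w => ?_⟩
  rw [e]
  simp only [hat, Part.mem_some_iff]
  cases A w.1 <;> cases w.2 <;> simp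

theorem countable_leT (y : CS) : Set.Countable {A | LeT A y} := by
  have : {A | LeT A y} ⊆ (fun S : CS → ℕ × Bool → Prop => fun n => by
      classical exact decide (S y (n, true))) '' {S | Sig S} := by
    rintro A ⟨S, h1, h2⟩
    refine ⟨S, h1, funext fun n => ?_⟩
    simp only [h2]
    cases A n <;> simp
  exact (countable_sig.image _).mono this

/-- the only member of a class closed relative to `y` is computable in `y` -/
theorem leT_of_unique {P : CS → CS → Prop} (h : Pii (fun z (_ : Unit) => P (lf z) (rt z)))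
    {y x : CS} (hx : P y x) (hu : ∀ w, P y w → w = x) : LeT x y := by
  have h1 : Sig (fun y (a : ℕ × Bool) => ∀ w, P y w → w a.1 = a.2) :=
    Sig.all (P := fun y w (a : ℕ × Bool) => P y w → w a.1 = a.2)
      (Sig.imp (h.comp (f := fun _ => ()) (by fun_prop)) (CM.id.rt.bit (by fun_prop) (by fun_prop)))
  exact ⟨_, h1, fun a => ⟨fun H => H x hx, fun H w hw => by rw [hu w hw]; exact H⟩⟩

end Pool.Agent.MinDeg
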