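import Pool.Agent.P.MP_f8f34d_lc.W.Base
import Pool.Agent.P.MP_f8f34d_lc.W.Rel
import Pool.Agent.P.MP_f8f34d_lc.W.GameDefs
import Pool.Agent.P.MP_f8f34d_lc.a.Sol0

/-! The ideal generated by a family; the link with the statement on models. -/

namespace Pool.Agent.MinDeg

open FirstOrder FirstOrder.Language Pool.Agent.Lib.ComputableProp

/-- stages of the ideal generated by `S` -/
def JN (S : Set CS) : ℕ → Set CS
  | 0 => insert zz S
  | n + 1 => {A | ∃ B ∈ JN S n, ∃ C ∈ JN S n, LeT A (jn B C)}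

def JJ (S : Set CS) : Set CS := ⋃ n, JN S n

theorem finA_lf (A B : CS) : LeT A (jn A B) := by
  have := (CM.id (α := Unit)).lf.leT (jn A B) ()
  simpa using this

theorem finA_succ (S : Set CS) (n : ℕ) : JN S n ⊆ JN S (n + 1) :=
  fun A hA => ⟨A, hA, A, hA, finA_lf A A⟩

theorem finA_mono (S : Set CS) {m n : ℕ} (h : m ≤ n) : JN S m ⊆ JN S n := by
  induction h with
  | refl => exact subset_rfl
  | step _ ih => exact ih.trans (finA_succ S _)

theorem finA_cutc {α : Type} [Primcodable α] {F : CS → α → CS} (h : CM F) {b : α → ℕ}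
    (hb : Computable b) : CM (fun z a => cutc (b a) (F z a)) := by
  have := CM.cond h CM.zz (c := fun a p => leb (p.unpair.1 + 1) (b a)) (by fun_prop)
  refine Sig.of_iff this fun z w => ?_
  unfold cutc zz
  cases leb (w.2.1.unpair.1 + 1) (b w.1) <;> simp

theorem finA_cutc_eq {b : ℕ} {X X' : CS} (h : ∀ m ∈ List.range b, col X m = col X' m) :
    cutc b X = cutc b X' := by
  funext n
  unfold cutc
  by_cases k : n.unpair.1 + 1 ≤ b
  · have := congrFun (h n.unpair.1 (List.mem_range.2 k)) n.unpair.2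
    simp only [col, Nat.pair_unpair] at this
    rw [this]
  · simp [leb, k]

theorem countable_JJ {S : Set CS} (h : S.Countable) : (JJ S).Countable := by
  refine Set.countable_iUnion fun n => ?_
  induction n with
  | zero => exact h.insert _
  | succ n ih =>
    refine (ih.biUnion fun B _ => ih.biUnion fun C _ => countable_leT (jn B C)).mono ?_
    rintro A ⟨B, hB, C, hC, hA⟩
    exact Set.mem_biUnion hB (Set.mem_biUnion hC hA)

theorem idl_JJ (S : Set CS) : Idl (JJ S) := by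
  refine ⟨Set.mem_iUnion.2 ⟨0, Set.mem_insert _ _⟩, fun A hA B hB => ?_, fun ζ A hA => ?_⟩
  · obtain ⟨m, hm⟩ := Set.mem_iUnion.1 hA
    obtain ⟨n, hn⟩ := Set.mem_iUnion.1 hB
    refine Set.mem_iUnion.2 ⟨max m n + 1, A, finA_mono S (le_max_left _ _) hm, B,
      finA_mono S (le_max_right _ _) hn, ?_⟩
    have := ((CM.id (α := Unit)).lf.rs CM.id.rt).leT (jn A B) ()
    simpa using this
  · obtain ⟨m, hm⟩ := Set.mem_iUnion.1 hA
    refine Set.mem_iUnion.2 ⟨m + 1, A, hm, A, hm, ?_⟩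
    have := ((CM.id (α := List Bool)).lf.cat Computable.id).leT (jn A A) ζ
    simpa using this

theorem subset_JJ (S : Set CS) : S ⊆ JJ S := by
  exact fun A hA => Set.mem_iUnion.2 ⟨0, Set.mem_insert_of_mem _ hA⟩

theorem JJ_le {S : Set CS} {y : CS} (h : ∀ A ∈ S, LeT A y) : ∀ A ∈ JJ S, LeT A y := by
  intro A hA
  obtain ⟨n, hn⟩ := Set.mem_iUnion.1 hA
  clear hA
  induction n generalizing A with
  | zero =>
    rcases hn with rfl | hn
    · exact (CM.zz (α := Unit)).leT y ()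
    · exact h A hn
  | succ n ih =>
    obtain ⟨B, hB, C, hC, k⟩ := hn
    exact k.trans ((ih B hB).jn (ih C hC))

theorem pathP_of_mem {X : CS} (hX : X ∈ PP) : PathP X := by
  intro α _ Z hZ
  obtain ⟨κ, h1, h2⟩ := path_loc (α := ℕ × α)
    (P := fun X Y a => ¬ Z (jn (cutc a.1 X) Y) a.2)
    (Pii.not (hZ.map ((finA_cutc CM.id.lf Computable.fst).jn CM.id.rt) Computable.snd))
    (μ := fun a => List.range a.1) (by fun_prop)
    (fun X X' Y a h k => by rwa [← finA_cutc_eq h])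
  exact ⟨κ, h1, fun b a => h2 X hX (b, a)⟩

theorem isJump_jp (x : CS) : IsJump x (jp x) := by
  refine ⟨⟨fun x i => Un i x, sig_Un, fun n => by simp [jp]⟩, fun α _ P hP => ?_⟩
  obtain ⟨e, he⟩ := hP.index
  refine ⟨fun a => Nat.pair e (Encodable.encode a), by fun_prop, fun a => ?_⟩
  rw [he]; simp [jp]

/-- a point of the base class whose double jump finds the tables computes a model -/
theorem model_of_records (sol : SolovayStmt) (N : Type) [LA.Structure N] [Infinite N] {X : CS}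
    (hX : X ∈ PP) {R : ℕ × ℕ → Prop} (h1 : SE (jp (jp X)) R) (h2 : ∀ k, ∃ a, R (k, a))
    (h3 : ∀ k a, R (k, a) → ∀ n, X (Nat.pair a.unpair.1 (a.unpair.2 + n)) = TK (PreLA N) k n) :
    ∃ M : LA.Structure ℕ, (∀ k, TK (@PreLA ℕ M) k = TK (PreLA N) k) ∧ LeT (dg M) X := by
  obtain ⟨S, hS, hR⟩ := h1
  obtain ⟨κ, k1, k2⟩ := path_loc (α := ℕ)
    (P := fun X Y a => Y = fun n => X (Nat.pair a.unpair.1 (a.unpair.2 + n)))
    (Pii.eqC CM.id.rt (CM.id.lf.re (f := fun (a : ℕ) n => Nat.pair a.unpair.1 (a.unpair.2 + n))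
      (by fun_prop)))
    (μ := fun a => [a.unpair.1]) (by fun_prop)
    (fun X X' Y a h k => by
      rw [k]
      funext n
      exact congrFun (h a.unpair.1 (List.mem_singleton.2 rfl)) (a.unpair.2 + n))
  have hS' : Sig (fun x (w : ℕ × ℕ) => ∃ a : ℕ, S x (w.1, a) ∧ κ a = w.2) :=
    Sig.ex (Sig.and (hS.comp (f := fun u : (ℕ × ℕ) × ℕ => (u.1.1, u.2)) (by fun_prop))
      (Sig.of_re (RE.eq (k1.comp Computable.snd) (by fun_prop))))
  obtain ⟨M, m1, m2⟩ := sol N X (jp X) (jp (jp X)) (pathP_of_mem hX) (isJump_jp X)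
    (isJump_jp (jp X)) _ hS'
    (fun k => by
      obtain ⟨a, ha⟩ := h2 k
      exact ⟨κ a, a, (hR _).2 ha, rfl⟩)
    (by
      rintro k m ⟨a, ha, rfl⟩
      have e := k2 X hX a ⟨_, rfl⟩
      funext n
      exact (congrFun e n).trans (h3 k a ((hR _).1 ha) n))
  exact ⟨M, m1, LeT.of_turing m2⟩

end Pool.Agent.MinDeg
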