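import Pool.Agent.P.MP_f8f34d_lc.W.ConsD

/-! The limit of the construction. -/

namespace Pool.Agent.MinDeg

open Filter

theorem consE_closed (s : St) (A : CS) : IsClosed (PS s A) := by
  have h : Continuous (lev s.mu) := continuous_pi fun p => by
    unfold lev
    cases Lib.ComputableProp.leb s.mu.length p.unpair.1
    · exact continuous_apply _
    · exact continuous_const
  exact (isClosed_K s.ix).inter (isClosed_eq h continuous_const)

/-- the start of phase `p` -/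
def consE_Good (J : Set CS) (p : ℕ) (σ : St × CS × (ℕ → Set Cd)) : Prop :=
  Inv J σ.1 σ.2.1 σ.2.2 ∧ σ.1.mode = 0 ∧ σ.1.ph = p ∧ (∀ e ∈ σ.1.act, e < p) ∧
    σ.1.rcd.length = p

/-- what phase `p` achieves -/
def consE_Rel (J : Set CS) (T : ℕ → CS) (goal : ℕ → Set (Set Cd)) (p : ℕ)
    (σ τ : St × CS × (ℕ → Set Cd)) : Prop :=
  Leads σ.1 σ.2.1 τ.1 τ.2.1 ∧
    (∀ e, e ∈ σ.1.act ∨ e = p → e ∉ τ.1.act → Settled J e (PS τ.1 τ.2.1)) ∧
    (∀ e ∈ σ.1.act, τ.2.2 e ⊆ σ.2.2 e) ∧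
    (p.unpair.1 ∈ τ.1.act → ∃ E ∈ goal p.unpair.2, τ.2.2 p.unpair.1 ⊆ E) ∧
    ∃ m l, τ.1.rcd = σ.1.rcd ++ [Nat.pair m l] ∧
      ∀ X ∈ PS τ.1 τ.2.1, ∀ n, X (Nat.pair m (l + n)) = T p n

theorem consE_seq {J : Set CS} (hJ : Idl J) (T : ℕ → CS) (hT : ∀ k, T k ∈ J)
    (goal : ℕ → Set (Set Cd)) (hg : ∀ g, Goal J (goal g)) :
    ∃ σ : ℕ → St × CS × (ℕ → Set Cd), (∀ p, consE_Good J p (σ p)) ∧
      ∀ p, consE_Rel J T goal p (σ p) (σ (p + 1)) := by
  obtain ⟨ι, -, hι⟩ := Pii.index (pii_PP (α := Unit) CM.id)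
  have h0 : consE_Good J 0 (((0, 0, ι (), 0, 0), ([], [], [], [])), zz, fun _ => {c | IsC J c}) := by
    refine ⟨⟨fun X hX => (hι X ()).1 hX, hJ.zz, ?_, fun e he => absurd he List.not_mem_nil,
      fun _ => pers_univ hJ, fun e he => absurd he List.not_mem_nil⟩, rfl, rfl, fun e he => absurd he List.not_mem_nil, rfl⟩
    obtain ⟨X, hX⟩ := PP_nonempty
    exact ⟨X, (hι X ()).2 hX, lev_nil X⟩
  have H : ∀ p (σ : {σ // consE_Good J p σ}), ∃ τ : {τ // consE_Good J (p + 1) τ},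
      consE_Rel J T goal p σ.1 τ.1 := by
    rintro p ⟨⟨s, A, D⟩, h1, h2, h3, h4, h5⟩
    simp only at h1 h2 h3 h4 h5
    subst h3
    obtain ⟨s', A', D', k1, k2, k3, k4, k5, k6, k7, k8, m, l, k9, k10⟩ :=
      phase hJ h1 h2 h4 (hg s.ph.unpair.2) (hT s.ph)
    refine ⟨⟨(s', A', D'), k2, k3, k4, fun e he => ?_, ?_⟩, k1, k6, k7, k8, m, l, k9, k10⟩
    · rcases k5 e he with h | h
      · exact (h4 e h).trans (Nat.lt_succ_self _)
      · rw [h]; exact Nat.lt_succ_self _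
    · show s'.rcd.length = _
      rw [k9, List.length_append, h5]; rfl
  choose f hf using H
  let u : ∀ p, {σ // consE_Good J p σ} := fun p => Nat.rec ⟨_, h0⟩ (fun p σ => f p σ) p
  exact ⟨fun p => (u p).1, fun p => (u p).2, fun p => hf p (u p)⟩

theorem construct {J : Set CS} (hJ : Idl J) (T : ℕ → CS) (hT : ∀ k, T k ∈ J)
    (goal : ℕ → Set (Set Cd)) (hg : ∀ g, Goal J (goal g)) :
    ∃ X ∈ PP, (∃ R : ℕ × ℕ → Prop, SE (jp (jp X)) R ∧ (∀ k, ∃ a, R (k, a)) ∧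
        ∀ k a, R (k, a) → ∀ n, X (Nat.pair a.unpair.1 (a.unpair.2 + n)) = T k n) ∧
      ∀ e y, Tot e X → Ag e X y → (∃ A ∈ J, LeT X (jn A y)) ∨
        ∃ c : ℕ → Cd, (∀ p, IsC J (c p)) ∧ (∀ p, y ∈ (c p).2) ∧
          ∀ g, ∃ D ∈ goal g, ∀ᶠ p in atTop, c p ∈ D := by
  obtain ⟨σ, hG, hR⟩ := consE_seq hJ T hT goal hg
  obtain ⟨X, hX⟩ := IsCompact.nonempty_iInter_of_sequence_nonempty_isCompact_isClosed
    (fun p => PS (σ p).1 (σ p).2.1) (fun p => (hR p).1.1) (fun p => (hG p).1.ne)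
    (consE_closed _ _).isCompact (fun p => consE_closed _ _)
  rw [Set.mem_iInter] at hX
  have run : ∀ p, Relation.ReflTransGen (Step X) (σ 0).1 (σ p).1 := by
    intro p
    induction p with
    | zero => exact Relation.ReflTransGen.refl
    | succ p ih => exact ih.trans ((hR p).1.2 X (hX (p + 1)))
  have recd : ∀ k, ∃ m l, (σ (k + 1)).1.rcd[k]? = some (Nat.pair m l) ∧
      ∀ n, X (Nat.pair m (l + n)) = T k n := by
    intro k
    obtain ⟨m, l, h1, h2⟩ := (hR k).2.2.2.2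
    refine ⟨m, l, ?_, h2 X (hX (k + 1))⟩
    have := (hG k).2.2.2.2
    rw [h1, List.getElem?_append_right this.le, this]
    simp
  obtain ⟨r1, r2⟩ := run_records X (σ 0).1
  refine ⟨X, (hG 0).1.pp (hX 0).1, ⟨_, r1, fun k => ?_, ?_⟩, fun e y hTot hAg => ?_⟩
  · obtain ⟨m, l, h1, -⟩ := recd k
    exact ⟨_, _, run (k + 1), h1⟩
  · rintro k a ⟨s, hs, ha⟩
    obtain ⟨m, l, h1, h2⟩ := recd k
    rw [r2 _ _ k a _ hs (run (k + 1)) ha h1, Nat.unpair_pair]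
    exact h2
  by_cases hS : ∃ q, Settled J e (PS (σ q).1 (σ q).2.1)
  · obtain ⟨q, h | ⟨A, hA, h⟩⟩ := hS
    · exact absurd hTot (h X (hX q))
    · exact Or.inl ⟨A, hA, h X (hX q) y hAg⟩
  have act : ∀ p, e + 1 ≤ p → e ∈ (σ p).1.act := by
    intro p hp
    induction p, hp using Nat.le_induction with
    | base => exact by_contra fun h => hS ⟨_, (hR e).2.1 e (Or.inr rfl) h⟩
    | succ p _ ih => exact by_contra fun h => hS ⟨_, (hR p).2.1 e (Or.inl ih) h⟩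
  have dec : ∀ p q, e + 1 ≤ p → p ≤ q → (σ q).2.2 e ⊆ (σ p).2.2 e := by
    intro p q hp hq
    induction q, hq using Nat.le_induction with
    | base => exact subset_rfl
    | succ q hq ih => exact ((hR q).2.2.1 e (act q (hp.trans hq))).trans ih
  have keep := fun p => (hG (p + (e + 1))).1.keep e (act _ (Nat.le_add_left _ _))
  refine Or.inr ⟨fun p => ((σ (p + (e + 1))).2.1, Img e (PS (σ (p + (e + 1))).1
    (σ (p + (e + 1))).2.1)), fun p => ((hG _).1.pers e).isC _ (keep p),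
    fun p => ⟨X, hX _, hAg⟩, fun g => ?_⟩
  have h1 := (hR (Nat.pair e g)).2.2.2.1
  rw [Nat.unpair_pair] at h1
  have h2 : e + 1 ≤ Nat.pair e g + 1 := Nat.succ_le_succ (Nat.left_le_pair e g)
  obtain ⟨E, hE, h3⟩ := h1 (act _ h2)
  refine ⟨E, hE, eventually_atTop.2 ⟨Nat.pair e g, fun p hp => h3 (dec _ _ h2 ?_ (keep p))⟩⟩
  omega

end Pool.Agent.MinDeg
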