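import Pool.Agent.P.MP_f8f34d_lc.W.RepDef
import Pool.Agent.P.MP_f8f34d_lc.a.Sat

/-! What is used about models of arithmetic. -/

namespace Pool.Agent.MinDeg

open FirstOrder FirstOrder.Language

open Classical in
/-- characteristic function -/
noncomputable def chi (A : Set ℕ) : CS := fun n => decide (n ∈ A)

structure PaFacts : Prop where
  inf : ∀ (M : Type) [LA.Structure M] [Nonempty M], M ⊨ PA → Infinite M
  rep : ∀ (T : LA.Theory), T.IsMaximal → PA ⊆ T → ∀ (M : Type) [LA.Structure M] [Nonempty M],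
    M ⊨ T → ∀ k, {n | TK (PreLA M) k n = true} ∈ RepT T
  same : ∀ (T : LA.Theory), T.IsMaximal → PA ⊆ T → ∀ (M N : Type) [LA.Structure M] [Nonempty M]
    [LA.Structure N] [Nonempty N], M ⊨ T → N ⊨ T → ∀ k, TK (PreLA M) k = TK (PreLA N) k
  le : ∀ (T : LA.Theory), T.IsMaximal → PA ⊆ T → T ≠ TA → ∀ B : LA.Structure ℕ,
    @Theory.Model LA ℕ B T → ∀ A ∈ RepT T, TuringReducible (hat (chi A)) (hat (dg B))
  nf : ∀ (M N : Type) [LA.Structure M] [Nonempty M] [LA.Structure N] [Nonempty N],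
    (∀ k, TK (PreLA M) k = TK (PreLA N) k) → completeTheory LA M = completeTheory LA N

end Pool.Agent.MinDeg
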