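import Pool.Agent.P.MP_f8f34d_lc.W.Game
import Pool.Agent.P.MP_f8f34d_lc.a.Sat

/-! Forcing sets and the truth lemma. -/

namespace Pool.Agent.MinDeg

open Pool.Agent.Lib.ComputableProp Filter

/-- the forcing sets -/
def Fc (J : Set CS) : ℕ → ℕ → (ℕ → ℕ) → Bool → Set Cd
  | 0, c, v, b => {d | IsC J d ∧ ∀ y ∈ d.2, y (gA c (v 0) (v 1) (v 2)) = b}
  | k + 1, c, v, b => if c % 2 = 0 then Fc J k (c / 2) v b else
      let P : Set Cd := {d | ∃ w : ℕ → ℕ, (∀ i < (blk (c / 2)).1, w i = v i) ∧ IsC J d ∧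
        ∀ l ∈ (blk (c / 2)).2, d ∈ Fc J k l.2.1 (ren w l.2.2) l.1}
      cond b P {d | IsC J d ∧ d ∉ Reach J P}

/-- the theory that a condition reaches -/
def rth (J : Set CS) (d : Cd) (k : ℕ) (L : List Lt) : Prop :=
  d ∈ Reach J (Fc J (k + 1) (exC 0 L) (fun _ => 0) true)

/-- the conditions that force all literals of the block at the witness `w` -/
def truth_W (J : Set CS) (k c : ℕ) (w : ℕ → ℕ) : Set Cd :=
  {d | IsC J d ∧ ∀ l ∈ (blk (c / 2)).2, d ∈ Fc J k l.2.1 (ren w l.2.2) l.1}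

theorem truth_even (J : Set CS) (k : ℕ) {c : ℕ} (h : c % 2 = 0) (v : ℕ → ℕ) (b : Bool) :
    Fc J (k + 1) c v b = Fc J k (c / 2) v b := by
  rw [Fc, if_pos h]

theorem truth_true (J : Set CS) (k : ℕ) {c : ℕ} (h : ¬ c % 2 = 0) (v : ℕ → ℕ) :
    Fc J (k + 1) c v true =
      ⋃₀ {D | ∃ w : ℕ → ℕ, (∀ i < (blk (c / 2)).1, w i = v i) ∧ D = truth_W J k c w} := by
  rw [Fc, if_neg h]
  ext d
  constructor
  · rintro ⟨w, h1, h2⟩
    exact ⟨_, ⟨w, h1, rfl⟩, h2⟩
  · rintro ⟨_, ⟨w, h1, rfl⟩, h2⟩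
    exact ⟨w, h1, h2⟩

theorem truth_false (J : Set CS) (k : ℕ) {c : ℕ} (h : ¬ c % 2 = 0) (v : ℕ → ℕ) :
    Fc J (k + 1) c v false = {d | IsC J d ∧ d ∉ Reach J (Fc J (k + 1) c v true)} := by
  rw [Fc, Fc, if_neg h, if_neg h]
  rfl

theorem pers_Fc {J : Set CS} (hJ : Idl J) (k c : ℕ) (v : ℕ → ℕ) (b : Bool) :
    Pers J (Fc J k c v b) := by
  induction k generalizing c v b with
  | zero =>
    refine ⟨fun d hd => hd.1, fun d hd Q hQ hs => ⟨hQ, fun y hy => hd.2 y (hs hy)⟩,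
      fun d hd ζ V hF => ⟨ζ, V, ⟨hF, fun B hB => ⟨hB, subset_rfl⟩⟩, fun B hB hζ =>
        ⟨hF.isC hJ hd.1 hB hζ, fun y hy => hd.2 y ((hF.2 B hζ).2 hy)⟩⟩⟩
  | succ k ih =>
    by_cases h : c % 2 = 0
    · rw [truth_even J k h]
      exact ih _ _ _
    have h1 : Pers J (Fc J (k + 1) c v true) := by
      rw [truth_true J k h]
      refine pers_sUnion ?_
      rintro _ ⟨w, -, rfl⟩
      exact pers_list hJ _ _ fun l _ => ih _ _ _
    cases b
    · rw [truth_false J k h]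
      exact h1.avoid hJ
    · exact h1

theorem truth_pers_W {J : Set CS} (hJ : Idl J) (k c : ℕ) (w : ℕ → ℕ) :
    Pers J (truth_W J k c w) :=
  pers_list hJ _ _ fun _ _ => pers_Fc hJ _ _ _ _

/-- the goal that decides the code `c` of level `k` at `v` -/
def truth_G (J : Set CS) : ℕ → ℕ → (ℕ → ℕ) → Set (Set Cd)
  | 0, c, v => {D | ∃ b, D = Fc J 0 c v b}
  | k + 1, c, v => if c % 2 = 0 then {{d | IsC J d}} else
      {D | D = Fc J (k + 1) c v false ∨
        ∃ w : ℕ → ℕ, (∀ i < (blk (c / 2)).1, w i = v i) ∧ D = truth_W J k c w}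

theorem truth_goal {J : Set CS} (hJ : Idl J) (k c : ℕ) (v : ℕ → ℕ) :
    Goal J (truth_G J k c v) := by
  cases k with
  | zero =>
    have h1 : ∀ D ∈ truth_G J 0 c v, Pers J D := by
      rintro _ ⟨b, rfl⟩
      exact pers_Fc hJ _ _ _ _
    refine ⟨h1, fun d hd => ?_⟩
    obtain ⟨A, Q⟩ := d
    obtain ⟨hA, ⟨y, hy⟩, i, hi⟩ := id hd
    obtain ⟨s, -, hs⟩ := Pii.index (P := fun z (a : ℕ × ℕ × Bool) =>
      z ∈ K a.1 ∧ rt z a.2.1 = a.2.2) ((pii_K CM.id (by fun_prop)).and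
        (Pii.bit CM.id.rt (by fun_prop) (by fun_prop)))
    have h2 : IsC J (A, Q ∩ {z | z (gA c (v 0) (v 1) (v 2)) = y (gA c (v 0) (v 1) (v 2))}) :=
      ⟨hA, ⟨y, hy, rfl⟩, s (i, gA c (v 0) (v 1) (v 2), y (gA c (v 0) (v 1) (v 2))), fun z => by
        rw [hs, rt_jn]
        exact and_congr_left' (hi z)⟩
    exact (pers_sUnion h1).reach_up hJ (subset_reach _ ⟨_, ⟨_, rfl⟩, h2, fun z hz => hz.2⟩) hd
      Set.inter_subset_left
  | succ k =>
    rw [truth_G]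
    split_ifs with h
    · refine ⟨?_, fun d hd => subset_reach _ ⟨_, rfl, hd⟩⟩
      rintro _ rfl
      exact pers_univ hJ
    refine ⟨?_, fun d hd => ?_⟩
    · rintro _ (rfl | ⟨w, -, rfl⟩)
      · exact pers_Fc hJ _ _ _ _
      · exact truth_pers_W hJ _ _ _
    by_cases hr : d ∈ Reach J (Fc J (k + 1) c v true)
    · refine reach_mono ?_ hr
      rw [truth_true J k h]
      exact Set.sUnion_subset_sUnion fun D hD => Or.inr hD
    · refine subset_reach _ ⟨_, Or.inl rfl, ?_⟩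
      rw [truth_false J k h]
      exact ⟨hd, hr⟩

theorem truth_ren (w : ℕ → ℕ) (r : List ℕ) : ren w r = fun i => (r.map w).getD i (w 0) := by
  funext i
  simp only [ren, List.getD_eq_getElem?_getD, List.getElem?_map]
  cases r[i]? <;> rfl

/-- the truth lemma -/
theorem truth_lemma {J : Set CS} {y : CS} {q : ℕ → Cd} (hq : ∀ p, IsC J (q p))
    (hy : ∀ p, y ∈ (q p).2)
    (hg : ∀ k c (l : List ℕ) d, ∃ D ∈ truth_G J k c (fun i => l.getD i d),
      ∀ᶠ p in atTop, q p ∈ D) (k c : ℕ) (l : List ℕ) (d : ℕ) :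
    (∀ b, (∀ᶠ p in atTop, q p ∈ Fc J k c (fun i => l.getD i d) b) →
      (sat (PreD y) k c (fun i => l.getD i d) ↔ b = true)) ∧
    ∃ b, ∀ᶠ p in atTop, q p ∈ Fc J k c (fun i => l.getD i d) b := by
  induction k generalizing c l d with
  | zero =>
    refine ⟨fun b hb => ?_, ?_⟩
    · obtain ⟨p, hp⟩ := hb.exists
      rw [sat_zero, PreD, hp.2 y (hy p)]
    · obtain ⟨_, ⟨b, rfl⟩, hb⟩ := hg 0 c l d
      exact ⟨b, hb⟩
  | succ k ih =>
    by_cases h : c % 2 = 0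
    · simp only [truth_even J k h, sat_even _ h]
      exact ih _ _ _
    have ih' : ∀ (w : ℕ → ℕ) (x : Lt),
        (∀ b, (∀ᶠ p in atTop, q p ∈ Fc J k x.2.1 (ren w x.2.2) b) →
          (sat (PreD y) k x.2.1 (ren w x.2.2) ↔ b = true)) ∧
        ∃ b, ∀ᶠ p in atTop, q p ∈ Fc J k x.2.1 (ren w x.2.2) b := fun w x => by
      rw [truth_ren]
      exact ih _ _ _
    have dis : (∀ᶠ p in atTop, q p ∈ Fc J (k + 1) c (fun i => l.getD i d) true) →
        ¬ ∀ᶠ p in atTop, q p ∈ Fc J (k + 1) c (fun i => l.getD i d) false := fun h1 h2 => by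
      obtain ⟨p, k1, k2⟩ := (h1.and h2).exists
      rw [truth_false J k h] at k2
      exact k2.2 (subset_reach _ k1)
    have sub : ∀ w : ℕ → ℕ, (∀ i < (blk (c / 2)).1, w i = l.getD i d) →
        truth_W J k c w ⊆ Fc J (k + 1) c (fun i => l.getD i d) true := fun w hw => by
      rw [truth_true J k h]
      exact Set.subset_sUnion_of_mem ⟨w, hw, rfl⟩
    obtain ⟨D, hD, hK⟩ := hg (k + 1) c l d
    rw [truth_G, if_neg h] at hD
    rw [sat_odd _ (by omega)]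
    rcases hD with rfl | ⟨w, hw, rfl⟩
    · refine ⟨fun b hb => ?_, false, hK⟩
      cases b
      · refine iff_of_false ?_ (by simp)
        rintro ⟨w, hw, hH⟩
        refine dis (Eventually.mono ?_ fun p hp => sub w hw ⟨hq p, hp⟩) hK
        refine (Filter.eventually_all_finite (List.finite_toSet _)).2 fun x hx => ?_
        obtain ⟨k1, b, k2⟩ := ih' w x
        obtain rfl : b = x.1 := Bool.eq_iff_iff.2 ((k1 b k2).symm.trans (hH x hx))
        exact k2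
      · exact absurd hK (dis hb)
    · have h1 := hK.mono fun p hp => sub w hw hp
      refine ⟨fun b hb => ?_, true, h1⟩
      cases b
      · exact absurd hb (dis h1)
      · exact iff_of_true ⟨w, hw, fun x hx => (ih' w x).1 _ (hK.mono fun p hp => hp.2 x hx)⟩ rfl

/-- if no condition reaches exactly `θ`, countably many goals keep a point away from `θ` -/
theorem exists_goals {J : Set CS} (hJ : Idl J) (θ : ℕ → List Lt → Prop)
    (hθ : ∀ d, IsC J d → ∃ k L, ¬ (rth J d k L ↔ θ k L)) :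
    ∃ goal : ℕ → Set (Set Cd), (∀ g, Goal J (goal g)) ∧
      ∀ (y : CS) (c : ℕ → Cd), (∀ p, IsC J (c p)) → (∀ p, y ∈ (c p).2) →
        (∀ g, ∃ D ∈ goal g, ∀ᶠ p in atTop, c p ∈ D) → ∃ k L, ¬ (th (PreD y) k L ↔ θ k L) := by
  obtain ⟨e, he⟩ := exists_surjective_nat (Option (ℕ × ℕ × List ℕ × ℕ))
  obtain ⟨G, G0, G1⟩ : ∃ G : Option (ℕ × ℕ × List ℕ × ℕ) → Set (Set Cd),
      G none = {D | ∃ k L b, ¬ (b = true ↔ θ k L) ∧ D = Fc J (k + 1) (exC 0 L) (fun _ => 0) b} ∧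
      ∀ k c l d, G (some (k, c, l, d)) = truth_G J k c fun i => l.getD i d :=
    ⟨fun o => o.elim _ fun t => truth_G J t.1 t.2.1 fun i => t.2.2.1.getD i t.2.2.2, rfl,
      fun _ _ _ _ => rfl⟩
  refine ⟨fun g => G (e g), fun g => ?_, fun y q hq hy hg => ?_⟩
  · beta_reduce
    rcases e g with _ | ⟨k, c, l, d⟩
    · rw [G0]
      refine ⟨?_, fun d hd => ?_⟩
      · rintro _ ⟨k, L, b, -, rfl⟩
        exact pers_Fc hJ _ _ _ _
      obtain ⟨k, L, h⟩ := hθ d hd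
      by_cases hr : rth J d k L
      · refine reach_mono (fun x hx => ?_) hr
        exact ⟨_, ⟨k, L, true, fun h' => h (iff_of_true hr (h'.1 rfl)), rfl⟩, hx⟩
      · refine subset_reach _ ⟨_, ⟨k, L, false, fun h' => h (iff_of_false hr fun h2 =>
          Bool.false_ne_true (h'.2 h2)), rfl⟩, ?_⟩
        rw [truth_false J k (by unfold exC; omega)]
        exact ⟨hd, hr⟩
    · rw [G1]
      exact truth_goal hJ _ _ _
  · have hg' : ∀ o, ∃ D ∈ G o, ∀ᶠ p in atTop, q p ∈ D := fun o => by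
      obtain ⟨g, rfl⟩ := he o
      exact hg g
    obtain ⟨D, hD, hK⟩ := hg' none
    rw [G0] at hD
    obtain ⟨k, L, b, hb, rfl⟩ := hD
    have h1 := (truth_lemma hq hy (fun k c l d => G1 k c l d ▸ hg' _) (k + 1) (exC 0 L) [] 0).1 b hK
    rw [sat_exC] at h1
    refine ⟨k, L, fun h => hb (h1.symm.trans (Iff.trans ?_ h))⟩
    exact exists_congr fun w => and_iff_right fun i hi => absurd hi (Nat.not_lt_zero i)

end Pool.Agent.MinDeg
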