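import Pool.Agent.P.MP_f8f34d_lc.W.FinA
import Pool.Agent.P.MP_f8f34d_lc.W.ConsE
import Pool.Agent.P.MP_f8f34d_lc.W.Truth
import Pool.Agent.P.MP_f8f34d_lc.W.PaStmt

/-! Assembly. -/

namespace Pool.Agent.MinDeg

open FirstOrder FirstOrder.Language Pool.Agent.Lib.ComputableProp

theorem countable_symbols : Countable LA.Symbols := by
  have h1 : Countable (Σ n, Fn n) := by
    refine Function.Surjective.countable (f := fun i : Fin 4 => (![⟨0, Fn.zero⟩, ⟨0, Fn.one⟩,
      ⟨2, Fn.add⟩, ⟨2, Fn.mul⟩] : Fin 4 → Σ n, Fn n) i) ?_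
    rintro ⟨n, f⟩
    cases f
    exacts [⟨0, rfl⟩, ⟨1, rfl⟩, ⟨2, rfl⟩, ⟨3, rfl⟩]
  have h2 : Countable (Σ n, Rl n) := by
    refine Function.Surjective.countable (f := fun _ : Unit => (⟨2, Rl.lt⟩ : Σ n, Rl n)) ?_
    rintro ⟨n, f⟩
    cases f
    exact ⟨(), rfl⟩
  exact inferInstanceAs (Countable ((Σ n, Fn n) ⊕ (Σ n, Rl n)))

theorem countable_RepT (T : LA.Theory) : (RepT T).Countable := by
  have := countable_symbols
  have : Countable (LA.Formula Unit) := inferInstance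
  refine (Set.countable_range fun φ : LA.Formula Unit =>
    {n | (BoundedFormula.subst φ fun _ => numT n : LA.Sentence) ∈ T}).mono ?_
  rintro A ⟨φ, h⟩
  exact ⟨φ, Set.ext fun n => (h n).symm⟩

theorem eq_completeTheory {T : LA.Theory} (hT : T.IsMaximal) (M : Type) [LA.Structure M]
    [Nonempty M] (hM : M ⊨ T) : T = completeTheory LA M := by
  refine Set.Subset.antisymm (fun σ h => hM.realize_of_mem σ h) fun σ h => ?_
  rcases hT.mem_or_not_mem σ with k | k
  · exact k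
  · exact absurd h (Sentence.realize_not M |>.1 (hM.realize_of_mem _ k))

theorem chi_eq (x : CS) : chi {n | x n = true} = x := by
  funext n; simp [chi]

/-- a completion without a minimal degree is read off one condition -/
theorem exceptional (sol : SolovayStmt) (pa : PaFacts) {T : LA.Theory} (hT : T.IsMaximal)
    (hPA : PA ⊆ T) (hTA : T ≠ TA) (N : Type) [LA.Structure N] [Nonempty N] (hN : N ⊨ T)
    (hno : ¬ ∃ d ∈ degrees T, ∀ e ∈ degrees T, ¬ e < d) :
    ∃ d, IsC (JJ (chi '' RepT T)) d ∧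
      ∀ k L, rth (JJ (chi '' RepT T)) d k L ↔ th (PreLA N) k L := by
  by_contra hc
  have hJ := idl_JJ (chi '' RepT T)
  obtain ⟨goal, hg, hgoal⟩ := exists_goals hJ (th (PreLA N)) fun d hd => by
    by_contra h
    exact hc ⟨d, hd, fun k L => by_contra fun h' => h ⟨k, L, h'⟩⟩
  obtain ⟨X, hX, ⟨R, h1, h2, h3⟩, hmin⟩ := construct hJ (TK (PreLA N))
    (fun k => subset_JJ _ ⟨_, pa.rep T hT hPA N hN k, chi_eq _⟩) goal hg
  have := pa.inf N (hN.mono hPA)
  obtain ⟨M, hM, hMX⟩ := model_of_records sol N hX h1 h2 h3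
  have hMT : @Theory.Model LA ℕ M T := by
    rw [eq_completeTheory hT N hN, ← @pa.nf ℕ N M _ _ _ hM]
    exact @model_completeTheory LA ℕ M
  refine hno ⟨deg M, ⟨M, hMT, rfl⟩, ?_⟩
  rintro _ ⟨B, hB, rfl⟩ hlt
  rw [deg_eq, deg_eq] at hlt
  have hBM : LeT (dg B) (dg M) := LeT.of_turing hlt.le
  obtain ⟨e, he, hag⟩ := (hBM.trans hMX).exists_fun
  rcases hmin e _ he hag with ⟨A, hA, hle⟩ | ⟨c, k1, k2, k3⟩
  · have hAB : LeT A (dg B) := by
      refine JJ_le ?_ A hA
      rintro _ ⟨A', hA', rfl⟩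
      exact LeT.of_turing (pa.le T hT hPA hTA B hB A' hA')
    exact hlt.not_ge (show TuringReducible (hat (dg M)) (hat (dg B)) from
      (hMX.trans (hle.trans (hAB.jn (LeT.refl _)))).turing)
  · obtain ⟨k, L, h⟩ := hgoal _ c k1 k2 k3
    apply h
    rw [preD_dg, ← TK_iff, ← TK_iff, @pa.same T hT hPA ℕ N B _ _ _ hB hN k]

theorem wide_main (sol : SolovayStmt) (pa : PaFacts) (S : Set (Set ℕ)) :
    Set.Countable {T : LA.Theory | T.IsMaximal ∧ PA ⊆ T ∧ RepT T = S ∧
      ¬ ∃ d ∈ degrees T, ∀ e ∈ degrees T, ¬ e < d} := by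
  by_cases hS : S.Countable
  swap
  · refine Set.countable_empty.mono ?_
    rintro T ⟨-, -, rfl, -⟩
    exact hS (countable_RepT T)
  have hc := countable_isC (countable_JJ (hS.image chi))
  let F : Cd → Set LA.Theory := fun d => {T | T.IsMaximal ∧ ∃ N : Theory.ModelType.{0, 0, 0} T,
    ∀ k L, rth (JJ (chi '' S)) d k L ↔ th (PreLA N) k L}
  have hF : ∀ d, (F d).Countable := by
    intro d
    refine Set.Subsingleton.countable ?_
    rintro T ⟨hT, N, hN⟩ T' ⟨hT', N', hN'⟩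
    rw [eq_completeTheory hT N N.is_model, eq_completeTheory hT' N' N'.is_model]
    refine pa.nf N N' fun k => funext fun n => ?_
    have : th (PreLA N) k (decL n) ↔ th (PreLA N') k (decL n) := (hN k _).symm.trans (hN' k _)
    unfold TK
    rw [propext this]
  refine ((hc.biUnion fun d _ => hF d).insert TA).mono ?_
  rintro T ⟨hT, hPA, rfl, hno⟩
  by_cases hTA : T = TA
  · exact Or.inl hTA
  obtain ⟨N⟩ := hT.1
  obtain ⟨d, hd, h⟩ := exceptional sol pa hT hPA hTA N N.is_model hno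
  exact Or.inr (Set.mem_biUnion hd ⟨hT, N, h⟩)

end Pool.Agent.MinDeg
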