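import Pool.Agent.P.MP_f8f34d_lc.W.Tool

/-! The base class of effective enumerations: path columns and flexible columns. -/

namespace Pool.Agent.MinDeg

open Pool.Agent.Lib.ComputableProp

variable {α : Type} [Primcodable α]

/-- keep the columns below `m` and the first `n` bits of column `m` -/
def mask (m n : ℕ) (X : CS) : CS := fun p =>
  cond (leb (p.unpair.1 + 1) m || (eqb p.unpair.1 m && leb (p.unpair.2 + 1) n)) (X p) false

theorem CM.mask {F : CS → α → CS} (h : CM F) {m n : α → ℕ} (hm : Computable m)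
    (hn : Computable n) : CM (fun z a => mask (m a) (n a) (F z a)) :=
  CM.cond h CM.zz (c := fun a p => leb (p.unpair.1 + 1) (m a) ||
    (eqb p.unpair.1 (m a) && leb (p.unpair.2 + 1) (n a))) (by fun_prop)

/-- value `b` is declared dead at bit `n` of column `m` -/
def Dead (x : CS) (w : ℕ × ℕ) (b : Bool) : Prop :=
  Un (Nat.pair w.1.unpair.1 (Encodable.encode (w, b))) x

theorem sig_Dead : Sig (fun x (u : (ℕ × ℕ) × Bool) => Dead x u.1 u.2) :=
  sig_Un.comp (f := fun u : (ℕ × ℕ) × Bool => Nat.pair u.1.1.unpair.1 (Encodable.encode u))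
    (by fun_prop)

/-- the single valued version of `Dead` -/
def Dead1 : CS → ℕ × ℕ → Bool → Prop := sig_Dead.unif.choose

/-- the base class -/
def PP : Set CS := {X | ∀ m n, ¬ Dead1 (mask m n X) (m, n) (X (Nat.pair m n))}

theorem base_spec : Sig (fun x (u : (ℕ × ℕ) × Bool) => Dead1 x u.1 u.2) ∧
    (∀ x w b, Dead1 x w b → Dead x w b) ∧ (∀ x w b b', Dead1 x w b → Dead1 x w b' → b = b') ∧
    ∀ x w b, Dead x w b → ∃ b', Dead1 x w b' := sig_Dead.unif.choose_spec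

theorem base_mask_lt {m n j : ℕ} (h : j < m) (X : CS) : col (mask m n X) j = col X j := by
  funext k
  have : j + 1 ≤ m := h
  simp [col, mask, leb, this]

theorem base_mask_eq {m n k : ℕ} (h : k < n) (X : CS) :
    mask m n X (Nat.pair m k) = X (Nat.pair m k) := by
  have : k + 1 ≤ n := h
  simp [mask, leb, eqb, this]

theorem base_mask_lev {μ : List ℕ} {m : ℕ} (h : μ.sum + 1 ≤ m) (n : ℕ) (X : CS) :
    lev μ (mask m n X) = lev μ X :=
  lev_eq_iff.2 fun j hj => base_mask_lt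
    (Nat.lt_of_succ_le ((Nat.succ_le_succ (List.single_le_sum (fun _ _ => Nat.zero_le _) j hj)).trans
      h)) X

/-- recursion along the lexicographic order -/
theorem base_rec (g : CS → ℕ × ℕ → Bool) :
    ∃ X : CS, ∀ m n, X (Nat.pair m n) = g (mask m n X) (m, n) := by
  classical
  have wf : WellFounded (InvImage (Prod.Lex (· < ·) (· < ·)) Nat.unpair) :=
    InvImage.wf _ (WellFounded.prod_lex wellFounded_lt wellFounded_lt)
  let X : CS := wf.fix fun q ih => g (fun p =>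
    if h : InvImage (Prod.Lex (· < ·) (· < ·)) Nat.unpair p q then ih p h else false) q.unpair
  refine ⟨X, fun m n => ?_⟩
  have h1 : X (Nat.pair m n) = g (fun p =>
      if InvImage (Prod.Lex (· < ·) (· < ·)) Nat.unpair p (Nat.pair m n) then X p else false)
      (Nat.pair m n).unpair := wf.fix_eq _ _
  rw [h1, Nat.unpair_pair]
  congr 1
  funext p
  by_cases h : InvImage (Prod.Lex (· < ·) (· < ·)) Nat.unpair p (Nat.pair m n)
  · rw [if_pos h]
    simp only [InvImage, Nat.unpair_pair, Prod.lex_def] at h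
    rcases h with h | ⟨h, h'⟩
    · have : p.unpair.1 + 1 ≤ m := h
      simp [mask, leb, this]
    · have : p.unpair.2 + 1 ≤ n := h'
      simp [mask, leb, eqb, h, this]
  · rw [if_neg h]
    simp only [InvImage, Nat.unpair_pair, Prod.lex_def, not_or, not_and] at h
    have k1 : ¬ p.unpair.1 + 1 ≤ m := h.1
    by_cases k2 : p.unpair.1 = m
    · have k3 : ¬ p.unpair.2 + 1 ≤ n := h.2 k2
      simp [mask, leb, eqb, k2, k3]
    · simp [mask, leb, eqb, k1, k2]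

/-- a column that obeys a given rule -/
theorem base_rule {β : Type} [Primcodable β] {Z : CS → β → ℕ × ℕ → Bool → Prop}
    (h : Sig (fun x (u : ((ℕ × ℕ) × Bool) × β) => Z x u.2 u.1.1 u.1.2)) {l : β → ℕ}
    (hl : Computable l) : ∃ κ : β → ℕ, Computable κ ∧ (∀ t, l t ≤ κ t) ∧
      ∀ x t n b, Dead x (κ t, n) b ↔ Z x t (κ t, n) b := by
  have h1 : Sig (fun x (u : (ℕ × ℕ) × Bool) =>
      ∃ t : β, Encodable.encode t = u.1.1.unpair.2.unpair.1 ∧ Z x t u.1 u.2) :=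
    Sig.ex (Sig.and (Sig.of_re (RE.eq (by fun_prop) (by fun_prop))) h)
  obtain ⟨e, he⟩ := h1.index
  refine ⟨fun t => Nat.pair e (Nat.pair (Encodable.encode t) (l t)), by fun_prop,
    fun t => (Nat.right_le_pair _ _).trans (Nat.right_le_pair _ _), fun x t n b => ?_⟩
  have h2 := he x ((Nat.pair e (Nat.pair (Encodable.encode t) (l t)), n), b)
  simp only [Nat.unpair_pair] at h2
  unfold Dead
  simp only [Nat.unpair_pair]
  rw [← h2]
  exact ⟨fun ⟨t', k1, k2⟩ => Encodable.encode_injective k1 ▸ k2, fun k => ⟨t, rfl, k⟩⟩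

/-- a point outside a section of a closed relation has a cylinder outside it -/
theorem base_sec {P : CS → CS → α → Prop} (h : Pii (fun z a => P (lf z) (rt z) a)) {A B : CS}
    {a : α} (hB : ¬ P A B a) : ∃ n, ∀ m, n ≤ m → ∀ Y, (∀ k < m, Y k = B k) → ¬ P A Y a := by
  have ho : IsOpen {z | ¬ P (lf z) (rt z) a} := Sig.isOpen h a
  obtain ⟨n, hn⟩ := exists_pre_of_isOpen ho (x := jn A B) (by simpa using hB)
  refine ⟨n, fun m hm Y hY => ?_⟩
  have := hn n le_rfl (jn A Y) (ext_pre_iff.2 fun k hk => by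
    unfold jn
    split_ifs
    · rfl
    · exact hY _ (by omega))
  simpa using this

theorem pii_PP {F : CS → α → CS} (hF : CM F) : Pii (fun z a => F z a ∈ PP) := by
  have hF' := hF.comp (g := fun w : α × (ℕ × ℕ) × Bool => w.1) (by fun_prop)
  have : Pii (fun z a => ∀ u : (ℕ × ℕ) × Bool,
      ¬ (Dead1 (mask u.1.1 u.1.2 (F z a)) u.1 u.2 ∧ F z a (Nat.pair u.1.1 u.1.2) = u.2)) :=
    Pii.all (Pii.not (Sig.and
      (base_spec.1.map (hF'.mask (m := fun w => w.2.1.1) (n := fun w => w.2.1.2) (by fun_prop)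
        (by fun_prop)) (g := fun w => w.2) (by fun_prop))
      (hF'.bit (by fun_prop) (by fun_prop))))
  exact this.of_iff fun z a => ⟨fun H m n k => H ((m, n), _) ⟨k, rfl⟩,
    fun H u k => H u.1.1 u.1.2 (by rw [k.2]; exact k.1)⟩

theorem PP_nonempty : PP.Nonempty := by
  classical
  obtain ⟨X, hX⟩ := base_rec fun x w => decide (Dead1 x w false)
  refine ⟨X, fun m n k => ?_⟩
  rw [hX] at k
  by_cases h : Dead1 (mask m n X) (m, n) false
  · rw [decide_eq_true h] at k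
    exact Bool.noConfusion (base_spec.2.2.1 _ _ _ _ h k)
  · rw [decide_eq_false h] at k
    exact h k

theorem PP_avoid {X : CS} (hX : X ∈ PP) {m n : ℕ} {b : Bool} (h : Dead (mask m n X) (m, n) b)
    (h' : ¬ Dead (mask m n X) (m, n) (!b)) : X (Nat.pair m n) ≠ b := by
  obtain ⟨b', hb'⟩ := base_spec.2.2.2 _ _ _ h
  have h1 : b' = b := by
    by_contra hne
    exact h' (Bool.eq_not_iff.2 hne ▸ base_spec.2.1 _ _ _ hb')
  intro e
  exact hX m n (by rw [e, ← h1]; exact hb')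

theorem exists_path : ∃ κ : List ℕ × ℕ → ℕ, Computable κ ∧ ∀ X ∈ PP, ∀ μ a,
    (∃ Y, jn (lev μ X) Y ∈ K a) → jn (lev μ X) (col X (κ (μ, a))) ∈ K a := by
  have hZ : Sig (fun x (u : ((ℕ × ℕ) × Bool) × List ℕ × ℕ) => ∀ Y : CS,
      (∀ k, k < u.1.1.2 → Y k = x (Nat.pair u.1.1.1 k)) → Y u.1.1.2 = u.1.2 →
      ¬ jn (lev u.2.1 x) Y ∈ K u.2.2) :=
    Sig.all (P := fun x Y (u : ((ℕ × ℕ) × Bool) × List ℕ × ℕ) =>
      (∀ k, k < u.1.1.2 → Y k = x (Nat.pair u.1.1.1 k)) → Y u.1.1.2 = u.1.2 →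
      ¬ jn (lev u.2.1 x) Y ∈ K u.2.2)
      (Sig.imp (Pii.all (Pii.imp (Sig.of_re (RE.lt (by fun_prop) (by fun_prop)))
        (Pii.beq CM.id.rt CM.id.lf (by fun_prop) (by fun_prop))))
      (Sig.imp (Pii.bit CM.id.rt (by fun_prop) (by fun_prop))
        (pii_K ((CM.id.lf.lev (by fun_prop)).jn CM.id.rt) (by fun_prop)).neg))
  obtain ⟨κ, h1, h2, h3⟩ := base_rule (Z := fun x (t : List ℕ × ℕ) w b => ∀ Y : CS,
    (∀ k, k < w.2 → Y k = x (Nat.pair w.1 k)) → Y w.2 = b → ¬ jn (lev t.1 x) Y ∈ K t.2) hZ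
    (l := fun t => t.1.sum + 1) (by fun_prop)
  refine ⟨κ, h1, fun X hX μ a hY => ?_⟩
  have key : ∀ n, ∃ Y, (∀ k < n, Y k = col X (κ (μ, a)) k) ∧ jn (lev μ X) Y ∈ K a := by
    intro n
    induction n with
    | zero => exact hY.imp fun Y h => ⟨fun _ hk => absurd hk (Nat.not_lt_zero _), h⟩
    | succ n ih =>
      obtain ⟨Y, k1, k2⟩ := ih
      by_contra hne
      have k3 : ∀ Y', (∀ k < n, Y' k = col X (κ (μ, a)) k) → Y' n = col X (κ (μ, a)) n →
          ¬ jn (lev μ X) Y' ∈ K a := fun Y' a1 a2 a3 => hne ⟨Y', fun k hk => by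
        rcases Nat.lt_succ_iff_lt_or_eq.1 hk with hk | rfl
        exacts [a1 k hk, a2], a3⟩
      refine PP_avoid hX (m := κ (μ, a)) (n := n) ((h3 _ _ _ _).2 fun Y' a1 a2 => ?_)
        (fun H => ?_) rfl
      · rw [base_mask_lev (h2 (μ, a))]
        exact k3 Y' (fun k hk => (a1 k hk).trans (base_mask_eq hk X)) a2
      · refine (h3 _ _ _ _).1 H Y (fun k hk => (k1 k hk).trans (base_mask_eq hk X).symm)
          (Bool.eq_not_iff.2 fun e => k3 Y k1 e k2) ?_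
        rw [base_mask_lev (h2 (μ, a))]
        exact k2
  by_contra hne
  obtain ⟨n, hn⟩ := base_sec (P := fun A Y (a : ℕ) => jn A Y ∈ K a)
    (pii_K (CM.id.lf.jn CM.id.rt) Computable.id) hne
  obtain ⟨Y, k1, k2⟩ := key n
  exact hn n le_rfl Y k1 k2

/-- a column that is a member of a closed class described from finitely many columns -/
theorem path_loc {P : CS → CS → α → Prop} (h : Pii (fun z a => P (lf z) (rt z) a))
    {μ : α → List ℕ} (hμ : Computable μ)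
    (loc : ∀ X X' Y a, (∀ m ∈ μ a, col X m = col X' m) → P X Y a → P X' Y a) :
    ∃ κ : α → ℕ, Computable κ ∧ ∀ X ∈ PP, ∀ a, (∃ Y, P X Y a) → P X (col X (κ a)) a := by
  have h1 : Pii (fun z a => ∃ w, lev (μ a) w = lf z ∧ P w (rt z) a) :=
    Pii.exC (P := fun z w a => lev (μ a) w = lf z ∧ P w (rt z) a)
      (Pii.and (Pii.eqC (CM.id.rt.lev hμ) CM.id.lf.lf)
        ((h.map (CM.id.rt.jn CM.id.lf.rt) Computable.id).of_iff fun z a => by simp))
  obtain ⟨s, hs, h2⟩ := h1.index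
  obtain ⟨κ, hκ, h3⟩ := exists_path
  refine ⟨fun a => κ (μ a, s a), hκ.comp (by fun_prop), fun X hX a ⟨Y, hY⟩ => ?_⟩
  obtain ⟨w, k1, k2⟩ := (h2 _ a).1 (h3 X hX (μ a) (s a) ⟨Y, (h2 _ a).2 ⟨X, by simp, by simpa⟩⟩)
  rw [lf_jn] at k1
  rw [rt_jn] at k2
  exact loc _ _ _ a (lev_eq_iff.1 k1) k2

theorem exists_flex : ∃ φ : List ℕ × List Bool × ℕ → ℕ, Computable φ ∧ ∀ μ ζ a A,
    (∀ B, Ext ζ B → ∃ X ∈ PP, lev μ X = A ∧ jn B X ∈ K a) →
    ∀ B, Ext ζ B → ∃ X ∈ PP, lev μ X = A ∧ jn B X ∈ K a ∧ col X (φ (μ, ζ, a)) = B := by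
  have hE : Sig (fun A (u : ((List ℕ × List Bool × ℕ) × ℕ) × List Bool) =>
      Ext u.1.1.2.1 (fun n => u.2.getD n false) ∧ ∀ X : CS, Ext u.2 (col X u.1.2) → X ∈ PP →
        lev u.1.1.1 X = A → ¬ jn (col X u.1.2) X ∈ K u.1.1.2.2) :=
    Sig.and ((CM.const (h := fun (u : ((List ℕ × List Bool × ℕ) × ℕ) × List Bool) n =>
        u.2.getD n false) (by fun_prop)).ext (by fun_prop))
      (Sig.all (P := fun A X (u : ((List ℕ × List Bool × ℕ) × ℕ) × List Bool) =>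
        Ext u.2 (col X u.1.2) → X ∈ PP → lev u.1.1.1 X = A → ¬ jn (col X u.1.2) X ∈ K u.1.1.2.2)
        (Sig.imp (Pii.ext (CM.id.rt.col (by fun_prop)) (by fun_prop))
          (Sig.imp (pii_PP CM.id.rt) (Sig.imp (Pii.eqC (CM.id.rt.lev (by fun_prop)) CM.id.lf)
            (pii_K ((CM.id.rt.col (by fun_prop)).jn CM.id.rt) (by fun_prop)).neg))))
  obtain ⟨E, e1, e2, e3, e4⟩ := Sig.unif (P := fun A (v : (List ℕ × List Bool × ℕ) × ℕ)
    (τ : List Bool) => Ext v.1.2.1 (fun n => τ.getD n false) ∧ ∀ X : CS, Ext τ (col X v.2) →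
      X ∈ PP → lev v.1.1 X = A → ¬ jn (col X v.2) X ∈ K v.1.2.2) hE
  have hZ : Sig (fun x (u : ((ℕ × ℕ) × Bool) × List ℕ × List Bool × ℕ) => ∃ τ : List Bool,
      E (lev u.2.1 x) (u.2, u.1.1.1) τ ∧ u.1.2 ≠ τ.getD u.1.1.2 false) :=
    Sig.ex (Sig.and (e1.map (CM.id.lev (by fun_prop))
      (g := fun w : (((ℕ × ℕ) × Bool) × List ℕ × List Bool × ℕ) × List Bool =>
        ((w.1.2, w.1.1.1.1), w.2)) (by fun_prop))
      (Sig.of_re (RE.ne (by fun_prop) (by fun_prop))))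
  obtain ⟨φ, h1, h2, h3⟩ := base_rule (Z := fun x (t : List ℕ × List Bool × ℕ) w b =>
    ∃ τ : List Bool, E (lev t.1 x) (t, w.1) τ ∧ b ≠ τ.getD w.2 false) hZ
    (l := fun t => t.1.sum + 1) (by fun_prop)
  refine ⟨φ, h1, fun μ ζ a A H B hB => ?_⟩
  by_contra hne
  have hP : Pii (fun z (v : List ℕ × ℕ × ℕ) => ∃ X, X ∈ PP ∧ lev v.1 X = lf z ∧
      jn (rt z) X ∈ K v.2.1 ∧ col X v.2.2 = rt z) :=
    Pii.exC (P := fun z X (v : List ℕ × ℕ × ℕ) => X ∈ PP ∧ lev v.1 X = lf z ∧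
      jn (rt z) X ∈ K v.2.1 ∧ col X v.2.2 = rt z)
      (Pii.and (pii_PP CM.id.rt) (Pii.and (Pii.eqC (CM.id.rt.lev (by fun_prop)) CM.id.lf.lf)
        (Pii.and (pii_K (CM.id.lf.rt.jn CM.id.rt) (by fun_prop))
          (Pii.eqC (CM.id.rt.col (by fun_prop)) CM.id.lf.rt))))
  obtain ⟨n, hn⟩ := base_sec (P := fun A B (v : List ℕ × ℕ × ℕ) => ∃ X, X ∈ PP ∧ lev v.1 X = A ∧
    jn B X ∈ K v.2.1 ∧ col X v.2.2 = B) hP (A := A) (B := B) (a := (μ, a, φ (μ, ζ, a))) hne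
  obtain ⟨τ, hτ⟩ := e4 A ((μ, ζ, a), φ (μ, ζ, a)) (pre B (max n ζ.length))
    ⟨fun k hk => (pre_getD B (lt_of_lt_of_le hk (le_max_right _ _))).trans (hB k hk),
      fun X a1 a2 a3 a4 => hn _ (le_max_left _ _) _ (ext_pre_iff.1 a1) ⟨X, a2, a3, a4, rfl⟩⟩
  obtain ⟨k1, k2⟩ := e2 _ _ _ hτ
  obtain ⟨X, a1, a2, a3⟩ := H _ k1
  have hc : col X (φ (μ, ζ, a)) = fun n => τ.getD n false := by
    funext j
    have hl : lev μ (mask (φ (μ, ζ, a)) j X) = A := (base_mask_lev (h2 (μ, ζ, a)) j X).trans a2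
    have := PP_avoid a1 (m := φ (μ, ζ, a)) (n := j) (b := !τ.getD j false)
      ((h3 _ _ _ _).2 ⟨τ, by rw [hl]; exact hτ, by simp⟩) (fun k => by
        obtain ⟨τ', b1, b2⟩ := (h3 _ _ _ _).1 k
        rw [hl] at b1
        rw [e3 _ _ _ _ b1 hτ] at b2
        exact b2 (Bool.not_not _))
    simpa [col] using this
  exact k2 X (by rw [hc]; exact fun _ _ => rfl) a1 a2 (by rw [hc]; exact a3)

end Pool.Agent.MinDeg
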