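import Pool.Agent.P.MP_f8f34d_lc.Defs

namespace Pool.Agent.MinDeg

open FirstOrder FirstOrder.Language

/-- The numeral `0 + 1 + ⋯ + 1`. -/
def numT : ℕ → LA.Term Empty
  | 0 => zeroT
  | n + 1 => addT (numT n) oneT

/-- The family `Rep(T)` of sets represented in `T`: `n ∈ A` iff `φ(n)` is in `T`. -/
def RepT (T : LA.Theory) : Set (Set ℕ) :=
  {A | ∃ φ : LA.Formula Unit, ∀ n : ℕ,
    n ∈ A ↔ (BoundedFormula.subst φ fun _ => numT n : LA.Sentence) ∈ T}

end Pool.Agent.MinDeg
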