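import Pool.Agent.P.MP_f8f34d_lc.W.MachDefs

/-! The run of the machine is computable in the double jump. -/

namespace Pool.Agent.MinDeg

open Pool.Agent.Lib.ComputableProp

theorem mach_del_cons (e b : ℕ) (l : List ℕ) :
    del e (b :: l) = cond (eqb b e) (del e l) (b :: del e l) := rfl

theorem mach_length_del_le (e : ℕ) (l : List ℕ) : (del e l).length ≤ l.length := by
  induction l with
  | nil => simp [del]
  | cons b l ih =>
    rw [mach_del_cons]
    cases eqb b e
    · simpa using ih
    · simp only [cond_true, List.length_cons]; omega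

theorem mem_del {e a : ℕ} {l : List ℕ} : a ∈ del e l ↔ a ∈ l ∧ a ≠ e := by
  induction l with
  | nil => simp [del]
  | cons b l ih =>
    rw [mach_del_cons, List.mem_cons]
    by_cases h : b = e
    · have h1 : eqb b e = true := (eqb_iff _ _).2 h
      rw [h1, cond_true, ih]
      exact ⟨fun k => ⟨Or.inr k.1, k.2⟩, fun k => ⟨k.1.resolve_left fun u => k.2 (u.trans h), k.2⟩⟩
    · have h1 : eqb b e = false := by simp [eqb, h]
      rw [h1, cond_false, List.mem_cons, ih]
      constructor
      · rintro (k | k)
        · exact ⟨Or.inl k, fun u => h (k.symm.trans u)⟩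
        · exact ⟨Or.inr k.1, k.2⟩
      · rintro ⟨k | k, u⟩
        · exact Or.inl k
        · exact Or.inr ⟨k, u⟩

theorem length_del_lt {e : ℕ} {l : List ℕ} (h : e ∈ l) : (del e l).length < l.length := by
  induction l with
  | nil => simp at h
  | cons b l ih =>
    rw [mach_del_cons]
    by_cases k : b = e
    · have h1 : eqb b e = true := (eqb_iff _ _).2 k
      have := mach_length_del_le e l
      rw [h1, cond_true, List.length_cons]; omega
    · have h1 : eqb b e = false := by simp [eqb, k]
      have := ih ((List.mem_cons.1 h).resolve_left fun u => k u.symm)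
      rw [h1, cond_false, List.length_cons, List.length_cons]; omega

theorem memb_iff {e : ℕ} {l : List ℕ} : memb e l = true ↔ e ∈ l := by
  simp [memb]

section
variable {α : Type} [Primcodable α]

theorem mach_c_iCap {f : α → ℕ × ℕ} (h : Computable f) : Computable fun a => iCap (f a) :=
  ex_iCap.choose_spec.1.comp h
theorem mach_c_iDiv {f : α → ℕ × ℕ × ℕ} (h : Computable f) : Computable fun a => iDiv (f a) :=
  ex_iDiv.choose_spec.1.comp h
theorem mach_c_iMsg {f : α → Hp × Tr3 × ℕ} (h : Computable f) : Computable fun a => iMsg (f a) :=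
  ex_iMsg.choose_spec.1.comp h
theorem mach_c_iPair {f : α → Hp × Tr3} (h : Computable f) : Computable fun a => iPair (f a) :=
  ex_iPair.choose_spec.1.comp h
theorem mach_c_iRt {f : α → ℕ} (h : Computable f) : Computable fun a => iRt (f a) :=
  ex_iRt.choose_spec.1.comp h
theorem mach_c_flex {f : α → List ℕ × List Bool × ℕ} (h : Computable f) :
    Computable fun a => flex (f a) :=
  exists_flex.choose_spec.1.comp h
theorem mach_c_del {e : α → ℕ} {l : α → List ℕ} (he : Computable e) (hl : Computable l) :
    Computable fun a => del (e a) (l a) := by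
  unfold del; fun_prop
theorem mach_c_memb {e : α → ℕ} {l : α → List ℕ} (he : Computable e) (hl : Computable l) :
    Computable fun a => memb (e a) (l a) := by
  unfold memb; fun_prop
theorem mach_c_tail {l : α → List ℕ} (hl : Computable l) : Computable fun a => (l a).tail :=
  Primrec.list_tail.to_comp.comp hl

/-- a state from its nine fields -/
theorem mach_c_mk {a b c d e : α → ℕ} {p q r s : α → List ℕ} (ha : Computable a)
    (hb : Computable b) (hc : Computable c) (hd : Computable d) (he : Computable e)
    (hp : Computable p) (hq : Computable q) (hr : Computable r) (hs : Computable s) :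
    Computable fun x => (((a x, b x, c x, d x, e x), (p x, q x, r x, s x)) : St) :=
  (ha.pair (hb.pair (hc.pair (hd.pair he)))).pair (hp.pair (hq.pair (hr.pair hs)))

theorem mach_c_mode {s : α → St} (h : Computable s) : Computable fun a => (s a).mode :=
  c_fst (c_fst h)
theorem mach_c_ph {s : α → St} (h : Computable s) : Computable fun a => (s a).ph :=
  c_fst (c_snd (c_fst h))
theorem mach_c_ix {s : α → St} (h : Computable s) : Computable fun a => (s a).ix :=
  c_fst (c_snd (c_snd (c_fst h)))
theorem mach_c_key {s : α → St} (h : Computable s) : Computable fun a => (s a).key :=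
  c_fst (c_snd (c_snd (c_snd (c_fst h))))
theorem mach_c_len {s : α → St} (h : Computable s) : Computable fun a => (s a).len :=
  c_snd (c_snd (c_snd (c_snd (c_fst h))))
theorem mach_c_mu {s : α → St} (h : Computable s) : Computable fun a => (s a).mu :=
  c_fst (c_snd h)
theorem mach_c_act {s : α → St} (h : Computable s) : Computable fun a => (s a).act :=
  c_fst (c_snd (c_snd h))
theorem mach_c_todo {s : α → St} (h : Computable s) : Computable fun a => (s a).todo :=
  c_fst (c_snd (c_snd (c_snd h)))
theorem mach_c_rcd {s : α → St} (h : Computable s) : Computable fun a => (s a).rcd :=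
  c_snd (c_snd (c_snd (c_snd h)))
theorem mach_c_own {s : α → St} (h : Computable s) : Computable fun a => (s a).own :=
  c_fst (c_unpair (mach_c_ph h))
theorem mach_c_hA {s : α → St} (h : Computable s) : Computable fun a => (s a).hA :=
  (mach_c_mu h).pair ((Computable.const _).pair ((mach_c_ix h).pair (mach_c_own h)))
theorem mach_c_hB {s : α → St} (h : Computable s) : Computable fun a => (s a).hB :=
  (mach_c_mu h).pair ((c_cons (mach_c_key h) (Computable.const _)).pair ((mach_c_ix h).pair
    (c_getD 0 (mach_c_todo h) (Computable.const _))))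

theorem mach_c_nxAb {s : α → St} {md e w : α → ℕ} (h : Computable s) (h1 : Computable md)
    (h2 : Computable e) (h3 : Computable w) :
    Computable fun a => nxAb (s a) (md a) (e a) (w a) :=
  mach_c_mk h1 (mach_c_ph h) (mach_c_iCap ((mach_c_ix h).pair h3)) (mach_c_key h) (mach_c_len h)
    (mach_c_mu h) (mach_c_del h2 (mach_c_act h)) (mach_c_todo h) (mach_c_rcd h)

theorem mach_c_nxA {s : α → St} {τ : α → Tr3} (h : Computable s) (ht : Computable τ) :
    Computable fun a => nxA (s a) (τ a) := by
  have hf : Computable fun a => flex ((s a).mu, (τ a).2.2, iPair ((s a).hA, τ a)) :=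
    mach_c_flex ((mach_c_mu h).pair ((c_snd (c_snd ht)).pair
      (mach_c_iPair ((mach_c_hA h).pair ht))))
  exact mach_c_mk (c_cond (c_eqb (c_fst (c_unpair (c_cnt (c_fst ht)))) (Computable.const _))
    (Computable.const _) (Computable.const _)) (mach_c_ph h)
    (mach_c_iMsg ((mach_c_hA h).pair (ht.pair hf))) hf (mach_c_len h)
    (mach_c_mu h) (mach_c_act h) (mach_c_act h) (mach_c_rcd h)

theorem mach_c_nxB {s : α → St} {τ : α → Tr3} (h : Computable s) (ht : Computable τ) :
    Computable fun a => nxB (s a) (τ a) :=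
  mach_c_mk (mach_c_mode h) (mach_c_ph h)
    (mach_c_iMsg ((mach_c_hB h).pair (ht.pair (mach_c_key h)))) (mach_c_key h)
    (c_length (c_snd (c_snd ht))) (mach_c_mu h) (mach_c_act h) (mach_c_tail (mach_c_todo h))
    (mach_c_rcd h)

theorem mach_c_nxR {s : α → St} (h : Computable s) : Computable fun a => nxR (s a) :=
  c_cond (c_eqb (mach_c_mode h) (Computable.const _))
    (((Computable.const _).pair (c_snd (c_fst h))).pair
      ((c_cons (mach_c_key h) (mach_c_mu h)).pair (c_snd (c_snd h))))
    (((Computable.const _).pair ((c_add (mach_c_ph h) (Computable.const _)).pair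
      (c_snd (c_snd (c_fst h))))).pair ((c_cons (mach_c_key h) (mach_c_mu h)).pair
      ((mach_c_act h).pair ((mach_c_todo h).pair (c_append (mach_c_rcd h)
        (c_cons (c_natPair (mach_c_key h) (mach_c_len h)) (Computable.const _)))))))

end

theorem mach_c_nx0 : Computable fun w : St × ℕ × Tr3 => nx0 w.1 w.2 := by
  have h : Computable fun w : St × ℕ × Tr3 => w.1 := Computable.fst
  have h1 : Computable fun w : St × ℕ × Tr3 => w.2.1 := c_fst Computable.snd
  exact c_cond (c_eqb h1 (Computable.const _))
    (mach_c_mk (Computable.const _) (mach_c_ph h) (mach_c_ix h) (mach_c_key h) (mach_c_len h)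
      (mach_c_mu h) (c_cons (mach_c_ph h) (mach_c_act h)) (mach_c_todo h) (mach_c_rcd h))
    (((Computable.const _).pair ((mach_c_ph h).pair ((mach_c_iDiv ((mach_c_ix h).pair
      ((mach_c_ph h).pair (c_sub h1 (Computable.const _))))).pair
      ((mach_c_key h).pair (mach_c_len h))))).pair (c_snd h))

theorem mach_c_nx1 : Computable fun w : St × ℕ × Tr3 => nx1 w.1 w.2 := by
  have h : Computable fun w : St × ℕ × Tr3 => w.1 := Computable.fst
  have h1 : Computable fun w : St × ℕ × Tr3 => w.2.1 := c_fst Computable.snd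
  have h2 : Computable fun w : St × ℕ × Tr3 => w.2.2 := c_snd Computable.snd
  exact c_cond (mach_c_memb (mach_c_own h) (mach_c_act h))
    (c_cond (c_eqb h1 (Computable.const _)) (mach_c_nxA h h2)
      (mach_c_nxAb h (Computable.const _) (mach_c_own h) (c_sub h1 (Computable.const _))))
    (((Computable.const _).pair (c_snd (c_fst h))).pair (c_snd h))

theorem mach_c_nx2 : Computable nx2 := by
  have h : Computable fun w : St => w := Computable.id
  exact mach_c_mk (Computable.const _) (mach_c_ph h) (mach_c_ix h)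
    (mach_c_flex ((mach_c_mu h).pair ((Computable.const _).pair (mach_c_iRt (mach_c_ix h)))))
    (Computable.const _) (mach_c_mu h) (mach_c_act h) (mach_c_act h) (mach_c_rcd h)

theorem mach_c_nx3 : Computable fun w : St × ℕ × Tr3 => nx3 w.1 w.2 := by
  have h : Computable fun w : St × ℕ × Tr3 => w.1 := Computable.fst
  have h1 : Computable fun w : St × ℕ × Tr3 => w.2.1 := c_fst Computable.snd
  have h2 : Computable fun w : St × ℕ × Tr3 => w.2.2 := c_snd Computable.snd
  exact c_cond (c_eqb (c_length (mach_c_todo h)) (Computable.const _)) (mach_c_nxR h)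
    (c_cond (c_eqb h1 (Computable.const _)) (mach_c_nxB h h2)
      (mach_c_nxAb h (c_sub (mach_c_mode h) (Computable.const _))
        (c_getD 0 (mach_c_todo h) (Computable.const _)) (c_sub h1 (Computable.const _))))

theorem c_nx : Computable fun w : St × ℕ × Tr3 => nx w.1 w.2 := by
  unfold nx
  exact c_cond (by fun_prop) mach_c_nx0 (c_cond (by fun_prop) mach_c_nx1
    (c_cond (by fun_prop) (mach_c_nx2.comp Computable.fst) mach_c_nx3))

theorem mach_pii_Dv : Pii fun X (w : (List ℕ × ℕ × ℕ) × ℕ) =>
    Dv w.1.1 w.1.2.1 w.1.2.2 (lev w.1.1 X) w.2 :=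
  Pii.exC (P := fun X Y (w : (List ℕ × ℕ × ℕ) × ℕ) =>
      Y ∈ UU w.1.1 w.1.2.1 (lev w.1.1 X) ∧ ∀ b, ¬ Ps w.1.2.2 Y w.2 b)
    ((pii_UU CM.id.rt (CM.id.lf.lev (by fun_prop)) (by fun_prop) (by fun_prop)).and
      (Pii.all (Pii.not (sig_Ps CM.id.rt (by fun_prop) (by fun_prop) (by fun_prop)))))

theorem mach_de_Dv (X : CS) : DE (jp X) fun w : St × ℕ =>
    Dv w.1.mu w.1.ix w.1.ph (lev w.1.mu X) w.2 :=
  DE.comp (f := fun w : St × ℕ => ((w.1.mu, w.1.ix, w.1.ph), w.2)) (mach_pii_Dv.de X)
    (((mach_c_mu Computable.fst).pair ((mach_c_ix Computable.fst).pair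
      (mach_c_ph Computable.fst))).pair Computable.snd)

theorem de_Read (X : CS) : DE (jp (jp X)) fun w : St × ℕ × Tr3 => Read X w.1 w.2 := by
  have h : Computable fun w : St × ℕ × Tr3 => w.1 := Computable.fst
  have h1 : Computable fun w : St × ℕ × Tr3 => w.2.1 := c_fst Computable.snd
  have hD := mach_de_Dv X
  have hmem : DE (jp (jp X)) fun w : St × ℕ × Tr3 => w.1.own ∈ w.1.act :=
    (DE.eq (mach_c_memb (mach_c_own h) (mach_c_act h)) (Computable.const true)).of_iff
      fun _ => memb_iff
  refine DE.and (DE.imp (DE.eq (mach_c_mode h) (Computable.const _)) (DE.or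
    (DE.and (DE.eq h1 (Computable.const _)) ?_) (DE.and (DE.eq h1 (Computable.const _)).not
    (DE.and ?_ ?_)))) (DE.and (DE.imp (DE.eq (mach_c_mode h) (Computable.const _))
    (DE.imp hmem ?_)) (DE.imp (DE.le (Computable.const _) (mach_c_mode h))
    (DE.imp (DE.eq (mach_c_todo h) (Computable.const _)).not ?_)))
  · exact DE.comp (f := fun w : St × ℕ × Tr3 => w.1)
      (DE.all (P := fun (s : St) n => ¬ Dv s.mu s.ix s.ph (lev s.mu X) n) hD.not) h
  · exact DE.comp (f := fun w : St × ℕ × Tr3 => (w.1, w.2.1 - 1)) hD.up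
      (h.pair (c_sub h1 (Computable.const 1)))
  · exact DE.forall_lt (l := fun w : St × ℕ × Tr3 => w.2.1 - 1)
      (P := fun (w : St × ℕ × Tr3) n => ¬ Dv w.1.mu w.1.ix w.1.ph (lev w.1.mu X) n)
      (c_sub h1 (Computable.const 1))
      (DE.comp (f := fun u : (St × ℕ × Tr3) × ℕ => (u.1.1, u.2)) hD.up.not
        ((c_fst Computable.fst).pair Computable.snd))
  · exact DE.comp (f := fun w : St × ℕ × Tr3 => (w.1.hA, w.2)) (de_HRead X)
      ((mach_c_hA h).pair Computable.snd)
  · exact DE.comp (f := fun w : St × ℕ × Tr3 => (w.1.hB, w.2)) (de_HRead X)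
      ((mach_c_hB h).pair Computable.snd)

theorem mach_eqb_false {a b : ℕ} (h : ¬ a = b) : eqb a b = false := by simp [eqb, h]

theorem Step.unique {X : CS} {s s' s'' : St} (h : Step X s s') (h' : Step X s s'') : s' = s'' := by
  obtain ⟨d, ⟨a0, a1, a3⟩, rfl⟩ := h
  obtain ⟨d', ⟨b0, b1, b3⟩, rfl⟩ := h'
  unfold nx
  by_cases m0 : s.mode = 0
  · have e : d.1 = d'.1 := by
      rcases a0 m0 with ⟨k1, k2⟩ | ⟨k1, k2, k3⟩ <;> rcases b0 m0 with ⟨l1, l2⟩ | ⟨l1, l2, l3⟩
      · rw [k1, l1]
      · exact absurd l2 (k2 _)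
      · exact absurd k2 (l2 _)
      · rcases lt_trichotomy (d.1 - 1) (d'.1 - 1) with u | u | u
        · exact absurd k2 (l3 _ u)
        · omega
        · exact absurd l2 (k3 _ u)
    rw [(eqb_iff _ _).2 m0, cond_true, cond_true]
    unfold nx0
    rw [e]
  · rw [mach_eqb_false m0, cond_false, cond_false]
    by_cases m1 : s.mode = 1
    · rw [(eqb_iff _ _).2 m1, cond_true, cond_true]
      unfold nx1
      by_cases k : s.own ∈ s.act
      · obtain ⟨e1, e2⟩ := (a1 m1 k).unique (b1 m1 k)
        rw [memb_iff.2 k, cond_true, cond_true, ← e1]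
        by_cases z : d.1 = 0
        · rw [e2 z]
        · rw [mach_eqb_false z, cond_false, cond_false]
      · have : memb s.own s.act = false := by
          rw [← Bool.not_eq_true, memb_iff]; exact k
        rw [this, cond_false, cond_false]
    · rw [mach_eqb_false m1, cond_false, cond_false]
      by_cases m2 : s.mode = 2
      · rw [(eqb_iff _ _).2 m2, cond_true, cond_true]
      · rw [mach_eqb_false m2, cond_false, cond_false]
        unfold nx3
        by_cases k : s.todo.length = 0
        · rw [(eqb_iff _ _).2 k, cond_true, cond_true]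
        · have m3 : 3 ≤ s.mode := by omega
          have k' : s.todo ≠ [] := fun u => k (by rw [u]; rfl)
          obtain ⟨e1, e2⟩ := (a3 m3 k').unique (b3 m3 k')
          rw [mach_eqb_false k, cond_false, cond_false, ← e1]
          by_cases z : d.1 = 0
          · rw [e2 z]
          · rw [mach_eqb_false z, cond_false, cond_false]

theorem mach_cond_rcd {r : List ℕ} {c : Bool} {u v : St} (hu : ∃ l, u.rcd = r ++ l)
    (hv : ∃ l, v.rcd = r ++ l) : ∃ l, St.rcd (cond c u v) = r ++ l := by
  cases c
  · exact hv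
  · exact hu

theorem nx_rcd (s : St) (d : ℕ × Tr3) : ∃ l, (nx s d).rcd = s.rcd ++ l := by
  unfold nx
  refine mach_cond_rcd ?_ (mach_cond_rcd ?_ (mach_cond_rcd ⟨[], (List.append_nil _).symm⟩ ?_))
  · exact mach_cond_rcd ⟨[], (List.append_nil _).symm⟩ ⟨[], (List.append_nil _).symm⟩
  · exact mach_cond_rcd (mach_cond_rcd ⟨[], (List.append_nil _).symm⟩
      ⟨[], (List.append_nil _).symm⟩) ⟨[], (List.append_nil _).symm⟩
  · exact mach_cond_rcd (mach_cond_rcd ⟨[], (List.append_nil _).symm⟩ ⟨_, rfl⟩)
      (mach_cond_rcd ⟨[], (List.append_nil _).symm⟩ ⟨[], (List.append_nil _).symm⟩)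

theorem mach_c_nx {α : Type} [Primcodable α] {s : α → St} {d : α → ℕ × Tr3} (hs : Computable s)
    (hd : Computable d) : Computable fun a => nx (s a) (d a) :=
  Computable.comp (f := fun w : St × ℕ × Tr3 => nx w.1 w.2) (g := fun a => (s a, d a)) c_nx
    (hs.pair hd)

theorem mach_run_iff {α : Type} {R : α → α → Prop} {a b : α} : Relation.ReflTransGen R a b ↔
    ∃ w : List α × ℕ, (w.1.getD 0 a = a ∧ w.1.getD w.2 a = b) ∧
      ∀ k < w.2, R (w.1.getD k a) (w.1.getD (k + 1) a) := by
  constructor
  · intro h
    have : ∃ (n : ℕ) (f : ℕ → α), f 0 = a ∧ f n = b ∧ ∀ k < n, R (f k) (f (k + 1)) := by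
      induction h with
      | refl => exact ⟨0, fun _ => a, rfl, rfl, fun k hk => absurd hk (Nat.not_lt_zero _)⟩
      | @tail b c _ h ih =>
        obtain ⟨n, f, h0, h1, h2⟩ := ih
        refine ⟨n + 1, fun k => if k ≤ n then f k else c, by simpa using h0, by simp,
          fun k hk => ?_⟩
        have e1 : k ≤ n := by omega
        beta_reduce
        rw [if_pos e1]
        by_cases e2 : k + 1 ≤ n
        · rw [if_pos e2]; exact h2 k e2
        · have e3 : k = n := by omega
          rw [if_neg e2, e3, h1]; exact h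
    obtain ⟨n, f, h0, h1, h2⟩ := this
    have key : ∀ s, s ≤ n → ((List.range (n + 1)).map f).getD s a = f s := by
      intro s hs
      have : s < n + 1 := by omega
      simp [List.getD_eq_getElem?_getD, this]
    refine ⟨((List.range (n + 1)).map f, n), ⟨(key 0 (by omega)).trans h0,
      (key n le_rfl).trans h1⟩, fun k hk => ?_⟩
    have hk' : k < n := hk
    show R (((List.range (n + 1)).map f).getD k a) (((List.range (n + 1)).map f).getD (k + 1) a)
    rw [key k (by omega), key (k + 1) (by omega)]
    exact h2 k hk'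
  · rintro ⟨⟨l, n⟩, ⟨h0, h1⟩, h2⟩
    have key : ∀ k, k ≤ n → Relation.ReflTransGen R a (l.getD k a) := by
      intro k
      induction k with
      | zero => intro _; exact (show l.getD 0 a = a from h0).symm ▸ Relation.ReflTransGen.refl
      | succ k ih => intro hk; exact (ih (by omega)).tail (h2 k hk)
    exact (show l.getD n a = b from h1) ▸ key n le_rfl

theorem mach_se_run {α : Type} [Primcodable α] {y : CS} {R : α → α → Prop}
    (h : SE y fun w : α × α => R w.1 w.2) (a : α) :
    SE y fun b => Relation.ReflTransGen R a b :=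
  (SE.ex (P := fun (b : α) (w : List α × ℕ) => (w.1.getD 0 a = a ∧ w.1.getD w.2 a = b) ∧
      ∀ k < w.2, R (w.1.getD k a) (w.1.getD (k + 1) a))
    (SE.and (SE.of_re (RE.and (RE.eq (by fun_prop) (by fun_prop))
      (RE.eq (by fun_prop) (by fun_prop))))
      (SE.forall_lt (l := fun u : α × List α × ℕ => u.2.2) (by fun_prop)
        (h.comp (f := fun u : (α × List α × ℕ) × ℕ =>
          (u.1.2.1.getD u.2 a, u.1.2.1.getD (u.2 + 1) a)) (by fun_prop))))).of_iff
    fun _ => mach_run_iff.symm

/-- the records of the run are enumerable in the double jump and do not depend on the state -/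
theorem run_records (X : CS) (s0 : St) : SE (jp (jp X)) (fun w : ℕ × ℕ =>
    ∃ s, Relation.ReflTransGen (Step X) s0 s ∧ s.rcd[w.1]? = some w.2) ∧
    ∀ (s s' : St) (k a b : ℕ), Relation.ReflTransGen (Step X) s0 s → Relation.ReflTransGen (Step X) s0 s' →
      s.rcd[k]? = some a → s'.rcd[k]? = some b → a = b := by
  have hS : SE (jp (jp X)) fun w : St × St => Step X w.1 w.2 :=
    SE.ex (P := fun (w : St × St) (d : ℕ × Tr3) => Read X w.1 d ∧ w.2 = nx w.1 d)
      (SE.and (SE.comp (f := fun u : (St × St) × ℕ × Tr3 => (u.1.1, u.2)) (de_Read X).1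
          ((c_fst Computable.fst).pair Computable.snd))
        (SE.of_re (RE.eq (f := fun u : (St × St) × ℕ × Tr3 => u.1.2)
          (g := fun u : (St × St) × ℕ × Tr3 => nx u.1.1 u.2) (c_snd Computable.fst)
          (mach_c_nx (c_fst Computable.fst) Computable.snd))))
  have hp : ∀ {s s' : St}, Relation.ReflTransGen (Step X) s s' → ∀ {k a : ℕ},
      s.rcd[k]? = some a → s'.rcd[k]? = some a := by
    intro s s' h
    induction h with
    | refl => exact fun h => h
    | tail _ h ih =>
      intro k a hk
      obtain ⟨d, -, rfl⟩ := h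
      obtain ⟨l, hl⟩ := nx_rcd _ d
      have h1 := ih hk
      rw [hl, List.getElem?_append_left (List.getElem?_eq_some_iff.1 h1).1]
      exact h1
  refine ⟨SE.ex (P := fun (w : ℕ × ℕ) (s : St) =>
      Relation.ReflTransGen (Step X) s0 s ∧ s.rcd[w.1]? = some w.2)
    (SE.and (SE.comp (f := fun u : (ℕ × ℕ) × St => u.2) (mach_se_run hS s0) Computable.snd)
      (SE.of_re (RE.eq (f := fun u : (ℕ × ℕ) × St => u.2.rcd[u.1.1]?)
        (g := fun u : (ℕ × ℕ) × St => some u.1.2)
        (c_getElem? (mach_c_rcd Computable.snd) (c_fst Computable.fst))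
        (c_some (c_snd Computable.fst))))), fun s s' k a b h h' ha hb => ?_⟩
  have ru : Relator.RightUnique (Step X) := fun _ _ _ u v => Step.unique u v
  rcases Relation.ReflTransGen.total_of_right_unique ru h h' with u | u
  · exact Option.some.inj ((hp u ha).symm.trans hb)
  · exact Option.some.inj (ha.symm.trans (hp u hb))

theorem Leads.refl (s : St) (A : CS) : Leads s A s A :=
  ⟨subset_rfl, fun _ _ => Relation.ReflTransGen.refl⟩

theorem Leads.trans {s s' s'' : St} {A A' A'' : CS} (h : Leads s A s' A') (k : Leads s' A' s'' A'') :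
    Leads s A s'' A'' :=
  ⟨k.1.trans h.1, fun X hX => (h.2 X (k.1 hX)).trans (k.2 X hX)⟩

theorem Leads.single {s : St} {A A' : CS} {d : ℕ × Tr3} (h : PS (nx s d) A' ⊆ PS s A)
    (k : ∀ X ∈ PS (nx s d) A', Read X s d) : Leads s A (nx s d) A' :=
  ⟨h, fun X hX => Relation.ReflTransGen.single ⟨d, k X hX, rfl⟩⟩

end Pool.Agent.MinDeg
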