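import Pool.Agent.P.MP_f8f34d_lc.W.Rel

/-! Functionals, fibres, branchings and messages. -/

namespace Pool.Agent.MinDeg

open Pool.Agent.Lib.ComputableProp

theorem sig_Ps0 : Sig (fun x (u : (ℕ × ℕ) × Bool) =>
    Un (Nat.pair u.1.1 (Encodable.encode (u.1.2, u.2))) x) :=
  sig_Un.comp (f := fun u : (ℕ × ℕ) × Bool => Nat.pair u.1.1 (Encodable.encode (u.1.2, u.2)))
    (by fun_prop)

/-- functional number `e` gives the value `b` at `n` with oracle `x` (single valued) -/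
def Ps (e : ℕ) (x : CS) (n : ℕ) (b : Bool) : Prop :=
  (Sig.unif (P := fun x (w : ℕ × ℕ) (b : Bool) =>
    Un (Nat.pair w.1 (Encodable.encode (w.2, b))) x) sig_Ps0).choose x (e, n) b
def Ag (e : ℕ) (x y : CS) : Prop := ∀ n b, Ps e x n b → y n = b
def Tot (e : ℕ) (x : CS) : Prop := ∀ n, ∃ b, Ps e x n b
def UU (μ : List ℕ) (i : ℕ) (A : CS) : Set CS := {X | X ∈ K i ∧ lev μ X = A}
def Img (e : ℕ) (P : Set CS) : Set CS := {y | ∃ X ∈ P, Ag e X y}

/-- level list, key list, index of the class, number of the functional -/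
abbrev Hp : Type := List ℕ × List ℕ × ℕ × ℕ
/-- pattern, stage, cylinder -/
abbrev Tr3 : Type := List Bool × ℕ × List Bool

def EE (h : Hp) (X X' : CS) : Prop := X' ∈ K h.2.2.1 ∧ lev h.1 X' = lev h.1 X ∧
  lev h.2.1 X' = lev h.2.1 X ∧ ∃ y, Ag h.2.2.2 X y ∧ Ag h.2.2.2 X' y
def Br (h : Hp) (X : CS) (k : ℕ) : Prop :=
  ∃ X', EE h X X' ∧ (∀ j < k, X' j = X j) ∧ X' k ≠ X k

variable {α : Type} [Primcodable α]

theorem sig_Ps {F : CS → α → CS} (hF : CM F) {e n : α → ℕ} {b : α → Bool} (he : Computable e)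
    (hn : Computable n) (hb : Computable b) : Sig fun z a => Ps (e a) (F z a) (n a) (b a) :=
  (Sig.unif (P := fun x (w : ℕ × ℕ) (b : Bool) =>
    Un (Nat.pair w.1 (Encodable.encode (w.2, b))) x) sig_Ps0).choose_spec.1.map hF
    (g := fun a => ((e a, n a), b a)) (by fun_prop)

theorem pii_Ag {F G : CS → α → CS} (hF : CM F) (hG : CM G) {e : α → ℕ} (he : Computable e) :
    Pii fun z a => Ag (e a) (F z a) (G z a) :=
  Pii.all (Pii.all (Pii.imp
    (sig_Ps (hF.comp (g := fun w : (α × ℕ) × Bool => w.1.1) (by fun_prop)) (by fun_prop)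
      (by fun_prop) (by fun_prop))
    (Pii.bit (hG.comp (g := fun w : (α × ℕ) × Bool => w.1.1) (by fun_prop)) (by fun_prop)
      (by fun_prop))))

theorem pii_EE0 : Pii fun z (h : Hp) => EE h (lf z) (rt z) :=
  (pii_K CM.id.rt (by fun_prop)).and ((Pii.eqC (CM.id.rt.lev (by fun_prop))
    (CM.id.lf.lev (by fun_prop))).and ((Pii.eqC (CM.id.rt.lev (by fun_prop))
    (CM.id.lf.lev (by fun_prop))).and (Pii.exC (P := fun z y (h : Hp) =>
      Ag h.2.2.2 (lf z) y ∧ Ag h.2.2.2 (rt z) y)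
      ((pii_Ag CM.id.lf.lf CM.id.rt (by fun_prop)).and
        (pii_Ag CM.id.lf.rt CM.id.rt (by fun_prop))))))

theorem pii_Br0 : Pii fun X (w : Hp × ℕ) => Br w.1 X w.2 :=
  Pii.exC (P := fun X X' (w : Hp × ℕ) => EE w.1 X X' ∧ (∀ j < w.2, X' j = X j) ∧ X' w.2 ≠ X w.2)
    ((pii_EE0.comp Computable.fst).and ((Pii.all (Pii.imp
      (Sig.of_re (RE.lt (by fun_prop) (by fun_prop)))
      (Pii.beq CM.id.rt CM.id.lf (by fun_prop) (by fun_prop)))).and
      (Pii.bne CM.id.rt CM.id.lf (by fun_prop) (by fun_prop))))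

/-- at stage `s` one sees that `k` is not a branching -/
def NB (h : Hp) (X : CS) (k s : ℕ) : Prop := (Sig.stage pii_Br0).choose X ((h, k), s)
def Good (h : Hp) (X : CS) (l : List Bool) (s : ℕ) : Prop := ∀ k < l.length,
  (l.getD k false = true → Br h X k ∧ X k = true) ∧ (l.getD k false = false → NB h X k s)
def Pat (h : Hp) (X : CS) (l : List Bool) (s : ℕ) : Prop :=
  Good h X l s ∧ Br h X l.length ∧ X l.length = false
def NN (h : Hp) (X : CS) : Prop := ∀ k, Br h X k → X k = true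
def Iso (h : Hp) (A : CS) (w : ℕ) : Prop := (∃ X ∈ UU h.1 h.2.2.1 A, X ∈ K w) ∧
  (∀ X ∈ UU h.1 h.2.2.1 A, X ∈ K w → NN h X) ∧
  ∀ X ∈ UU h.1 h.2.2.1 A, X ∈ K w → ∀ X' ∈ UU h.1 h.2.2.1 A, X' ∈ K w →
    (∃ y, Ag h.2.2.2 X y ∧ Ag h.2.2.2 X' y) → X = X'
def RR (h : Hp) (v : ℕ) (B X : CS) : Prop := (∀ m ∈ h.2.1, col X m = B) ∧
  ∃ y, Ag h.2.2.2 X y ∧ jn (lev h.1 X) (jn B y) ∈ K v
def Full (h : Hp) (A : CS) (v : ℕ) (τ : Tr3) : Prop :=
  ∀ B, Ext τ.2.2 B → ∃ X ∈ UU h.1 h.2.2.1 A, Pat h X τ.1 τ.2.1 ∧ RR h v B X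
/-- the message: number of ones -/
def cnt (l : List Bool) : ℕ := (l.map fun b => cond b 1 0).sum
/-- what the decoder reads at a hiding step: an abort or a message -/
def HRead (h : Hp) (X : CS) (d : ℕ × Tr3) : Prop :=
  (d.1 ≠ 0 ∧ NN h X ∧ Iso h (lev h.1 X) (d.1 - 1) ∧ ∀ w < d.1 - 1, ¬ Iso h (lev h.1 X) w) ∨
  (d.1 = 0 ∧ Pat h X d.2.1 d.2.2.1 ∧ Full h (lev h.1 X) (cnt d.2.1).unpair.2 d.2 ∧
    ∀ τ : Tr3, Encodable.encode τ < Encodable.encode d.2 → cnt τ.1 = cnt d.2.1 →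
      ¬ Full h (lev h.1 X) (cnt d.2.1).unpair.2 τ)

@[fun_prop] theorem c_cnt {l : α → List Bool} (hl : Computable l) :
    Computable fun a => cnt (l a) := by
  unfold cnt; fun_prop

end Pool.Agent.MinDeg
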