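import Pool.Agent.P.MP_f8f34d_lc.W.ConsDefs

/-! Single steps of the construction. -/

namespace Pool.Agent.MinDeg

open Pool.Agent.Lib.ComputableProp

variable {J : Set CS} {s s' s'' : St} {A A' A'' : CS} {D : ℕ → Set Cd}

theorem Settled.mono {e : ℕ} {P P' : Set CS} (h : Settled J e P) (hs : P' ⊆ P) :
    Settled J e P' := by
  rcases h with h | ⟨A, hA, h⟩
  · exact Or.inl fun X hX => h X (hs hX)
  · exact Or.inr ⟨A, hA, fun X hX => h X (hs hX)⟩

theorem Cont.refl (s : St) (A : CS) : Cont J s A s A := by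
  exact ⟨Leads.refl s A, fun _ h => h, fun _ h h' => absurd h h'⟩

theorem Cont.trans (h : Cont J s A s' A') (k : Cont J s' A' s'' A'') : Cont J s A s'' A'' := by
  refine ⟨h.leads.trans k.leads, fun e he => h.sub e (k.sub e he), fun e he he' => ?_⟩
  by_cases h1 : e ∈ s'.act
  · exact k.set e h1 he'
  · exact (h.set e he h1).mono k.leads.1

theorem Img.mono (e : ℕ) {P P' : Set CS} (h : P ⊆ P') : Img e P ⊆ Img e P' := by
  rintro y ⟨X, hX, hy⟩
  exact ⟨X, h hX, hy⟩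

theorem isC_img (e : ℕ) {μ : List ℕ} {i : ℕ} (hA : A ∈ J) (hne : (UU μ i A).Nonempty) :
    IsC J (A, Img e (UU μ i A)) := by
  have h1 : Pii (fun z (_ : Unit) => ∃ X, X ∈ UU μ i (lf z) ∧ Ag e X (rt z)) :=
    Pii.exC (P := fun z X (_ : Unit) => X ∈ UU μ i (lf z) ∧ Ag e X (rt z))
      ((pii_UU CM.id.rt CM.id.lf.lf (Computable.const μ) (Computable.const i)).and
        (pii_Ag CM.id.rt CM.id.lf.rt (Computable.const e)))
  obtain ⟨t, -, ht⟩ := h1.index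
  obtain ⟨X, hX⟩ := hne
  obtain ⟨y, hy⟩ := exists_ag e X
  refine ⟨hA, ⟨y, X, hX, hy⟩, t (), fun y => ?_⟩
  rw [ht, lf_jn, rt_jn]
  rfl

theorem fam_img (e : ℕ) {ζ : List Bool} {Q : Set CS} (hQ : Img e (PS s A) ⊆ Q)
    (full : ∀ B, Ext ζ B → (Fib s A B).Nonempty) :
    Fam (A, Q) ζ (fun B => Img e (Fib s A B)) := by
  have h1 : Pii (fun z (_ : Unit) => ∃ X, (X ∈ UU s.mu s.ix (lf z) ∧ col X s.key = lf (rt z)) ∧
      Ag e X (rt (rt z))) :=
    Pii.exC (P := fun z X (_ : Unit) => (X ∈ UU s.mu s.ix (lf z) ∧ col X s.key = lf (rt z)) ∧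
      Ag e X (rt (rt z)))
      (((pii_UU CM.id.rt CM.id.lf.lf (Computable.const s.mu) (Computable.const s.ix)).and
        (Pii.eqC (CM.id.rt.col (Computable.const s.key)) CM.id.lf.rt.lf)).and
        (pii_Ag CM.id.rt CM.id.lf.rt.rt (Computable.const e)))
  obtain ⟨t, -, ht⟩ := h1.index
  refine ⟨⟨t (), fun B y => ?_⟩, fun B hB => ⟨?_, (Img.mono e fun X hX => hX.1).trans hQ⟩⟩
  · rw [ht]
    simp only [lf_jn, rt_jn]
    rfl
  · obtain ⟨X, hX⟩ := full B hB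
    obtain ⟨y, hy⟩ := exists_ag e X
    exact ⟨y, X, hX, hy⟩

/-- an index for a family cut down to its cylinder -/
theorem Fam.index {c : Cd} {ζ : List Bool} {V : CS → Set CS} (h : Fam c ζ V) :
    ∃ v, ∀ B y, jn c.1 (jn B y) ∈ K v ↔ Ext ζ B ∧ y ∈ V B := by
  obtain ⟨⟨v, hv⟩, -⟩ := h
  have h1 : Pii (fun z (_ : Unit) => Ext ζ (lf (rt z)) ∧ z ∈ K v) :=
    (Pii.ext CM.id.rt.lf (Computable.const ζ)).and (pii_K CM.id (Computable.const v))
  obtain ⟨t, -, ht⟩ := h1.index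
  refine ⟨t (), fun B y => ?_⟩
  rw [ht, rt_jn, lf_jn, hv]

theorem Inv.shrink (h : Inv J s A D) (hμ : s'.mu = s.mu) (hi : K s'.ix ⊆ K s.ix)
    (ha : ∀ e ∈ s'.act, e ∈ s.act) (hne : (PS s' A).Nonempty) : Inv J s' A D := by
  have hs : PS s' A ⊆ PS s A := fun X hX => ⟨hi hX.1, hμ ▸ hX.2⟩
  exact ⟨hi.trans h.pp, h.lev, hne, fun e he X hX => h.tot e (ha e he) X (hs hX), h.pers,
    fun e he => (h.pers e).sub _ (h.keep e (ha e he)) _ (isC_img e h.lev hne) (Img.mono e hs)⟩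

/-- an abort -/
theorem abort_step (h : Inv J s A D) {ν : List ℕ} {e w md : ℕ} {d : ℕ × Tr3} (he : e ∈ s.act)
    (hw : Iso (s.mu, ν, s.ix, e) A w) (hn : nx s d = nxAb s md e w)
    (hr : ∀ X ∈ PS s A, X ∈ K w → Read X s d) :
    Cont J s A (nxAb s md e w) A ∧ Inv J (nxAb s md e w) A D := by
  have hP : ∀ X, X ∈ PS (nxAb s md e w) A ↔ X ∈ PS s A ∧ X ∈ K w := fun X =>
    ⟨fun k => ⟨⟨((mem_iCap X _ _).1 k.1).1, k.2⟩, ((mem_iCap X _ _).1 k.1).2⟩,
      fun k => ⟨(mem_iCap X _ _).2 ⟨k.1.1, k.2⟩, k.1.2⟩⟩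
  have hsub : ∀ a ∈ (nxAb s md e w).act, a ∈ s.act := fun a ha => (mem_del.1 ha).1
  refine ⟨⟨?_, hsub, fun a ha ha' => ?_⟩, h.shrink rfl (fun X hX => ((mem_iCap X _ _).1 hX).1) hsub
    (hw.1.imp fun X k => (hP X).2 k)⟩
  · rw [← hn] at hP ⊢
    exact Leads.single (fun X hX => ((hP X).1 hX).1) fun X hX =>
      hr X ((hP X).1 hX).1 ((hP X).1 hX).2
  · have hae : a = e := by
      by_contra hne
      exact ha' (mem_del.2 ⟨ha, hne⟩)
    subst hae
    exact Or.inr ⟨A, h.lev, fun X hX y hy => leT_of_inj hX hy fun Y hY Y' hY' k =>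
      hw.2.2 Y ((hP Y).1 hY).1 ((hP Y).1 hY).2 Y' ((hP Y').1 hY').1 ((hP Y').1 hY').2 k⟩

theorem consA_nxR (s : St) :
    (nxR s).ix = s.ix ∧ (nxR s).mu = s.key :: s.mu ∧ (nxR s).act = s.act := by
  unfold nxR
  cases eqb s.mode 3 <;> exact ⟨rfl, rfl, rfl⟩

theorem ps_nxR (s : St) (A B : CS) : PS (nxR s) (rs A B) = Fib s A B := by
  ext X
  show X ∈ K (nxR s).ix ∧ lev (nxR s).mu X = rs A B ↔
    (X ∈ K s.ix ∧ lev s.mu X = A) ∧ col X s.key = B
  rw [(consA_nxR s).1, (consA_nxR s).2.1, lev_cons, and_assoc]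
  exact and_congr_right fun _ => ⟨rs_inj, fun k => by rw [k.1, k.2]⟩

/-- the end of a round -/
theorem raise_step (hJ : Idl J) (h : Inv J s A D) {ζ : List Bool} (ha : Arena J s A D ζ)
    (hm : 3 ≤ s.mode) (ht : s.todo = []) {B : CS} (hB : B ∈ J) (hζ : Ext ζ B) :
    Cont J s A (nxR s) (rs A B) ∧ Inv J (nxR s) (rs A B) D := by
  have hn : nx s (0, [], 0, []) = nxR s := by
    have h0 : ¬ s.mode = 0 := by omega
    have h1 : ¬ s.mode = 1 := by omega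
    have h2 : ¬ s.mode = 2 := by omega
    simp only [nx, nx3, eqb, h0, h1, h2, ht, decide_false, List.length_nil, decide_true,
      cond_false, cond_true]
  have hact := (consA_nxR s).2.2
  have hs : PS (nxR s) (rs A B) ⊆ PS s A := by
    rw [ps_nxR]
    exact fun X hX => hX.1
  refine ⟨⟨?_, fun e he => hact ▸ he, fun e he he' => absurd (hact ▸ he) he'⟩,
    (consA_nxR s).1 ▸ h.pp, hJ.rs A h.lev B hB, ?_,
    fun e he X hX => h.tot e (hact ▸ he) X (hs hX), h.pers, fun e he => ?_⟩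
  · rw [← hn] at hs ⊢
    exact Leads.single hs fun X _ => ⟨fun k => by omega, fun k => by omega, fun _ k => absurd ht k⟩
  · rw [ps_nxR]
    exact ha.full B hζ
  · rw [ps_nxR]
    exact ha.sec e (hact ▸ he) (by rw [ht]; exact List.not_mem_nil) B hB hζ

end Pool.Agent.MinDeg
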