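import Pool.Agent.P.MP_f8f34d_lc.W.ConsA

/-! The loop that secures the promises. -/

namespace Pool.Agent.MinDeg

variable {J : Set CS} {s : St} {A : CS} {D : ℕ → Set Cd}

theorem consB_nx (hm : 3 ≤ s.mode) (ht : s.todo ≠ []) (d : ℕ × Tr3) : nx s d =
    cond (Pool.Agent.Lib.ComputableProp.eqb d.1 0) (nxB s d.2)
      (nxAb s (s.mode - 2) (s.todo.getD 0 0) (d.1 - 1)) := by
  have h : ∀ a b : ℕ, a ≠ b → Pool.Agent.Lib.ComputableProp.eqb a b = false := fun a b e => by
    simp [Pool.Agent.Lib.ComputableProp.eqb, e]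
  rw [nx, h _ _ (show s.mode ≠ 0 by omega), h _ _ (show s.mode ≠ 1 by omega),
    h _ _ (show s.mode ≠ 2 by omega), nx3, h _ _ (mt List.length_eq_zero_iff.1 ht)]
  rfl

theorem consB_read (hm : 3 ≤ s.mode) {X : CS} {d : ℕ × Tr3} (h : HRead s.hB X d) : Read X s d :=
  ⟨fun e => by omega, fun e => by omega, fun _ _ => h⟩

theorem consB_isC (hJ : Idl J) (hA : A ∈ J) (e : ℕ) {B : CS} (hB : B ∈ J)
    (hne : (Fib s A B).Nonempty) : IsC J (rs A B, Img e (Fib s A B)) := by
  rw [← ps_nxR] at hne ⊢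
  exact isC_img e (hJ.rs A hA B hB) hne

theorem loop (hJ : Idl J) (h : Inv J s A D) {ζ : List Bool} (ha : Arena J s A D ζ)
    (hm : 3 ≤ s.mode) :
    ∃ s' : St, Cont J s A s' A ∧ Inv J s' A D ∧ s'.ph = s.ph ∧ s'.rcd = s.rcd ∧
      ((s'.mode = s.mode - 2 ∧ s'.act.length < s.act.length) ∨
        (s'.mode = s.mode ∧ s'.todo = [] ∧ s'.act = s.act ∧ s'.key = s.key ∧ s'.mu = s.mu ∧
          ∃ ζ', (∀ B, Ext ζ' B → Ext ζ B) ∧ Arena J s' A D ζ')) := by
  generalize hn : s.todo.length = n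
  induction n generalizing s ζ with
  | zero =>
    exact ⟨s, Cont.refl s A, h, rfl, rfl, Or.inr ⟨rfl, List.length_eq_zero_iff.1 hn, rfl, rfl, rfl,
      ζ, fun _ hB => hB, ha⟩⟩
  | succ n ih =>
    obtain ⟨e, t, het⟩ := List.exists_cons_of_length_eq_add_one hn
    have ht : s.todo ≠ [] := het ▸ List.cons_ne_nil e t
    have he0 : s.todo.getD 0 0 = e := by rw [het]; rfl
    have he : e ∈ s.act := ha.todo e (het ▸ List.mem_cons_self)
    obtain ⟨ζ1, V1, ⟨hF, hR⟩, hD⟩ := (h.pers e).ref _ (h.keep e he) ζ _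
      (fam_img e subset_rfl ha.full)
    obtain ⟨v, hv⟩ := hF.index
    have hj : (Nat.pair 0 v).unpair.2 = v := by rw [Nat.unpair_pair]
    have hRR : ∀ B X, X ∈ PS s A → (RR s.hB v B X ↔
        col X s.key = B ∧ ∃ y, Ag e X y ∧ Ext ζ1 B ∧ y ∈ V1 B) := fun B X hX => by
      have e1 : lev s.mu X = A := hX.2
      simp only [RR, List.mem_singleton, forall_eq, he0, e1]
      exact and_congr_right fun _ => exists_congr fun y => and_congr_right fun _ => hv B y
    rcases hide_step s.hB A (fun X hX => h.tot (s.todo.getD 0 0) (he0.symm ▸ he) X hX) (Nat.pair 0 v) ζ1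
      (fun B hB => by
        obtain ⟨y, hy⟩ := (hF.2 B hB).1
        obtain ⟨X, hX, hXy⟩ := (hR B hB).2 hy
        exact ⟨X, hX.1, hj.symm ▸ (hRR B X hX.1).2 ⟨hX.2, y, hXy, hB, hy⟩⟩) with
      ⟨w, hw, hr⟩ | ⟨τ, hτ, hfull, hr⟩
    · obtain ⟨h1, h2⟩ := abort_step h (ν := [s.key]) (w := w) (md := s.mode - 2)
        (d := (w + 1, [], 0, [])) he (he0 ▸ hw) (by rw [consB_nx hm ht, he0]; rfl)
        fun X hX hXw => consB_read hm (hr X hX hXw)
      exact ⟨_, h1, h2, rfl, rfl, Or.inl ⟨rfl, length_del_lt he⟩⟩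
    · rw [hj] at hfull
      have hK : ∀ X, X ∈ PS (nxB s τ) A ↔
          X ∈ PS s A ∧ Pat s.hB X τ.1 τ.2.1 ∧ RR s.hB v (col X s.key) X := fun X => by
        have := mem_iMsg X s.hB τ s.key
        rw [hτ, hj] at this
        exact ⟨fun k => ⟨⟨(this.1 k.1).1, k.2⟩, (this.1 k.1).2⟩,
          fun k => ⟨this.2 ⟨k.1.1, k.2⟩, k.1.2⟩⟩
      have hf : ∀ B, Ext τ.2.2 B → Ext ζ1 B ∧ (Fib (nxB s τ) A B).Nonempty := fun B hB => by
        obtain ⟨X, hX, hP, hXR⟩ := hfull B hB
        obtain ⟨h1, y, -, h2, -⟩ := (hRR B X hX).1 hXR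
        exact ⟨h2, X, (hK X).2 ⟨hX, hP, h1.symm ▸ hXR⟩, h1⟩
      have hI : Inv J (nxB s τ) A D := h.shrink rfl
        (fun X hX => ((mem_iMsg X s.hB τ s.key).1 hX).1) (fun _ k => k) (by
          obtain ⟨X, hX⟩ := (hf _ (ext_cat τ.2.2 zz)).2
          exact ⟨X, hX.1⟩)
      have hnx : nx s (0, τ) = nxB s τ := by rw [consB_nx hm ht]; rfl
      have hC : Cont J s A (nxB s τ) A :=
        ⟨hnx ▸ Leads.single (d := (0, τ)) (fun X hX => ((hK X).1 (hnx ▸ hX)).1) fun X hX =>
          consB_read hm (hr X ((hK X).1 (hnx ▸ hX)).1 ((hK X).1 (hnx ▸ hX)).2.1),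
          fun _ k => k, fun _ k k' => absurd k k'⟩
      have hA : Arena J (nxB s τ) A D τ.2.2 :=
        { len := fun _ => rfl
          full := fun B hB => (hf B hB).2
          todo := fun a k => ha.todo a (List.mem_of_mem_tail k)
          sec := fun a k k' B hB hζ => by
            have hc := consB_isC hJ h.lev a hB (hf B hζ).2
            by_cases hae : a = e
            · subst hae
              refine (h.pers a).sub _ (hD B hB (hf B hζ).1) _ hc ?_
              rintro y ⟨X, hX, hXy⟩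
              obtain ⟨h1, -, h2⟩ := (hK X).1 hX.1
              have h3 : col X s.key = B := hX.2
              rw [h3] at h2
              obtain ⟨-, y', h4, -, h5⟩ := (hRR B X h1).1 h2
              have : y = y' := funext fun m => by
                obtain ⟨b, hb⟩ := h.tot a he X h1 m
                rw [hXy m b hb, h4 m b hb]
              exact this ▸ h5
            · refine (h.pers a).sub _ (ha.sec a k (fun k2 => ?_) B hB (hR B (hf B hζ).1).1) _ hc
                (Img.mono a fun X hX => ⟨((hK X).1 hX.1).1, hX.2⟩)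
              have k3 : a ∉ s.todo.tail := k'
              rw [het] at k2 k3
              exact (List.mem_cons.1 k2).elim hae k3 }
      obtain ⟨s', h1, h2, h3, h4, h5⟩ := ih hI hA hm (by
        show s.todo.tail.length = n
        rw [List.length_tail, hn]
        rfl)
      refine ⟨s', hC.trans h1, h2, h3, h4, h5.imp_right ?_⟩
      rintro ⟨k1, k2, k3, k4, k5, ζ', k6, k7⟩
      exact ⟨k1, k2, k3, k4, k5, ζ', fun B hB => (hR B (hf B (k6 B hB)).1).1, k7⟩

end Pool.Agent.MinDeg
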