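import Pool.Agent.P.MP_f8f34d_lc.W.ConsB

/-! The rounds of the owner of a phase. -/

namespace Pool.Agent.MinDeg

open Pool.Agent.Lib.ComputableProp

variable {J : Set CS} {s : St} {A : CS} {D : ℕ → Set Cd}

/-- what the owner phase produces -/
def OwnOut (J : Set CS) (G : Set (Set Cd)) (s : St) (A : CS) (D : ℕ → Set Cd) : Prop :=
  ∃ (s' : St) (A' : CS) (D' : ℕ → Set Cd), Cont J s A s' A' ∧ Inv J s' A' D' ∧ s'.mode = 2 ∧
    s'.ph = s.ph ∧ s'.rcd = s.rcd ∧ (∀ e, D' e ⊆ D e) ∧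
    (s.own ∈ s'.act → ∃ E ∈ G, D' s.own ⊆ E)

theorem OwnOut.back {G : Set (Set Cd)} {s1 : St} {A1 : CS} (h : OwnOut J G s1 A1 D)
    (hc : Cont J s A s1 A1) (hp : s1.ph = s.ph) (hr : s1.rcd = s.rcd) : OwnOut J G s A D := by
  obtain ⟨s', A', D', h1, h2, h3, h4, h5, h6, h7⟩ := h
  have e : s1.own = s.own := by unfold St.own; rw [hp]
  exact ⟨s', A', D', hc.trans h1, h2, h3, h4.trans hp, h5.trans hr, h6, e ▸ h7⟩

theorem consC_nx_ab (hm : s.mode = 1) (ho : s.own ∈ s.act) (w : ℕ) (τ : Tr3) :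
    nx s (w + 1, τ) = nxAb s 1 s.own w := by
  simp [nx, nx1, hm, eqb, memb_iff.2 ho]

theorem consC_nx_msg (hm : s.mode = 1) (ho : s.own ∈ s.act) (τ : Tr3) :
    nx s (0, τ) = nxA s τ := by
  simp [nx, nx1, hm, eqb, memb_iff.2 ho]

theorem consC_read (hm : s.mode = 1) {X : CS} {d : ℕ × Tr3} (h : HRead s.hA X d) : Read X s d :=
  ⟨fun h0 => by omega, fun _ _ => h, fun h3 => by omega⟩

/-- the owner sends a family -/
theorem owner_send (h : Inv J s A D) (hm : s.mode = 1) (ho : s.own ∈ s.act) (fl : ℕ)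
    {ζ : List Bool} {V : CS → Set CS} (hV : Fam (A, Img s.own (PS s A)) ζ V) :
    (∃ s' : St, Cont J s A s' A ∧ Inv J s' A D ∧ s'.mode = 1 ∧ s'.ph = s.ph ∧ s'.rcd = s.rcd ∧
      s'.act.length < s.act.length) ∨
    ∃ (s' : St) (ζ' : List Bool), Cont J s A s' A ∧ Inv J s' A D ∧
      s'.mode = cond (eqb fl 0) 3 2 ∧ s'.ph = s.ph ∧ s'.rcd = s.rcd ∧ s'.act = s.act ∧
      s'.todo = s.act ∧ (∀ B, Ext ζ' B → (Fib s' A B).Nonempty) ∧
      ∀ B, ∀ X ∈ Fib s' A B, Ext ζ B ∧ ∀ y, Ag s.own X y → y ∈ V B := by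
  obtain ⟨v, hv⟩ := hV.index
  have full : ∀ B, Ext ζ B → ∃ X ∈ UU s.hA.1 s.hA.2.2.1 A, RR s.hA (Nat.pair fl v).unpair.2 B X := by
    intro B hB
    obtain ⟨⟨y, hy⟩, hs⟩ := hV.2 B hB
    obtain ⟨X, hX, hXy⟩ := hs hy
    refine ⟨X, hX, by simp, y, hXy, ?_⟩
    rw [Nat.unpair_pair, show lev s.hA.1 X = A from hX.2]
    exact (hv B y).2 ⟨hB, hy⟩
  rcases hide_step s.hA A (h.tot _ ho) (Nat.pair fl v) ζ full with ⟨w, hw, hr⟩ | ⟨τ, hj, hf, hr⟩
  · obtain ⟨k1, k2⟩ := abort_step (md := 1) (d := (w + 1, [], 0, [])) h ho hw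
      (consC_nx_ab hm ho _ _) fun X hX hXw => consC_read hm (hr X hX hXw)
    exact Or.inl ⟨_, k1, k2, rfl, rfl, rfl, length_del_lt ho⟩
  · have hfl := flex_spec s.mu τ.2.2 (iPair (s.hA, τ)) A fun B hB => by
      obtain ⟨X, hX, h1, h2⟩ := hf B hB
      exact ⟨X, h.pp hX.1, hX.2, (mem_iPair B X _ _).2 ⟨hX.1, h1, by rw [hj]; exact h2⟩⟩
    have hmem : ∀ X, X ∈ K (nxA s τ).ix ↔ (X ∈ K s.ix ∧ Pat s.hA X τ.1 τ.2.1 ∧
        RR s.hA (cnt τ.1).unpair.2 (col X (nxA s τ).key) X) := fun X => mem_iMsg X _ _ _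
    have hne : ∀ B, Ext τ.2.2 B → (Fib (nxA s τ) A B).Nonempty := by
      intro B hB
      obtain ⟨X, -, h1, h2, h3⟩ := hfl B hB
      obtain ⟨k1, k2, k3⟩ := (mem_iPair B X _ _).1 h2
      have h4 : col X (nxA s τ).key = B := h3
      exact ⟨X, ⟨(hmem X).2 ⟨k1, k2, by rw [h4]; exact k3⟩, h1⟩, h4⟩
    have hsub : PS (nxA s τ) A ⊆ PS s A := fun X hX => ⟨((hmem X).1 hX.1).1, hX.2⟩
    have hl : Leads s A (nxA s τ) A := by
      rw [← consC_nx_msg hm ho]
      refine Leads.single ?_ fun X hX => ?_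
      · rw [consC_nx_msg hm ho]; exact hsub
      · rw [consC_nx_msg hm ho] at hX
        exact consC_read hm (hr X (hsub hX) ((hmem X).1 hX.1).2.1)
    refine Or.inr ⟨nxA s τ, τ.2.2, ⟨hl, fun e he => he, fun e he he' => absurd he he'⟩,
      h.shrink rfl (fun X hX => ((hmem X).1 hX).1) (fun e he => he)
        ((hne _ (ext_cat _ zz)).mono fun X hX => hX.1), ?_, rfl, rfl, rfl, rfl, hne, ?_⟩
    · show cond (eqb (cnt τ.1).unpair.1 0) 3 2 = _
      rw [hj, Nat.unpair_pair]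
    · intro B X hX
      obtain ⟨-, -, -, y, k1, k2⟩ := (hmem X).1 hX.1.1
      rw [hj, Nat.unpair_pair, hX.2, show lev s.hA.1 X = A from hX.1.2] at k2
      obtain ⟨k3, k4⟩ := (hv B y).1 k2
      refine ⟨k3, fun y' hy' => ?_⟩
      rwa [(h.tot _ ho X (hsub hX.1)).ag_unique hy' k1]

theorem owner_aux (hJ : Idl J) {G : Set (Set Cd)} (hG : Goal J G) (n : ℕ) :
    ∀ (s : St) (A : CS), s.act.length ≤ n → Inv J s A D → s.mode = 1 → OwnOut J G s A D := by
  induction n using Nat.strong_induction_on with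
  | _ n ih =>
  have key : ∀ c ∈ Reach J (⋃₀ G), ∀ (s : St), s.act.length ≤ n → Inv J s c.1 D → s.mode = 1 →
      s.own ∈ s.act → Img s.own (PS s c.1) = c.2 → OwnOut J G s c.1 D := by
    intro c hc
    refine hc {c | ∀ (s : St), s.act.length ≤ n → Inv J s c.1 D → s.mode = 1 →
      s.own ∈ s.act → Img s.own (PS s c.1) = c.2 → OwnOut J G s c.1 D} ?_ ?_
    · rintro ⟨A, Q⟩ ⟨E, hE, hcE⟩ s hn h hm ho hq
      dsimp only at h hq ⊢
      subst hq
      rcases owner_send h hm ho 1 (fam_const (isC_img (J := J) s.own h.lev h.ne)) with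
        ⟨s', k1, k2, k3, k4, k5, k6⟩ | ⟨s', ζ', k1, k2, k3, k4, k5, k6, -, -, -⟩
      · exact (ih _ (by omega) s' A le_rfl k2 k3).back k1 k4 k5
      · refine ⟨s', A, Function.update D s.own (D s.own ∩ E), k1,
          ⟨k2.pp, k2.lev, k2.ne, k2.tot, fun e => ?_, fun e he => ?_⟩, k3, k4, k5,
          fun e => ?_, fun _ => ⟨E, hE, by simp⟩⟩
        · by_cases he : e = s.own
          · subst he
            rw [Function.update_self]
            exact Pers.inter hJ (h.pers _) (hG.1 E hE)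
          · rw [Function.update_of_ne he]; exact h.pers e
        · by_cases he' : e = s.own
          · subst he'
            rw [Function.update_self]
            exact ⟨k2.keep _ he, (hG.1 E hE).sub _ hcE _ (isC_img _ k2.lev k2.ne)
              (Img.mono _ k1.leads.1)⟩
          · rw [Function.update_of_ne he']; exact k2.keep e he
        · by_cases he : e = s.own
          · subst he
            rw [Function.update_self]
            exact Set.inter_subset_left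
          · rw [Function.update_of_ne he]
    · rintro ⟨A, Q⟩ - ⟨ζ, V, hV, hmv⟩ s hn h hm ho hq
      dsimp only at h hq ⊢
      subst hq
      rcases owner_send h hm ho 0 hV with
        ⟨s', k1, k2, k3, k4, k5, k6⟩ | ⟨s1, ζ1, k1, k2, k3, k4, k5, k6, k7, k8, k9⟩
      · exact (ih _ (by omega) s' A le_rfl k2 k3).back k1 k4 k5
      have k3' : s1.mode = 3 := k3
      have har : Arena J s1 A D ζ1 := ⟨fun e => by omega, k8, fun e he => by rwa [k6, ← k7],
        fun e he he' => absurd (by rwa [k7, ← k6]) he'⟩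
      obtain ⟨s2, l1, l2, l3, l4, ⟨l5, l6⟩ | ⟨l5, l6, l7, l8, l9, ζ2, -, l10⟩⟩ :=
        loop hJ k2 har (by omega)
      · exact (ih _ (by rw [k6] at l6; omega) s2 A le_rfl l2 (by omega)).back (k1.trans l1)
          (l3.trans k4) (l4.trans k5)
      have hsub : ∀ B, Fib s2 A B ⊆ Fib s1 A B := fun B X hX =>
        ⟨l1.leads.1 hX.1, by rw [← l8]; exact hX.2⟩
      have hrf : Rf (A, Img s.own (PS s A)) ζ V ζ2 (fun B => Img s.own (Fib s2 A B)) := by
        refine ⟨fam_img _ (Img.mono _ (k1.trans l1).leads.1) l10.full, fun B hB => ?_⟩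
        obtain ⟨X, hX⟩ := l10.full B hB
        refine ⟨(k9 B X (hsub B hX)).1, ?_⟩
        rintro y ⟨X', hX', hy⟩
        exact (k9 B X' (hsub B hX')).2 y hy
      obtain ⟨B, hB, hζ, hR⟩ := hmv _ _ hrf
      obtain ⟨m1, m2⟩ := raise_step hJ l2 l10 (by omega) l6 hB hζ
      have e3 : s2.mode = 3 := by omega
      have e : nxR s2 = ((1, s2.1.2), (s2.key :: s2.mu, s2.2.2)) := by simp [nxR, e3, eqb]
      have ep : (nxR s2).ph = s.ph := by rw [e]; exact l3.trans k4
      have ea : (nxR s2).act = s.act := by rw [e]; exact l7.trans k6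
      have eo : (nxR s2).own = s.own := by unfold St.own; rw [ep]
      refine (hR (nxR s2) (by rw [ea]; exact hn) m2 (by rw [e]) (by rw [eo, ea]; exact ho)
        (by rw [eo]; exact congrArg _ (ps_nxR s2 A B))).back ((k1.trans l1).trans m1) ep ?_
      rw [e]; exact l4.trans k5
  intro s A hn h hm
  by_cases ho : s.own ∈ s.act
  · exact key (A, Img s.own (PS s A)) (hG.2 _ (isC_img _ h.lev h.ne)) s hn h hm ho rfl
  · have hb : memb s.own s.act = false := by
      rw [← Bool.not_eq_true, memb_iff]; exact ho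
    have e : nx s (0, [], 0, []) = ((2, s.1.2), s.2) := by simp [nx, nx1, hm, eqb, hb]
    have hl : Leads s A (nx s (0, [], 0, [])) A :=
      Leads.single (by rw [e]; exact subset_rfl) fun X _ =>
        ⟨fun h0 => by omega, fun _ h1 => absurd h1 ho, fun h3 => by omega⟩
    rw [e] at hl
    exact ⟨((2, s.1.2), s.2), A, D, ⟨hl, fun e he => he, fun e he he' => absurd he he'⟩,
      h.shrink rfl subset_rfl (fun e he => he) h.ne, rfl, rfl, rfl, fun _ => subset_rfl,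
      fun h1 => absurd h1 ho⟩

theorem owner_phase (hJ : Idl J) (h : Inv J s A D) (hm : s.mode = 1) {G : Set (Set Cd)}
    (hG : Goal J G) :
    ∃ (s' : St) (A' : CS) (D' : ℕ → Set Cd), Cont J s A s' A' ∧ Inv J s' A' D' ∧ s'.mode = 2 ∧
      s'.ph = s.ph ∧ s'.rcd = s.rcd ∧ (∀ e, D' e ⊆ D e) ∧
      (s.own ∈ s'.act → ∃ E ∈ G, D' s.own ⊆ E) :=
  owner_aux hJ hG _ s A le_rfl h hm

end Pool.Agent.MinDeg
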