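import Pool.Agent.P.MP_f8f34d_lc.W.ConsC

/-! System rounds, activation and whole phases. -/

namespace Pool.Agent.MinDeg

open Pool.Agent.Lib.ComputableProp

variable {J : Set CS} {s : St} {A : CS} {D : ℕ → Set Cd}

theorem sys_round (hJ : Idl J) (h : Inv J s A D) (hm : s.mode = 2) {T : CS} (hT : T ∈ J) :
    ∃ (s' : St) (A' : CS), Cont J s A s' A' ∧ Inv J s' A' D ∧ s'.mode = 0 ∧ s'.ph = s.ph + 1 ∧
      ∃ m l, s'.rcd = s.rcd ++ [Nat.pair m l] ∧
        ∀ X ∈ PS s' A', ∀ n, X (Nat.pair m (l + n)) = T n := by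
  induction hn : s.act.length using Nat.strong_induction_on generalizing s with
  | _ N ih =>
  have e1 : nx s (0, default) = nx2 s := by simp [nx, hm, eqb]
  have c1 : Cont J s A (nx2 s) A := by
    refine ⟨?_, fun e he => he, fun e he hne => absurd he hne⟩
    rw [← e1]
    refine Leads.single ?_ fun X _ => ⟨fun h0 => ?_, fun h0 => ?_, fun h0 => ?_⟩
    · rw [e1]; exact subset_rfl
    all_goals omega
  have i1 : Inv J (nx2 s) A D := h.shrink rfl subset_rfl (fun e he => he) h.ne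
  have a1 : Arena J (nx2 s) A D [] := by
    refine ⟨fun _ => rfl, fun B hB => ?_, fun e he => he, fun e he hne => absurd he hne⟩
    obtain ⟨X, -, h2, h3, h4⟩ := flex_spec s.mu [] (iRt s.ix) A (fun B' _ => by
      obtain ⟨X, hX⟩ := h.ne
      exact ⟨X, h.pp hX.1, hX.2, (mem_iRt B' X s.ix).2 hX.1⟩) B hB
    exact ⟨X, ⟨(mem_iRt B X s.ix).1 h3, h2⟩, h4⟩
  obtain ⟨s2, c2, i2, hph, hrc, hc⟩ := loop hJ i1 a1 (show 3 ≤ 4 by norm_num)
  have hph' : s2.ph = s.ph := hph
  have hrc' : s2.rcd = s.rcd := hrc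
  rcases hc with ⟨hm2, hlt⟩ | ⟨hm2, htd, -, -, -, ζ, -, a2⟩
  · have hlt' : s2.act.length < s.act.length := hlt
    obtain ⟨s3, A3, c3, i3, m3, p3, m, l, r3, t3⟩ := ih s2.act.length (hn ▸ hlt') i2 hm2 rfl
    exact ⟨s3, A3, (c1.trans c2).trans c3, i3, m3, by rw [p3, hph'], m, l, by rw [r3, hrc'], t3⟩
  · have hm4 : s2.mode = 4 := hm2
    obtain ⟨c3, i3⟩ := raise_step hJ i2 a2 (by omega) htd (hJ.cat ζ T hT) (ext_cat ζ T)
    have e3 : nxR s2 = ((0, s2.ph + 1, s2.1.2.2),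
        (s2.key :: s2.mu, s2.act, s2.todo, s2.rcd ++ [Nat.pair s2.key s2.len])) := by
      simp [nxR, hm4, eqb]
    refine ⟨nxR s2, _, (c1.trans c2).trans c3, i3, by rw [e3], by rw [e3, ← hph'], s2.key, s2.len,
      by rw [e3, ← hrc'], fun X hX n => ?_⟩
    rw [ps_nxR] at hX
    have h5 := congrFun hX.2 (ζ.length + n)
    rw [cat_add] at h5
    rw [← a2.len hm4]
    exact h5

theorem activate (hJ : Idl J) (h : Inv J s A D) (hm : s.mode = 0) (hlt : ∀ e ∈ s.act, e < s.ph) :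
    ∃ (s' : St) (D' : ℕ → Set Cd), Leads s A s' A ∧ Inv J s' A D' ∧ s'.mode = 1 ∧ s'.ph = s.ph ∧
      s'.rcd = s.rcd ∧ (∀ e ∈ s.act, D' e = D e) ∧
      (s'.act = s.ph :: s.act ∨ (s'.act = s.act ∧ Settled J s.ph (PS s' A))) := by
  classical
  by_cases hd : ∃ n, Dv s.mu s.ix s.ph A n
  · have e1 : nx s (Nat.find hd + 1, default) =
        ((1, s.ph, iDiv (s.ix, s.ph, Nat.find hd), s.key, s.len), s.2) := by
      simp [nx, nx0, hm, eqb]
    have hK : K (iDiv (s.ix, s.ph, Nat.find hd)) ⊆ K s.ix := fun x hx => ((mem_iDiv x _ _ _).1 hx).1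
    refine ⟨nx s (Nat.find hd + 1, default), D, ?_, ?_, by rw [e1], by rw [e1], by rw [e1],
      fun _ _ => rfl, Or.inr ⟨by rw [e1], Or.inl ?_⟩⟩
    · refine Leads.single ?_ fun X hX => ⟨fun _ => Or.inr ?_, fun h0 => ?_, fun h0 => ?_⟩
      · rw [e1]; exact fun X hX => ⟨hK hX.1, hX.2⟩
      · rw [e1] at hX
        have hl : lev s.mu X = A := hX.2
        rw [hl]
        exact ⟨Nat.succ_ne_zero _, Nat.find_spec hd, fun n hn => Nat.find_min hd hn⟩
      all_goals omega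
    · rw [e1]
      obtain ⟨X, hX, hb⟩ := Nat.find_spec hd
      exact h.shrink rfl hK (fun e he => he) ⟨X, (mem_iDiv X _ _ _).2 ⟨hX.1, hb⟩, hX.2⟩
    · rw [e1]
      intro X hX ht
      obtain ⟨b, hb⟩ := ht (Nat.find hd)
      exact ((mem_iDiv X _ _ _).1 hX.1).2 b hb
  · have e1 : nx s (0, default) =
        ((1, s.ph, s.ix, s.key, s.len), (s.mu, s.ph :: s.act, s.todo, s.rcd)) := by
      simp [nx, nx0, hm, eqb]
    have hD : ∀ e ∈ s.act, Function.update D s.ph {c | IsC J c} e = D e := fun e he =>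
      Function.update_of_ne (hlt e he).ne _ _
    refine ⟨nx s (0, default), Function.update D s.ph {c | IsC J c}, ?_, ?_, by rw [e1], by rw [e1],
      by rw [e1], hD, Or.inl (by rw [e1])⟩
    · refine Leads.single ?_ fun X hX => ⟨fun _ => Or.inl ?_, fun h0 => ?_, fun h0 => ?_⟩
      · rw [e1]; exact subset_rfl
      · rw [e1] at hX
        have hl : lev s.mu X = A := hX.2
        rw [hl]
        exact ⟨rfl, fun n hn => hd ⟨n, hn⟩⟩
      all_goals omega
    · rw [e1]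
      refine ⟨h.pp, h.lev, h.ne, fun e he X hX => ?_, fun e => ?_, fun e he => ?_⟩
      · rcases List.mem_cons.1 he with rfl | he
        · intro n
          by_contra hb
          exact hd ⟨n, X, hX, fun b hb' => hb ⟨b, hb'⟩⟩
        · exact h.tot e he X hX
      · by_cases he : e = s.ph
        · rw [he, Function.update_self]; exact pers_univ hJ
        · rw [Function.update_of_ne he]; exact h.pers e
      · rcases List.mem_cons.1 he with rfl | he
        · rw [Function.update_self]; exact isC_img _ h.lev h.ne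
        · rw [hD e he]; exact h.keep e he

theorem phase (hJ : Idl J) (h : Inv J s A D) (hm : s.mode = 0) (hlt : ∀ e ∈ s.act, e < s.ph)
    {G : Set (Set Cd)} (hG : Goal J G) {T : CS} (hT : T ∈ J) :
    ∃ (s' : St) (A' : CS) (D' : ℕ → Set Cd), Leads s A s' A' ∧ Inv J s' A' D' ∧ s'.mode = 0 ∧
      s'.ph = s.ph + 1 ∧ (∀ e ∈ s'.act, e ∈ s.act ∨ e = s.ph) ∧
      (∀ e, e ∈ s.act ∨ e = s.ph → e ∉ s'.act → Settled J e (PS s' A')) ∧
      (∀ e ∈ s.act, D' e ⊆ D e) ∧ (s.own ∈ s'.act → ∃ E ∈ G, D' s.own ⊆ E) ∧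
      ∃ m l, s'.rcd = s.rcd ++ [Nat.pair m l] ∧
        ∀ X ∈ PS s' A', ∀ n, X (Nat.pair m (l + n)) = T n := by
  obtain ⟨s1, D1, l1, i1, m1, p1, r1, d1, a1⟩ := activate hJ h hm hlt
  obtain ⟨s2, A2, D2, c2, i2, m2, p2, r2, d2, g2⟩ := owner_phase hJ i1 m1 hG
  obtain ⟨s3, A3, c3, i3, m3, p3, m, l, r3, t3⟩ := sys_round hJ i2 m2 hT
  have c := c2.trans c3
  have ho : s1.own = s.own := by unfold St.own; rw [p1]
  refine ⟨s3, A3, D2, l1.trans c.leads, i3, m3, by rw [p3, p2, p1], fun e he => ?_,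
    fun e he hne => ?_, fun e he => d1 e he ▸ d2 e, fun hs => ?_, m, l, by rw [r3, r2, r1], t3⟩
  · have h1 := c.sub e he
    rcases a1 with a1 | ⟨a1, -⟩
    · rw [a1] at h1
      exact (List.mem_cons.1 h1).symm
    · exact Or.inl (a1 ▸ h1)
  · rcases a1 with a1 | ⟨a1, st⟩
    · exact c.set e (by rw [a1]; exact List.mem_cons.2 he.symm) hne
    · rcases he with he | rfl
      · exact c.set e (by rw [a1]; exact he) hne
      · exact st.mono c.leads.1
  · rw [← ho] at hs ⊢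
    exact g2 (c3.sub _ hs)

end Pool.Agent.MinDeg
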