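import Pool.Agent.P.MP_f8f34d_lc.W.GameDefs

/-! Persistent sets. -/

namespace Pool.Agent.MinDeg

open Pool.Agent.Lib.ComputableProp

variable {J : Set CS}

theorem Fam.isC (hJ : Idl J) {c : Cd} (hc : IsC J c) {ζ : List Bool} {V : CS → Set CS}
    (h : Fam c ζ V) {B : CS} (hB : B ∈ J) (hζ : Ext ζ B) : IsC J (rs c.1 B, V B) := by
  obtain ⟨⟨v, hv⟩, hV⟩ := h
  refine ⟨hJ.rs _ hc.1 _ hB, (hV B hζ).1, ?_⟩
  obtain ⟨s, -, hs⟩ := (pii_K (α := Unit)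
    (CM.id.lf.tl.jn ((CM.id.lf.col (Computable.const 0)).jn CM.id.rt)) (Computable.const v)).index
  refine ⟨s (), fun y => ?_⟩
  rw [hs]
  simpa using hv B y

theorem fam_const {c : Cd} (hc : IsC J c) : Fam c [] (fun _ => c.2) := by
  obtain ⟨-, hn, i, hi⟩ := hc
  refine ⟨?_, fun B _ => ⟨hn, subset_rfl⟩⟩
  obtain ⟨s, -, hs⟩ := (pii_K (α := Unit) (CM.id.lf.jn CM.id.rt.rt) (Computable.const i)).index
  refine ⟨s (), fun B y => ?_⟩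
  rw [hs]
  simpa using hi y

theorem countable_isC (hJ : J.Countable) : Set.Countable {c | IsC J c} := by
  refine ((hJ.prod (Set.countable_univ (α := ℕ))).image
    (fun p : CS × ℕ => ((p.1, {y | jn p.1 y ∈ K p.2}) : Cd))).mono ?_
  rintro ⟨A, Q⟩ ⟨hA, -, i, hi⟩
  refine ⟨(A, i), ⟨hA, trivial⟩, ?_⟩
  exact Prod.ext rfl (Set.ext fun y => (hi y).symm)

theorem subset_reach (D : Set Cd) : D ⊆ Reach J D := fun _ hc _ hD _ => hD hc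

theorem reach_mono {D E : Set Cd} (h : D ⊆ E) : Reach J D ⊆ Reach J E :=
  fun _ hc R hE hR => hc R (h.trans hE) hR

theorem game_mv_mono {R R' : Set Cd} (h : R ⊆ R') {c : Cd} (hm : Mv J R c) : Mv J R' c := by
  obtain ⟨ζ, V, hF, H⟩ := hm
  refine ⟨ζ, V, hF, fun ζ' V' hr => ?_⟩
  obtain ⟨B, hB, he, hm⟩ := H ζ' V' hr
  exact ⟨B, hB, he, h hm⟩

theorem reach_mv {D : Set Cd} {c : Cd} (hc : IsC J c) (h : Mv J (Reach J D) c) :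
    c ∈ Reach J D :=
  fun R hD hR => hR c hc (game_mv_mono (fun d (hd : d ∈ Reach J D) => hd R hD hR) h)

theorem pers_univ (hJ : Idl J) : Pers J {c | IsC J c} :=
  ⟨fun _ h => h, fun _ _ _ h _ => h, fun _ hc ζ V hF =>
    ⟨ζ, V, ⟨hF, fun _ h => ⟨h, subset_rfl⟩⟩, fun _ hB h => hF.isC hJ hc hB h⟩⟩

theorem Pers.inter {D E : Set Cd} (hJ : Idl J) (hD : Pers J D) (hE : Pers J E) :
    Pers J (D ∩ E) := by
  have _ := hJ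
  refine ⟨fun c h => hD.isC c h.1,
    fun c h Q hQ hs => ⟨hD.sub c h.1 Q hQ hs, hE.sub c h.2 Q hQ hs⟩, fun c h ζ V hF => ?_⟩
  obtain ⟨ζ1, V1, r1, h1⟩ := hD.ref c h.1 ζ V hF
  obtain ⟨ζ2, V2, r2, h2⟩ := hE.ref c h.2 ζ1 V1 r1.1
  refine ⟨ζ2, V2, ⟨r2.1, fun B hB => ?_⟩, fun B hB he => ⟨?_, h2 B hB he⟩⟩
  · exact ⟨(r1.2 B (r2.2 B hB).1).1, (r2.2 B hB).2.trans (r1.2 B (r2.2 B hB).1).2⟩
  · exact hD.sub _ (h1 B hB (r2.2 B he).1) (V2 B) (hE.isC _ (h2 B hB he)) (r2.2 B he).2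

theorem pers_sUnion {G : Set (Set Cd)} (h : ∀ D ∈ G, Pers J D) : Pers J (⋃₀ G) := by
  refine ⟨?_, ?_, ?_⟩
  · rintro c ⟨D, hD, hc⟩
    exact (h D hD).isC c hc
  · rintro c ⟨D, hD, hc⟩ Q hQ hs
    exact ⟨D, hD, (h D hD).sub c hc Q hQ hs⟩
  · rintro c ⟨D, hD, hc⟩ ζ V hF
    obtain ⟨ζ1, V1, r1, h1⟩ := (h D hD).ref c hc ζ V hF
    exact ⟨ζ1, V1, r1, fun B hB he => ⟨D, hD, h1 B hB he⟩⟩

theorem pers_list {ι : Type} (hJ : Idl J) (l : List ι) (F : ι → Set Cd)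
    (h : ∀ x ∈ l, Pers J (F x)) : Pers J {c | IsC J c ∧ ∀ x ∈ l, c ∈ F x} := by
  induction l with
  | nil => simpa using pers_univ hJ
  | cons a l ih =>
    have h1 := (h a (by simp)).inter hJ (ih fun x hx => h x (by simp [hx]))
    have e : {c | IsC J c ∧ ∀ x ∈ a :: l, c ∈ F x} =
        F a ∩ {c | IsC J c ∧ ∀ x ∈ l, c ∈ F x} := by
      ext c
      simp only [List.forall_mem_cons, Set.mem_ofPred_eq, Set.mem_inter_iff]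
      tauto
    rw [e]
    exact h1

theorem game_fam_up {A : CS} {Q Q' : Set CS} (hs : Q' ⊆ Q) {ζ : List Bool} {V : CS → Set CS}
    (h : Fam (A, Q') ζ V) : Fam (A, Q) ζ V :=
  ⟨h.1, fun B hB => ⟨(h.2 B hB).1, (h.2 B hB).2.trans hs⟩⟩

theorem Pers.reach_up {D : Set Cd} (hJ : Idl J) (hD : Pers J D) {A : CS} {Q Q' : Set CS}
    (h : (A, Q') ∈ Reach J D) (hc : IsC J (A, Q)) (hs : Q' ⊆ Q) : (A, Q) ∈ Reach J D := by
  refine h {d | ∀ P, IsC J (d.1, P) → d.2 ⊆ P → (d.1, P) ∈ Reach J D} ?_ ?_ Q hc hs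
  · rintro ⟨A1, Q1⟩ hd P hP hsP
    obtain ⟨ζ1, V1, r1, h1⟩ := hD.ref _ hd _ _ (fam_const (hD.isC _ hd))
    refine reach_mv hP ⟨ζ1, V1, game_fam_up hsP r1.1, fun ζ' V' r => ?_⟩
    have hB : cat ζ' zz ∈ J := hJ.cat _ _ hJ.zz
    have he := ext_cat ζ' zz
    exact ⟨_, hB, he, subset_reach D
      (hD.sub _ (h1 _ hB (r.2 _ he).1) _ (r.1.isC hJ hP hB he) (r.2 _ he).2)⟩
  · rintro ⟨A1, Q1⟩ hd ⟨ζ, V, hF, H⟩ P hP hsP
    refine reach_mv hP ⟨ζ, V, game_fam_up hsP hF, fun ζ' V' r => ?_⟩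
    have r' : Rf (A1, Q1) ζ V ζ' V' :=
      ⟨⟨r.1.1, fun B hB => ⟨(r.1.2 B hB).1, (r.2 B hB).2.trans (hF.2 B (r.2 B hB).1).2⟩⟩, r.2⟩
    obtain ⟨B, hB, he, hm⟩ := H ζ' V' r'
    exact ⟨B, hB, he, hm _ (r.1.isC hJ hP hB he) subset_rfl⟩

theorem Pers.avoid {D : Set Cd} (hJ : Idl J) (hD : Pers J D) :
    Pers J {c | IsC J c ∧ c ∉ Reach J D} := by
  refine ⟨fun c h => h.1, fun c h Q hQ hs => ⟨hQ, fun hr => h.2 (hD.reach_up hJ hr h.1 hs)⟩,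
    fun c h ζ V hF => ?_⟩
  by_contra hn
  refine h.2 (reach_mv h.1 ⟨ζ, V, hF, fun ζ' V' r => ?_⟩)
  by_contra hb
  exact hn ⟨ζ', V', r, fun B hB he => ⟨r.1.isC hJ h.1 hB he, fun hr => hb ⟨B, hB, he, hr⟩⟩⟩

end Pool.Agent.MinDeg
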