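import Pool.Agent.P.MP_f8f34d_lc.W.Rel

/-! Effective Baire category. -/

namespace Pool.Agent.MinDeg

open Pool.Agent.Lib.ComputableProp

variable {β : Type} [Primcodable β]

/-- a point computable in `A` is the only member of a class closed relative to `A` -/
theorem lim_class {A B0 : CS} (h : LeT B0 A) :
    ∃ C : CS → CS → Prop, Pii (fun z (_ : Unit) => C (lf z) (rt z)) ∧ ∀ B, C A B ↔ B = B0 := by
  obtain ⟨S, h1, h2⟩ := h
  refine ⟨fun X B => ∀ w : ℕ × Bool, ¬ (S X w ∧ B w.1 = !w.2), ?_, fun B => ⟨fun H => ?_, ?_⟩⟩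
  · exact Pii.all (P := fun z (_ : Unit) (w : ℕ × Bool) => ¬ (S (lf z) w ∧ rt z w.1 = !w.2))
      (Pii.not (Sig.and (h1.map CM.id.lf (g := fun u : Unit × ℕ × Bool => u.2) (by fun_prop))
        (CM.id.rt.bit (by fun_prop) (by fun_prop))))
  · funext n
    have := H (n, B0 n)
    rw [h2] at this
    simpa using this
  · rintro rfl w ⟨k1, k2⟩
    rw [h2] at k1
    rw [k1] at k2
    simp at k2

theorem lim_open {O : CS → CS → β → Prop} (hO : Sig (fun z s => O (lf z) (rt z) s)) {A B : CS}
    {s : β} (h : O A B s) : ∃ n, ∀ m, n ≤ m → ∀ B', Ext (pre B m) B' → O A B' s := by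
  obtain ⟨n, hn⟩ := exists_pre_of_isOpen (Sig.isOpen hO s) (x := jn A B) (by simpa using h)
  refine ⟨n, fun m hm B' hB => ?_⟩
  have := hn m hm (jn A B') (ext_pre_iff.2 fun k hk => by
    unfold jn
    rw [ext_pre_iff.1 hB (k / 2) (by omega)])
  simpa using this

/-- the transition relation -/
def limR (O : CS → CS → β → Prop) (A : CS) (ζ : List Bool) (n : ℕ) (τ τ' : List Bool) : Prop :=
  (τ.length < ζ.length ∨ ∃ k, k < ζ.length ∧ τ.getD k false ≠ ζ.getD k false) ∨
    ((τ.length < τ'.length ∧ ∀ k < τ.length, τ'.getD k false = τ.getD k false) ∧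
      ∀ b : β, Encodable.encode b < n + 1 → (Encodable.encode b ≠ n ∨ ∀ B, Ext τ' B → O A B b))

theorem lim_se {O : CS → CS → β → Prop} (hO : Sig (fun z s => O (lf z) (rt z) s)) (A : CS)
    (ζ : List Bool) :
    SE A (fun z : (ℕ × List Bool) × List Bool => limR O A ζ z.1.1 z.1.2 z.2) := by
  have h1 : Sig (fun x (w : List Bool × β) => ∀ B, Ext w.1 B → O x B w.2) :=
    Sig.all (P := fun x B (w : List Bool × β) => Ext w.1 B → O x B w.2)
      (Sig.imp (Pii.ext CM.id.rt (by fun_prop))
        (Sig.comp (f := fun w : List Bool × β => w.2) hO (by fun_prop)))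
  refine SE.or (SE.or (SE.of_re (RE.lt (by fun_prop) (by fun_prop)))
    (SE.ex (SE.of_re (RE.and (RE.lt (by fun_prop) (by fun_prop))
      (RE.ne (by fun_prop) (by fun_prop))))))
    (SE.and (SE.and (SE.of_re (RE.lt (by fun_prop) (by fun_prop)))
      (SE.forall_lt (by fun_prop) (SE.of_re (RE.eq (by fun_prop) (by fun_prop)))))
      (SE.forall_enc (by fun_prop) (SE.or (SE.of_re (RE.ne (by fun_prop) (by fun_prop)))
        (SE.comp (f := fun u : ((ℕ × List Bool) × List Bool) × β => (u.1.2, u.2)) (h1.se A)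
          (by fun_prop)))))

theorem lim_tot {O : CS → CS → β → Prop} (hO : Sig (fun z s => O (lf z) (rt z) s)) (A : CS)
    (ζ : List Bool)
    (hd : ∀ (s : β) (τ : List Bool), (∀ B, Ext τ B → Ext ζ B) → ∃ B, Ext τ B ∧ O A B s)
    (n : ℕ) (τ : List Bool) : ∃ τ', limR O A ζ n τ τ' := by
  by_cases h0 : τ.length < ζ.length ∨ ∃ k, k < ζ.length ∧ τ.getD k false ≠ ζ.getD k false
  · exact ⟨τ, Or.inl h0⟩
  have hz : ∀ B, Ext τ B → Ext ζ B := fun B hB k hk => by
    rw [not_or, not_lt, not_exists] at h0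
    rw [hB k (by omega)]
    by_contra h
    exact h0.2 k ⟨hk, h⟩
  have key : ∀ (B : CS) (m : ℕ), Ext τ B → τ.length < m → τ.length < (pre B m).length ∧
      ∀ k < τ.length, (pre B m).getD k false = τ.getD k false := fun B m hB hm =>
    ⟨by rwa [pre_length], fun k hk => by rw [pre_getD B (by omega), hB k hk]⟩
  by_cases h1 : ∃ s : β, Encodable.encode s = n
  · obtain ⟨s, rfl⟩ := h1
    obtain ⟨B, hB, hs⟩ := hd s τ hz
    obtain ⟨m, hm⟩ := lim_open hO hs
    refine ⟨pre B (m + τ.length + 1), Or.inr ⟨key B _ hB (by omega), fun b _ => ?_⟩⟩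
    by_cases e : b = s
    · subst e
      exact Or.inr (hm _ (by omega))
    · exact Or.inl fun h => e (Encodable.encode_injective h)
  · exact ⟨pre (cat τ zz) (τ.length + 1), Or.inr ⟨key _ _ (ext_cat τ zz) (by omega),
      fun b _ => Or.inl fun h => h1 ⟨b, h⟩⟩⟩

/-- effective Baire category: a uniformly open dense sequence is met by a point `B0` that is the
only member of a class closed relative to `A` -/
theorem baire {O : CS → CS → β → Prop}
    (hO : Sig (fun z s => O (lf z) (rt z) s)) (A : CS) (ζ : List Bool)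
    (hd : ∀ (s : β) (τ : List Bool), (∀ B, Ext τ B → Ext ζ B) → ∃ B, Ext τ B ∧ O A B s) :
    ∃ (B0 : CS) (C : CS → CS → Prop), Pii (fun z (_ : Unit) => C (lf z) (rt z)) ∧
      (∀ B, C A B ↔ B = B0) ∧ Ext ζ B0 ∧ ∀ s, O A B0 s := by
  obtain ⟨st, h1, h2, h3⟩ := SE.run (lim_se hO A ζ) (lim_tot hO A ζ hd) ζ
  have good : ∀ n, ζ.length ≤ (st n).length ∧
      ∀ k < ζ.length, (st n).getD k false = ζ.getD k false := by
    intro n
    induction n with
    | zero => rw [h2]; exact ⟨le_rfl, fun _ _ => rfl⟩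
    | succ n ih =>
      rcases h3 n with (h | ⟨k, hk, h⟩) | ⟨⟨k1, k2⟩, -⟩
      · omega
      · exact absurd (ih.2 k hk) h
      · exact ⟨by omega, fun k hk => by rw [k2 k (by omega), ih.2 k hk]⟩
  have step : ∀ n, ((st n).length < (st (n + 1)).length ∧
      ∀ k < (st n).length, (st (n + 1)).getD k false = (st n).getD k false) ∧
      ∀ b : β, Encodable.encode b < n + 1 →
        (Encodable.encode b ≠ n ∨ ∀ B, Ext (st (n + 1)) B → O A B b) := by
    intro n
    rcases h3 n with (h | ⟨k, hk, h⟩) | h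
    · have := (good n).1
      omega
    · exact absurd ((good n).2 k hk) h
    · exact h
  have len : ∀ n, n ≤ (st n).length := by
    intro n
    induction n with
    | zero => omega
    | succ n ih =>
      have := (step n).1.1
      omega
  have mono : ∀ n m, n ≤ m → (st n).length ≤ (st m).length ∧
      ∀ k < (st n).length, (st m).getD k false = (st n).getD k false := by
    intro n m hnm
    induction m, hnm using Nat.le_induction with
    | base => exact ⟨le_rfl, fun _ _ => rfl⟩
    | succ m _ ih =>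
      obtain ⟨⟨k1, k2⟩, -⟩ := step m
      exact ⟨by omega, fun k hk => by rw [k2 k (by omega), ih.2 k hk]⟩
  have ext : ∀ n, Ext (st n) (fun k => (st (k + 1)).getD k false) := by
    intro n k hk
    have hk' : k < (st (k + 1)).length := len (k + 1)
    show (st (k + 1)).getD k false = _
    rcases le_total n (k + 1) with h | h
    · exact (mono n (k + 1) h).2 k hk
    · exact ((mono (k + 1) n h).2 k hk').symm
  have hle : LeT (fun k => (st (k + 1)).getD k false) A :=
    CF.comp (f := fun w : List Bool × ℕ => w.1.getD w.2 false) (CF.of_computable (by fun_prop))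
      (CF.pair (h1.compC (g := fun k : ℕ => k + 1) (by fun_prop))
        (CF.of_computable Computable.id))
  obtain ⟨C, c1, c2⟩ := lim_class hle
  refine ⟨_, C, c1, c2, h2 ▸ ext 0, fun s => ?_⟩
  rcases (step (Encodable.encode s)).2 s (Nat.lt_succ_self _) with h | h
  · exact absurd rfl h
  · exact h _ (ext _)

end Pool.Agent.MinDeg
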