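import Pool.Agent.P.MP_f8f34d_lc.W.HideEff
import Pool.Agent.P.MP_f8f34d_lc.W.Lim

/-! The hiding lemma. -/

namespace Pool.Agent.MinDeg

open Pool.Agent.Lib.ComputableProp

/-- goodness without the stage -/
def hide_G (h : Hp) (X : CS) (l : List Bool) : Prop := ∀ k < l.length,
  (l.getD k false = true → Br h X k ∧ X k = true) ∧ (l.getD k false = false → ¬ Br h X k)

theorem hide_of_good {h : Hp} {X : CS} {l : List Bool} {s : ℕ} (H : Good h X l s) : hide_G h X l :=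
  fun k hk => ⟨(H k hk).1, fun e => ((H k hk).2 e).not_br⟩

theorem hide_good {h : Hp} {X : CS} {l : List Bool} (H : hide_G h X l) : ∃ s, Good h X l s := by
  have : ∀ k, ∃ s, ¬ Br h X k → NB h X k s := fun k => by
    by_cases hb : Br h X k
    · exact ⟨0, fun h' => (h' hb).elim⟩
    · exact (exists_NB hb).imp fun _ h' _ => h'
  choose s hs using this
  exact ⟨(Finset.range l.length).sup s, fun k hk => ⟨(H k hk).1, fun e =>
    (hs k ((H k hk).2 e)).mono (Finset.le_sup (Finset.mem_range.2 hk))⟩⟩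

theorem hide_snoc {h : Hp} {X : CS} {l : List Bool} (H : hide_G h X l) (b : Bool)
    (h1 : b = true → Br h X l.length ∧ X l.length = true) (h2 : b = false → ¬ Br h X l.length) :
    hide_G h X (l ++ [b]) := fun k hk => by
  rw [List.length_append, List.length_singleton] at hk
  rcases (Nat.le_of_lt_succ hk).eq_or_lt with rfl | hk
  · rw [List.getD_append_right _ _ _ _ le_rfl, Nat.sub_self]
    exact ⟨h1, h2⟩
  · rw [List.getD_append _ _ _ _ hk]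
    exact H k hk

theorem hide_cnt (l : List Bool) (b : Bool) : cnt (l ++ [b]) = cnt l + cond b 1 0 := by simp [cnt]

theorem hide_pad {h : Hp} {X : CS} (m : ℕ) : ∀ l, hide_G h X l → Br h X (l.length + m) →
    ∃ l', hide_G h X l' ∧ cnt l' = cnt l ∧ Br h X l'.length := by
  induction m with
  | zero => exact fun l H hb => ⟨l, H, rfl, hb⟩
  | succ m ih =>
    intro l H hb
    by_cases h0 : Br h X l.length
    · exact ⟨l, H, rfl, h0⟩
    obtain ⟨l', a1, a2, a3⟩ := ih (l ++ [false]) (hide_snoc H false (by simp) fun _ => h0) (by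
      rwa [List.length_append, List.length_singleton, add_right_comm])
    exact ⟨l', a1, a2.trans (hide_cnt l false), a3⟩

theorem hide_symm {h : Hp} {X X' : CS} (hX : X ∈ K h.2.2.1) (H : EE h X X') : EE h X' X :=
  ⟨hX, H.2.1.symm, H.2.2.1.symm, H.2.2.2.imp fun _ => And.symm⟩

theorem hide_trans {h : Hp} {X X' X'' : CS} (ht : Tot h.2.2.2 X') (H : EE h X X')
    (H' : EE h X' X'') : EE h X X'' := by
  obtain ⟨-, a1, a2, y, a3, a4⟩ := H
  obtain ⟨b0, b1, b2, y', b3, b4⟩ := H'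
  exact ⟨b0, b1.trans a1, b2.trans a2, y, a3, ht.ag_unique b3 a4 ▸ b4⟩

theorem hide_br {h : Hp} {X X' : CS} {k : ℕ} (ht : Tot h.2.2.2 X) (H : EE h X' X)
    (e : ∀ j ≤ k, X' j = X j) (hb : Br h X k) : Br h X' k := by
  obtain ⟨Y, a1, a2, a3⟩ := hb
  exact ⟨Y, hide_trans ht H a1, fun j hj => (a2 j hj).trans (e j hj.le).symm, e k le_rfl ▸ a3⟩

theorem hide_RR {h : Hp} {v : ℕ} {B X X' : CS} (ht : Tot h.2.2.2 X) (H : EE h X X')
    (hr : RR h v B X) : RR h v B X' := by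
  obtain ⟨-, a1, a2, y, a3, a4⟩ := H
  obtain ⟨b1, y', b2, b3⟩ := hr
  exact ⟨fun m hm => (lev_eq_iff.1 a2 m hm).trans (b1 m hm), y, a4,
    a1 ▸ ht.ag_unique b2 a3 ▸ b3⟩

theorem hide_split {h : Hp} {A B X : CS} {v : ℕ} {l : List Bool}
    (tot : ∀ X ∈ UU h.1 h.2.2.1 A, Tot h.2.2.2 X) (hX : X ∈ UU h.1 h.2.2.1 A) (hr : RR h v B X)
    (H : hide_G h X l) (hb : Br h X l.length) (b : Bool) :
    ∃ Y ∈ UU h.1 h.2.2.1 A, RR h v B Y ∧ hide_G h Y l ∧ Br h Y l.length ∧ Y l.length = b := by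
  by_cases e : X l.length = b
  · exact ⟨X, hX, hr, H, hb, e⟩
  obtain ⟨Y, a1, a2, a3⟩ := hb
  have hY : Y ∈ UU h.1 h.2.2.1 A := ⟨a1.1, a1.2.1.trans hX.2⟩
  have a4 := hide_symm hX.1 a1
  refine ⟨Y, hY, hide_RR (tot X hX) a1 hr, fun k hk => ⟨fun c => ⟨hide_br (tot X hX) a4
    (fun j hj => a2 j (hj.trans_lt hk)) ((H k hk).1 c).1, (a2 k hk).trans ((H k hk).1 c).2⟩,
    fun c c' => (H k hk).2 c (hide_br (tot Y hY) a1 (fun j hj => (a2 j (hj.trans_lt hk)).symm) c')⟩,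
    ⟨X, a4, fun j hj => (a2 j hj).symm, a3.symm⟩, ?_⟩
  revert e a3
  cases Y l.length <;> cases X l.length <;> cases b <;> simp

theorem hide_dichotomy (h : Hp) (A : CS) (tot : ∀ X ∈ UU h.1 h.2.2.1 A, Tot h.2.2.2 X) (v j : ℕ)
    (ζ : List Bool) (full : ∀ B, Ext ζ B → ∃ X ∈ UU h.1 h.2.2.1 A, RR h v B X) :
    (∃ w, Iso h A w) ∨ ∃ τ : Tr3, cnt τ.1 = j ∧ Full h A v τ := by
  refine or_iff_not_imp_right.2 fun hn => ?_
  obtain ⟨B0, C, hC, hC', hζ, hO⟩ := baire (β := List Bool × ℕ)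
    (O := fun A B s => ¬ (cnt s.1 = j ∧ ∃ X, X ∈ UU h.1 h.2.2.1 A ∧ Pat h X s.1 s.2 ∧ RR h v B X))
    (Pii.neg (Pii.and (Pii.of_re (RE.ne (by fun_prop) (by fun_prop)))
      (Pii.exC (P := fun z X (s : List Bool × ℕ) =>
        X ∈ UU h.1 h.2.2.1 (lf z) ∧ Pat h X s.1 s.2 ∧ RR h v (rt z) X)
        ((pii_UU CM.id.rt CM.id.lf.lf (by fun_prop) (by fun_prop)).and
          ((pii_Pat CM.id.rt (by fun_prop) (by fun_prop) (by fun_prop)).and
            (pii_RR CM.id.lf.rt CM.id.rt (by fun_prop) (by fun_prop))))))) A ζ fun s τ _ => by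
      by_contra hc
      refine hn ⟨(s.1, s.2, τ), ?_, fun B hB => ?_⟩
      · exact (not_not.1 fun a => hc ⟨_, ext_cat τ zz, a⟩).1
      · exact (not_not.1 fun a => hc ⟨B, hB, a⟩).2
  have key : ∃ l, (∃ X ∈ UU h.1 h.2.2.1 A, RR h v B0 X ∧ hide_G h X l) ∧
      ∀ X ∈ UU h.1 h.2.2.1 A, RR h v B0 X → hide_G h X l → ∀ m, ¬ Br h X (l.length + m) := by
    by_contra hc
    have step : ∀ c, (∃ l, cnt l = c ∧ ∃ X ∈ UU h.1 h.2.2.1 A, RR h v B0 X ∧ hide_G h X l) →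
        c ≠ j ∧ ∃ l, cnt l = c + 1 ∧ ∃ X ∈ UU h.1 h.2.2.1 A, RR h v B0 X ∧ hide_G h X l := by
      rintro _ ⟨l, rfl, hl⟩
      have h1 : ¬ _ := fun a => hc ⟨l, hl, a⟩
      push Not at h1
      obtain ⟨X, hX, hr, hg, m, hm⟩ := h1
      obtain ⟨l', a1, a2, a3⟩ := hide_pad m l hg hm
      obtain ⟨Y, b1, b2, b3, b4, b5⟩ := hide_split tot hX hr a1 a3 false
      obtain ⟨Z, c1, c2, c3, c4, c5⟩ := hide_split tot hX hr a1 a3 true
      obtain ⟨s, hs⟩ := hide_good b3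
      exact ⟨fun e => hO (l', s) ⟨a2.trans e, Y, b1, ⟨hs, b4, b5⟩, b2⟩, l' ++ [true],
        by rw [hide_cnt, a2]; rfl, Z, c1, c2, hide_snoc c3 true (fun _ => ⟨c4, c5⟩) (by simp)⟩
    have all : ∀ c, ∃ l, cnt l = c ∧ ∃ X ∈ UU h.1 h.2.2.1 A, RR h v B0 X ∧ hide_G h X l := by
      intro c
      induction c with
      | zero =>
        obtain ⟨X, hX, hr⟩ := full B0 hζ
        exact ⟨[], rfl, X, hX, hr, fun k hk => by simp at hk⟩
      | succ c ih => exact (step c ih).2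
    exact (step j (all j)).1 rfl
  obtain ⟨l, ⟨X0, a1, a2, a3⟩, a4⟩ := key
  obtain ⟨s, hs⟩ := hide_good a3
  obtain ⟨w, -, hw⟩ := Pii.index (P := fun X (_ : Unit) => (∃ B, C (lev h.1 X) B ∧ RR h v B X) ∧
      Good h X l s ∧ Ext (pre X0 l.length) X)
    ((Pii.exC (P := fun X B (_ : Unit) => C (lev h.1 X) B ∧ RR h v B X)
      (((hC.map ((CM.id.lf.lev (μ := fun _ => h.1) (by fun_prop)).jn CM.id.rt)
        Computable.id).of_iff fun z _ => by rw [lf_jn, rt_jn]).and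
        (pii_RR CM.id.rt CM.id.lf (by fun_prop) (by fun_prop)))).and
      ((pii_Good CM.id (by fun_prop) (by fun_prop) (by fun_prop)).and
        (Pii.ext CM.id (by fun_prop))))
  have mem : ∀ X ∈ UU h.1 h.2.2.1 A, X ∈ K (w ()) → RR h v B0 X ∧ hide_G h X l ∧
      ∀ k < l.length, X k = X0 k := fun X hX hX' => by
    obtain ⟨⟨B, b1, b2⟩, b3, b4⟩ := (hw X ()).1 hX'
    rw [hX.2, hC'] at b1
    exact ⟨b1 ▸ b2, hide_of_good b3, ext_pre_iff.1 b4⟩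
  have nb : ∀ X ∈ UU h.1 h.2.2.1 A, X ∈ K (w ()) → ∀ k, Br h X k → k < l.length :=
    fun X hX hX' k hk => lt_of_not_ge fun hl => by
      obtain ⟨m, rfl⟩ := Nat.exists_eq_add_of_le hl
      exact a4 X hX (mem X hX hX').1 (mem X hX hX').2.1 m hk
  refine ⟨w (), ⟨X0, a1, (hw X0 ()).2 ⟨⟨B0, by rw [a1.2, hC'], a2⟩, hs, ext_pre _ _⟩⟩,
    fun X hX hX' k hk => ?_, fun X hX hX' Y hY hY' hy => ?_⟩
  · have b1 := (mem X hX hX').2.1 k (nb X hX hX' k hk)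
    cases e : l.getD k false
    · exact (b1.2 e hk).elim
    · exact (b1.1 e).2
  · by_contra hne
    have ex : ∃ k, Y k ≠ X k := Function.ne_iff.1 (Ne.symm hne)
    have b1 := nb X hX hX' (Nat.find ex) ⟨Y, ⟨hY.1, hY.2.trans hX.2.symm, lev_eq_iff.2 fun m hm =>
      ((mem Y hY hY').1.1 m hm).trans ((mem X hX hX').1.1 m hm).symm, hy⟩,
      fun j hj => not_not.1 (Nat.find_min ex hj), Nat.find_spec ex⟩
    exact Nat.find_spec ex (((mem Y hY hY').2.2 _ b1).trans ((mem X hX hX').2.2 _ b1).symm)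

/-- the constructor's hiding step -/
theorem hide_step (h : Hp) (A : CS) (tot : ∀ X ∈ UU h.1 h.2.2.1 A, Tot h.2.2.2 X) (j : ℕ)
    (ζ : List Bool) (full : ∀ B, Ext ζ B → ∃ X ∈ UU h.1 h.2.2.1 A, RR h j.unpair.2 B X) :
    (∃ w, Iso h A w ∧ ∀ X ∈ UU h.1 h.2.2.1 A, X ∈ K w → HRead h X (w + 1, [], 0, [])) ∨
    ∃ τ : Tr3, cnt τ.1 = j ∧ Full h A j.unpair.2 τ ∧
      ∀ X ∈ UU h.1 h.2.2.1 A, Pat h X τ.1 τ.2.1 → HRead h X (0, τ) := by
  classical
  by_cases hi : ∃ w, Iso h A w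
  · refine .inl ⟨Nat.find hi, Nat.find_spec hi, fun X hX hX' => .inl ⟨Nat.succ_ne_zero _,
      (Nat.find_spec hi).2.1 X hX hX', ?_, fun w hw => ?_⟩⟩
    · rw [hX.2]
      exact Nat.find_spec hi
    · rw [hX.2]
      exact Nat.find_min hi hw
  obtain ⟨τ0, h0⟩ := (hide_dichotomy h A tot _ j ζ full).resolve_left hi
  have ex : ∃ n, ∃ τ : Tr3, Encodable.encode τ = n ∧ cnt τ.1 = j ∧ Full h A j.unpair.2 τ :=
    ⟨_, τ0, rfl, h0⟩
  obtain ⟨τ, a1, a2, a3⟩ := Nat.find_spec ex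
  refine .inr ⟨τ, a2, a3, fun X hX hp => .inr ⟨rfl, hp, ?_, fun τ' b1 b2 b3 => ?_⟩⟩
  · rw [hX.2]
    exact a2 ▸ a3
  · rw [hX.2] at b3
    exact Nat.find_min ex (a1 ▸ b1) ⟨τ', rfl, b2.trans a2, a2 ▸ b3⟩

end Pool.Agent.MinDeg
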