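import Pool.Agent.P.MP_f8f34d_lc.W.Mach
import Pool.Agent.P.MP_f8f34d_lc.W.Hide
import Pool.Agent.P.MP_f8f34d_lc.W.Game

/-! Invariants of the construction. -/

namespace Pool.Agent.MinDeg

/-- the invariant of a state with level `A` and promises `D` -/
structure Inv (J : Set CS) (s : St) (A : CS) (D : ℕ → Set Cd) : Prop where
  pp : K s.ix ⊆ PP
  lev : A ∈ J
  ne : (PS s A).Nonempty
  tot : ∀ e ∈ s.act, ∀ X ∈ PS s A, Tot e X
  pers : ∀ e, Pers J (D e)
  keep : ∀ e ∈ s.act, (A, Img e (PS s A)) ∈ D e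

/-- requirement `e` needs no more attention on `P` -/
def Settled (J : Set CS) (e : ℕ) (P : Set CS) : Prop :=
  (∀ X ∈ P, ¬ Tot e X) ∨ ∃ A ∈ J, ∀ X ∈ P, ∀ y, Ag e X y → LeT X (jn A y)

/-- `s'` continues `s`; requirements that were dropped are settled -/
structure Cont (J : Set CS) (s : St) (A : CS) (s' : St) (A' : CS) : Prop where
  leads : Leads s A s' A'
  sub : ∀ e ∈ s'.act, e ∈ s.act
  set : ∀ e ∈ s.act, e ∉ s'.act → Settled J e (PS s' A')

/-- the members of the class whose key column is `B` -/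
def Fib (s : St) (A B : CS) : Set CS := {X | X ∈ PS s A ∧ col X s.key = B}

/-- every `B` in the cylinder is a key column, and the promises outside the list are secured -/
structure Arena (J : Set CS) (s : St) (A : CS) (D : ℕ → Set Cd) (ζ : List Bool) : Prop where
  len : s.mode = 4 → ζ.length = s.len
  full : ∀ B, Ext ζ B → (Fib s A B).Nonempty
  todo : ∀ e ∈ s.todo, e ∈ s.act
  sec : ∀ e ∈ s.act, e ∉ s.todo → ∀ B ∈ J, Ext ζ B → (rs A B, Img e (Fib s A B)) ∈ D e

end Pool.Agent.MinDeg
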