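import Pool.Agent.P.MP_f8f34d_lc.W.HideDefs

/-! Basic facts on functionals; complexity of the predicates of a hiding step. -/

namespace Pool.Agent.MinDeg

open Pool.Agent.Lib.ComputableProp

variable {α : Type} [Primcodable α]

theorem Ps.unique {e : ℕ} {x : CS} {n : ℕ} {b b' : Bool} (h : Ps e x n b) (h' : Ps e x n b') :
    b = b' := by
  exact (Sig.unif (P := fun x (w : ℕ × ℕ) (b : Bool) =>
    Un (Nat.pair w.1 (Encodable.encode (w.2, b))) x) sig_Ps0).choose_spec.2.2.1 x (e, n) b b' h h'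

theorem exists_ag (e : ℕ) (x : CS) : ∃ y, Ag e x y := by
  classical
  refine ⟨fun n => if H : ∃ b, Ps e x n b then H.choose else false, fun n b hb => ?_⟩
  have H : ∃ b, Ps e x n b := ⟨b, hb⟩
  beta_reduce
  rw [dif_pos H]
  exact H.choose_spec.unique hb

theorem Tot.ag_unique {e : ℕ} {x y y' : CS} (h : Tot e x) (h1 : Ag e x y) (h2 : Ag e x y') :
    y = y' := by
  funext n
  obtain ⟨b, hb⟩ := h n
  rw [h1 n b hb, h2 n b hb]

theorem LeT.exists_fun {y x : CS} (h : LeT y x) : ∃ e, Tot e x ∧ Ag e x y := by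
  obtain ⟨S, h1, h2⟩ := h
  obtain ⟨e, he⟩ := h1.index
  have k := (Sig.unif (P := fun x (w : ℕ × ℕ) (b : Bool) =>
    Un (Nat.pair w.1 (Encodable.encode (w.2, b))) x) sig_Ps0).choose_spec
  refine ⟨e, fun n => ?_, fun n b hb => ?_⟩
  · exact k.2.2.2 x (e, n) (y n) ((he x (n, y n)).1 ((h2 (n, y n)).2 rfl))
  · exact (h2 (n, b)).1 ((he x (n, b)).2 (k.2.1 x (e, n) b hb))

theorem NB.not_br {h : Hp} {X : CS} {k s : ℕ} (H : NB h X k s) : ¬ Br h X k := by
  exact ((Sig.stage pii_Br0).choose_spec.2.2.2 X (h, k)).2 ⟨s, H⟩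

theorem NB.mono {h : Hp} {X : CS} {k s s' : ℕ} (H : NB h X k s) (hs : s ≤ s') : NB h X k s' := by
  exact (Sig.stage pii_Br0).choose_spec.2.2.1 X (h, k) s s' hs H

theorem exists_NB {h : Hp} {X : CS} {k : ℕ} (H : ¬ Br h X k) : ∃ s, NB h X k s := by
  exact ((Sig.stage pii_Br0).choose_spec.2.2.2 X (h, k)).1 H

theorem pii_UU {F G : CS → α → CS} (hF : CM F) (hG : CM G) {μ : α → List ℕ} {i : α → ℕ}
    (hμ : Computable μ) (hi : Computable i) : Pii fun z a => F z a ∈ UU (μ a) (i a) (G z a) := by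
  exact (pii_K hF hi).and (Pii.eqC (hF.lev hμ) hG)

theorem isClosed_UU (μ : List ℕ) (i : ℕ) (A : CS) : IsClosed (UU μ i A) := by
  have hc : Continuous (lev μ) := by
    refine continuous_pi fun p => ?_
    unfold lev
    cases leb μ.length p.unpair.1
    · exact continuous_apply _
    · exact continuous_const
  exact (isClosed_K i).inter (isClosed_eq hc continuous_const)

theorem pii_Br {F : CS → α → CS} (hF : CM F) {h : α → Hp} {k : α → ℕ} (hh : Computable h)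
    (hk : Computable k) : Pii fun z a => Br (h a) (F z a) (k a) := by
  exact pii_Br0.map hF (g := fun a => (h a, k a)) (by fun_prop)

theorem hideeff_pii_NB {F : CS → α → CS} (hF : CM F) {h : α → Hp} {k s : α → ℕ}
    (hh : Computable h) (hk : Computable k) (hs : Computable s) :
    Pii fun z a => NB (h a) (F z a) (k a) (s a) :=
  (Sig.stage pii_Br0).choose_spec.2.1.map hF (g := fun a => ((h a, k a), s a)) (by fun_prop)

theorem hideeff_good0 : Pii fun X (w : Hp × List Bool × ℕ) => Good w.1 X w.2.1 w.2.2 :=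
  Pii.all (Pii.imp (Sig.of_re (RE.lt (by fun_prop) (by fun_prop))) (Pii.and
    (Pii.imp (Sig.of_re (RE.eq (by fun_prop) (by fun_prop)))
      ((pii_Br CM.id (by fun_prop) (by fun_prop)).and
        (Pii.bit CM.id (by fun_prop) (by fun_prop))))
    (Pii.imp (Sig.of_re (RE.eq (by fun_prop) (by fun_prop)))
      (hideeff_pii_NB CM.id (by fun_prop) (by fun_prop) (by fun_prop)))))

theorem pii_Good {F : CS → α → CS} (hF : CM F) {h : α → Hp} {l : α → List Bool} {s : α → ℕ}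
    (hh : Computable h) (hl : Computable l) (hs : Computable s) :
    Pii fun z a => Good (h a) (F z a) (l a) (s a) := by
  exact hideeff_good0.map hF (g := fun a => (h a, l a, s a)) (by fun_prop)

theorem pii_Pat {F : CS → α → CS} (hF : CM F) {h : α → Hp} {l : α → List Bool} {s : α → ℕ}
    (hh : Computable h) (hl : Computable l) (hs : Computable s) :
    Pii fun z a => Pat (h a) (F z a) (l a) (s a) := by
  exact (pii_Good hF hh hl hs).and ((pii_Br hF hh (by fun_prop)).and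
    (Pii.bit hF (by fun_prop) (by fun_prop)))

theorem hideeff_rr0 : Pii fun z (w : Hp × ℕ) => RR w.1 w.2 (lf z) (rt z) :=
  (Pii.all (Pii.imp (Sig.of_re (RE.mem (by fun_prop) (by fun_prop)))
    (Pii.eqC (CM.id.rt.col (by fun_prop)) CM.id.lf))).and
    (Pii.exC (P := fun z y (w : Hp × ℕ) => Ag w.1.2.2.2 (rt z) y ∧
      jn (lev w.1.1 (rt z)) (jn (lf z) y) ∈ K w.2)
      ((pii_Ag CM.id.lf.rt CM.id.rt (by fun_prop)).and
        (pii_K ((CM.id.lf.rt.lev (by fun_prop)).jn (CM.id.lf.lf.jn CM.id.rt)) (by fun_prop))))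

theorem pii_RR {F G : CS → α → CS} (hF : CM F) (hG : CM G) {h : α → Hp} {v : α → ℕ}
    (hh : Computable h) (hv : Computable v) : Pii fun z a => RR (h a) (v a) (F z a) (G z a) := by
  exact (hideeff_rr0.map (hF.jn hG) (g := fun a => (h a, v a)) (by fun_prop)).of_iff
    fun z a => by rw [lf_jn, rt_jn]

theorem hideeff_full0 : Pii fun A (w : Hp × ℕ × Tr3) => Full w.1 A w.2.1 w.2.2 :=
  Pii.allC (P := fun A B (w : Hp × ℕ × Tr3) => Ext w.2.2.2.2 B →
    ∃ X ∈ UU w.1.1 w.1.2.2.1 A, Pat w.1 X w.2.2.1 w.2.2.2.1 ∧ RR w.1 w.2.1 B X)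
    (Pii.imp (CM.id.rt.ext (by fun_prop)) (Pii.exC (P := fun z X (w : Hp × ℕ × Tr3) =>
      X ∈ UU w.1.1 w.1.2.2.1 (lf z) ∧ Pat w.1 X w.2.2.1 w.2.2.2.1 ∧ RR w.1 w.2.1 (rt z) X)
      ((pii_UU CM.id.rt CM.id.lf.lf (by fun_prop) (by fun_prop)).and
        ((pii_Pat CM.id.rt (by fun_prop) (by fun_prop) (by fun_prop)).and
          (pii_RR CM.id.lf.rt CM.id.rt (by fun_prop) (by fun_prop))))))

theorem pii_Full {F : CS → α → CS} (hF : CM F) {h : α → Hp} {v : α → ℕ} {τ : α → Tr3}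
    (hh : Computable h) (hv : Computable v) (hτ : Computable τ) :
    Pii fun z a => Full (h a) (F z a) (v a) (τ a) := by
  exact hideeff_full0.map hF (g := fun a => (h a, v a, τ a)) (by fun_prop)

theorem hideeff_iso1 :
    Pii fun A (w : Hp × ℕ) => ∃ X ∈ UU w.1.1 w.1.2.2.1 A, X ∈ K w.2 :=
  Pii.exC (P := fun A X (w : Hp × ℕ) => X ∈ UU w.1.1 w.1.2.2.1 A ∧ X ∈ K w.2)
    ((pii_UU CM.id.rt CM.id.lf (by fun_prop) (by fun_prop)).and (pii_K CM.id.rt (by fun_prop)))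

theorem hideeff_iso2 : Sig fun A (u : (Hp × ℕ) × ℕ) =>
    ∀ X ∈ UU u.1.1.1 u.1.1.2.2.1 A, X ∈ K u.1.2 → Br u.1.1 X u.2 → X u.2 = true :=
  Sig.all (P := fun A X (u : (Hp × ℕ) × ℕ) =>
    X ∈ UU u.1.1.1 u.1.1.2.2.1 A → X ∈ K u.1.2 → Br u.1.1 X u.2 → X u.2 = true)
    (Sig.imp (pii_UU CM.id.rt CM.id.lf (by fun_prop) (by fun_prop))
      (Sig.imp (pii_K CM.id.rt (by fun_prop)) (Sig.imp (pii_Br CM.id.rt (by fun_prop) (by fun_prop))
        (CM.id.rt.bit (by fun_prop) (by fun_prop)))))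

theorem hideeff_sig_beq {F G : CS → α → CS} (hF : CM F) (hG : CM G) {f g : α → ℕ}
    (hf : Computable f) (hg : Computable g) : Sig (fun z a => F z a (f a) = G z a (g a)) :=
  (Pii.bne hF hG hf hg).neg.of_iff fun _ _ => not_not

theorem hideeff_iso3 : Sig fun A (u : (Hp × ℕ) × ℕ) =>
    ∀ X ∈ UU u.1.1.1 u.1.1.2.2.1 A, X ∈ K u.1.2 → ∀ X' ∈ UU u.1.1.1 u.1.1.2.2.1 A, X' ∈ K u.1.2 →
      (∃ y, Ag u.1.1.2.2.2 X y ∧ Ag u.1.1.2.2.2 X' y) → X u.2 = X' u.2 :=
  Sig.all (P := fun A X (u : (Hp × ℕ) × ℕ) =>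
    X ∈ UU u.1.1.1 u.1.1.2.2.1 A → X ∈ K u.1.2 → ∀ X' ∈ UU u.1.1.1 u.1.1.2.2.1 A, X' ∈ K u.1.2 →
      (∃ y, Ag u.1.1.2.2.2 X y ∧ Ag u.1.1.2.2.2 X' y) → X u.2 = X' u.2)
    (Sig.imp (pii_UU CM.id.rt CM.id.lf (by fun_prop) (by fun_prop))
      (Sig.imp (pii_K CM.id.rt (by fun_prop))
        (Sig.all (P := fun z X' (u : (Hp × ℕ) × ℕ) =>
          X' ∈ UU u.1.1.1 u.1.1.2.2.1 (lf z) → X' ∈ K u.1.2 →
            (∃ y, Ag u.1.1.2.2.2 (rt z) y ∧ Ag u.1.1.2.2.2 X' y) → rt z u.2 = X' u.2)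
          (Sig.imp (pii_UU CM.id.rt CM.id.lf.lf (by fun_prop) (by fun_prop))
            (Sig.imp (pii_K CM.id.rt (by fun_prop))
              (Sig.imp (Pii.exC (P := fun z y (u : (Hp × ℕ) × ℕ) =>
                Ag u.1.1.2.2.2 (rt (lf z)) y ∧ Ag u.1.1.2.2.2 (rt z) y)
                ((pii_Ag CM.id.lf.lf.rt CM.id.rt (by fun_prop)).and
                  (pii_Ag CM.id.lf.rt CM.id.rt (by fun_prop))))
                (hideeff_sig_beq CM.id.lf.rt CM.id.rt (by fun_prop) (by fun_prop))))))))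

theorem hideeff_de_iso (X : CS) :
    DE (jp (jp X)) fun w : Hp × ℕ => Iso w.1 (lev w.1.1 X) w.2 := by
  have h1 := ((hideeff_iso1.map (α := Hp × ℕ) (CM.id.lev (μ := fun w => w.1.1) (by fun_prop))
    Computable.id).de X).up
  have h2 := DE.all (P := fun (w : Hp × ℕ) (k : ℕ) =>
    ∀ Y ∈ UU w.1.1 w.1.2.2.1 (lev w.1.1 X), Y ∈ K w.2 → Br w.1 Y k → Y k = true)
    ((hideeff_iso2.map (α := (Hp × ℕ) × ℕ) (CM.id.lev (μ := fun u => u.1.1.1) (by fun_prop))
      Computable.id).de X)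
  have h3 := DE.all (P := fun (w : Hp × ℕ) (k : ℕ) =>
    ∀ Y ∈ UU w.1.1 w.1.2.2.1 (lev w.1.1 X), Y ∈ K w.2 →
      ∀ Y' ∈ UU w.1.1 w.1.2.2.1 (lev w.1.1 X), Y' ∈ K w.2 →
      (∃ y, Ag w.1.2.2.2 Y y ∧ Ag w.1.2.2.2 Y' y) → Y k = Y' k)
    ((hideeff_iso3.map (α := (Hp × ℕ) × ℕ) (CM.id.lev (μ := fun u => u.1.1.1) (by fun_prop))
      Computable.id).de X)
  refine (h1.and (h2.and h3)).of_iff fun w => and_congr Iff.rfl (and_congr ?_ ?_)
  · exact ⟨fun H Y a b k c => H k Y a b c, fun H k Y a b c => H Y a b k c⟩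
  · exact ⟨fun H Y a b Y' a' b' c => funext fun k => H k Y a b Y' a' b' c,
      fun H k Y a b Y' a' b' c => congrFun (H Y a b Y' a' b' c) k⟩

theorem de_HRead (X : CS) : DE (jp (jp X)) fun w : Hp × ℕ × Tr3 => HRead w.1 X w.2 := by
  have hI := hideeff_de_iso X
  have hN : DE (jp (jp X)) fun h : Hp => NN h X :=
    DE.all (P := fun (h : Hp) (k : ℕ) => Br h X k → X k = true)
      (DE.imp ((pii_Br (α := Hp × ℕ) CM.id (h := fun w => w.1) (k := fun w => w.2) (by fun_prop)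
        (by fun_prop)).de X) ((Pii.bit (α := Hp × ℕ) CM.id (f := fun w => w.2)
        (g := fun _ => true) (by fun_prop) (by fun_prop)).de X))
  have hP : DE (jp (jp X)) fun w : Hp × ℕ × Tr3 => Pat w.1 X w.2.2.1 w.2.2.2.1 :=
    ((pii_Pat (α := Hp × ℕ × Tr3) CM.id (h := fun w => w.1) (l := fun w => w.2.2.1)
      (s := fun w => w.2.2.2.1) (by fun_prop) (by fun_prop) (by fun_prop)).de X).up
  have hF : DE (jp (jp X)) fun w : Hp × ℕ × Tr3 => Full w.1 (lev w.1.1 X) w.2.1 w.2.2 :=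
    ((pii_Full (α := Hp × ℕ × Tr3) (CM.id.lev (μ := fun w => w.1.1) (by fun_prop))
      (h := fun w => w.1) (v := fun w => w.2.1) (τ := fun w => w.2.2) (by fun_prop) (by fun_prop)
      (by fun_prop)).de X).up
  refine DE.or (DE.and (DE.eq (f := fun w : Hp × ℕ × Tr3 => w.2.1) (g := fun _ => 0)
    (by fun_prop) (by fun_prop)).not (DE.and (hN.comp (by fun_prop)) (DE.and
      (hI.comp (f := fun w : Hp × ℕ × Tr3 => (w.1, w.2.1 - 1)) (by fun_prop))
      (DE.forall_lt (by fun_prop) (hI.comp (f := fun u : (Hp × ℕ × Tr3) × ℕ => (u.1.1, u.2))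
        (by fun_prop)).not))))
    (DE.and (DE.eq (by fun_prop) (by fun_prop)) (DE.and hP (DE.and
      (hF.comp (f := fun w : Hp × ℕ × Tr3 => (w.1, (cnt w.2.2.1).unpair.2, w.2.2)) (by fun_prop))
      (DE.forall_enc (by fun_prop) (DE.imp (DE.eq (by fun_prop) (by fun_prop))
        (hF.comp (f := fun u : (Hp × ℕ × Tr3) × Tr3 => (u.1.1, (cnt u.1.2.2.1).unpair.2, u.2))
          (by fun_prop)).not)))))

theorem Pat.unique {h : Hp} {X : CS} {l l' : List Bool} {s s' : ℕ} (H : Pat h X l s)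
    (H' : Pat h X l' s') : l = l' := by
  have key : ∀ {l l' : List Bool} {s s' : ℕ}, Pat h X l s → Pat h X l' s' →
      ¬ l.length < l'.length := by
    intro l l' s s' H H' hlt
    obtain ⟨k1, k2⟩ := H'.1 _ hlt
    cases e : l'.getD l.length false
    · exact (k2 e).not_br H.2.1
    · have := (k1 e).2
      rw [H.2.2] at this
      exact Bool.noConfusion this
  have hlen : l.length = l'.length := by
    have h1 := key H H'
    have h2 := key H' H
    omega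
  refine List.ext_getElem hlen fun k hk hk' => ?_
  obtain ⟨k1, k2⟩ := H.1 k hk
  obtain ⟨k3, k4⟩ := H'.1 k hk'
  rw [List.getD_eq_getElem?_getD, List.getElem?_eq_getElem hk, Option.getD_some] at k1 k2
  rw [List.getD_eq_getElem?_getD, List.getElem?_eq_getElem hk', Option.getD_some] at k3 k4
  cases e : l[k] <;> cases e' : l'[k]
  · rfl
  · exact absurd (k3 e').1 (k2 e).not_br
  · exact absurd (k1 e).1 (k4 e').not_br
  · rfl

theorem HRead.unique {h : Hp} {X : CS} {d d' : ℕ × Tr3} (H : HRead h X d) (H' : HRead h X d') :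
    d.1 = d'.1 ∧ (d.1 = 0 → d.2 = d'.2) := by
  rcases H with ⟨a1, a2, a3, a4⟩ | ⟨a1, a2, a3, a4⟩ <;>
    rcases H' with ⟨b1, b2, b3, b4⟩ | ⟨b1, b2, b3, b4⟩
  · refine ⟨?_, fun e => absurd e a1⟩
    have h1 : ¬ d.1 - 1 < d'.1 - 1 := fun e => b4 _ e a3
    have h2 : ¬ d'.1 - 1 < d.1 - 1 := fun e => a4 _ e b3
    omega
  · have := a2 _ b2.2.1
    rw [b2.2.2] at this
    exact Bool.noConfusion this
  · have := b2 _ a2.2.1
    rw [a2.2.2] at this
    exact Bool.noConfusion this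
  · refine ⟨a1.trans b1.symm, fun _ => ?_⟩
    have e : d.2.1 = d'.2.1 := a2.unique b2
    have h1 : ¬ Encodable.encode d.2 < Encodable.encode d'.2 := fun k =>
      b4 _ k (by rw [e]) (by rw [← e]; exact a3)
    have h2 : ¬ Encodable.encode d'.2 < Encodable.encode d.2 := fun k =>
      a4 _ k (by rw [e]) (by rw [e]; exact b3)
    exact Encodable.encode_injective (by omega)

/-- on a class where the functional is total and injective, the point is computed from its image -/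
theorem leT_of_inj {μ : List ℕ} {i e : ℕ} {A X y : CS} (hX : X ∈ UU μ i A) (hy : Ag e X y)
    (inj : ∀ X ∈ UU μ i A, ∀ X' ∈ UU μ i A, (∃ y, Ag e X y ∧ Ag e X' y) → X = X') :
    LeT X (jn A y) := by
  refine leT_of_unique (P := fun z X => X ∈ UU μ i (lf z) ∧ Ag e X (rt z))
    ((pii_UU CM.id.rt CM.id.lf.lf (Computable.const μ) (Computable.const i)).and
      (pii_Ag CM.id.rt CM.id.lf.rt (Computable.const e))) ?_ fun w hw => ?_
  · rw [lf_jn, rt_jn]
    exact ⟨hX, hy⟩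
  · rw [lf_jn, rt_jn] at hw
    exact inj w hw.1 X hX ⟨y, hw.2, hy⟩

end Pool.Agent.MinDeg
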