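import Pool.Agent.P.MP_f8f34d_lc.W.HideEff
import Pool.Agent.P.MP_f8f34d_lc.W.Base

/-! The machine that the double jump of the point can replay. -/

namespace Pool.Agent.MinDeg

open Pool.Agent.Lib.ComputableProp

variable {α : Type} [Primcodable α]

theorem ex_iCap : ∃ s : ℕ × ℕ → ℕ, Computable s ∧
    ∀ x a, x ∈ K (s a) ↔ (x ∈ K a.1 ∧ x ∈ K a.2) :=
  Pii.index ((pii_K CM.id (by fun_prop)).and (pii_K CM.id (by fun_prop)))

theorem ex_iDiv : ∃ s : ℕ × ℕ × ℕ → ℕ, Computable s ∧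
    ∀ x a, x ∈ K (s a) ↔ (x ∈ K a.1 ∧ ∀ b, ¬ Ps a.2.1 x a.2.2 b) :=
  Pii.index ((pii_K CM.id (by fun_prop)).and (Pii.all (Pii.not
    (sig_Ps CM.id (by fun_prop) (by fun_prop) (by fun_prop)))))

theorem ex_iMsg : ∃ s : Hp × Tr3 × ℕ → ℕ, Computable s ∧
    ∀ x a, x ∈ K (s a) ↔ (x ∈ K a.1.2.2.1 ∧ Pat a.1 x a.2.1.1 a.2.1.2.1 ∧
      RR a.1 (cnt a.2.1.1).unpair.2 (col x a.2.2) x) :=
  Pii.index ((pii_K CM.id (by fun_prop)).and
    ((pii_Pat CM.id (by fun_prop) (by fun_prop) (by fun_prop)).and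
      (pii_RR (CM.id.col (by fun_prop)) CM.id (by fun_prop) (by fun_prop))))

theorem ex_iPair : ∃ s : Hp × Tr3 → ℕ, Computable s ∧
    ∀ z a, z ∈ K (s a) ↔ (rt z ∈ K a.1.2.2.1 ∧ Pat a.1 (rt z) a.2.1 a.2.2.1 ∧
      RR a.1 (cnt a.2.1).unpair.2 (lf z) (rt z)) :=
  Pii.index ((pii_K CM.id.rt (by fun_prop)).and
    ((pii_Pat CM.id.rt (by fun_prop) (by fun_prop) (by fun_prop)).and
      (pii_RR CM.id.lf CM.id.rt (by fun_prop) (by fun_prop))))

theorem ex_iRt : ∃ s : ℕ → ℕ, Computable s ∧ ∀ z a, z ∈ K (s a) ↔ rt z ∈ K a :=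
  Pii.index (pii_K CM.id.rt (by fun_prop))

noncomputable def iCap : ℕ × ℕ → ℕ := ex_iCap.choose
noncomputable def iDiv : ℕ × ℕ × ℕ → ℕ := ex_iDiv.choose
noncomputable def iMsg : Hp × Tr3 × ℕ → ℕ := ex_iMsg.choose
noncomputable def iPair : Hp × Tr3 → ℕ := ex_iPair.choose
noncomputable def iRt : ℕ → ℕ := ex_iRt.choose
noncomputable def flex : List ℕ × List Bool × ℕ → ℕ := exists_flex.choose

theorem mem_iCap (x : CS) (i w : ℕ) : x ∈ K (iCap (i, w)) ↔ (x ∈ K i ∧ x ∈ K w) :=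
  ex_iCap.choose_spec.2 x _
theorem mem_iDiv (x : CS) (i e n : ℕ) :
    x ∈ K (iDiv (i, e, n)) ↔ (x ∈ K i ∧ ∀ b, ¬ Ps e x n b) := ex_iDiv.choose_spec.2 x _
theorem mem_iMsg (x : CS) (h : Hp) (τ : Tr3) (m : ℕ) : x ∈ K (iMsg (h, τ, m)) ↔
    (x ∈ K h.2.2.1 ∧ Pat h x τ.1 τ.2.1 ∧ RR h (cnt τ.1).unpair.2 (col x m) x) :=
  ex_iMsg.choose_spec.2 x _
theorem mem_iPair (B x : CS) (h : Hp) (τ : Tr3) : jn B x ∈ K (iPair (h, τ)) ↔
    (x ∈ K h.2.2.1 ∧ Pat h x τ.1 τ.2.1 ∧ RR h (cnt τ.1).unpair.2 B x) := by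
  have := ex_iPair.choose_spec.2 (jn B x) (h, τ)
  rw [lf_jn, rt_jn] at this
  exact this
theorem mem_iRt (B x : CS) (i : ℕ) : jn B x ∈ K (iRt i) ↔ x ∈ K i := by
  have := ex_iRt.choose_spec.2 (jn B x) i
  rw [rt_jn] at this
  exact this
theorem flex_spec (μ : List ℕ) (ζ : List Bool) (a : ℕ) (A : CS)
    (h : ∀ B, Ext ζ B → ∃ X ∈ PP, lev μ X = A ∧ jn B X ∈ K a) :
    ∀ B, Ext ζ B → ∃ X ∈ PP, lev μ X = A ∧ jn B X ∈ K a ∧ col X (flex (μ, ζ, a)) = B :=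
  exists_flex.choose_spec.2 μ ζ a A h

/-- remove `e` from a list -/
def del (e : ℕ) (l : List ℕ) : List ℕ := l.foldr (fun a s => cond (eqb a e) s (a :: s)) []
def memb (e : ℕ) (l : List ℕ) : Bool := l.any fun a => eqb a e

/-- mode, phase, index, key column, length of the cylinder; levels, active, to do, records -/
abbrev St : Type := (ℕ × ℕ × ℕ × ℕ × ℕ) × (List ℕ × List ℕ × List ℕ × List ℕ)

namespace St
abbrev mode (s : St) : ℕ := s.1.1
abbrev ph (s : St) : ℕ := s.1.2.1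
abbrev ix (s : St) : ℕ := s.1.2.2.1
abbrev key (s : St) : ℕ := s.1.2.2.2.1
abbrev len (s : St) : ℕ := s.1.2.2.2.2
abbrev mu (s : St) : List ℕ := s.2.1
abbrev act (s : St) : List ℕ := s.2.2.1
abbrev todo (s : St) : List ℕ := s.2.2.2.1
abbrev rcd (s : St) : List ℕ := s.2.2.2.2
/-- the owner of the phase -/
abbrev own (s : St) : ℕ := s.ph.unpair.1
/-- parameters of the hiding step of the owner -/
abbrev hA (s : St) : Hp := (s.mu, [], s.ix, s.own)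
/-- parameters of the hiding step of the first requirement in the list -/
abbrev hB (s : St) : Hp := (s.mu, [s.key], s.ix, s.todo.getD 0 0)
end St

/-- activation -/
noncomputable def nx0 (s : St) (d : ℕ × Tr3) : St :=
  cond (eqb d.1 0) ((1, s.ph, s.ix, s.key, s.len), (s.mu, s.ph :: s.act, s.todo, s.rcd))
    ((1, s.ph, iDiv (s.ix, s.ph, d.1 - 1), s.key, s.len), s.2)

/-- abort of requirement `e`, back to mode `md` -/
noncomputable def nxAb (s : St) (md e w : ℕ) : St :=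
  ((md, s.ph, iCap (s.ix, w), s.key, s.len), (s.mu, del e s.act, s.todo, s.rcd))

/-- message of the owner -/
noncomputable def nxA (s : St) (τ : Tr3) : St :=
  ((cond (eqb (cnt τ.1).unpair.1 0) 3 2, s.ph,
    iMsg (s.hA, τ, flex (s.mu, τ.2.2, iPair (s.hA, τ))), flex (s.mu, τ.2.2, iPair (s.hA, τ)),
    s.len), (s.mu, s.act, s.act, s.rcd))

noncomputable def nx1 (s : St) (d : ℕ × Tr3) : St :=
  cond (memb s.own s.act) (cond (eqb d.1 0) (nxA s d.2) (nxAb s 1 s.own (d.1 - 1)))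
    ((2, s.1.2), s.2)

/-- start of a system round -/
noncomputable def nx2 (s : St) : St :=
  ((4, s.ph, s.ix, flex (s.mu, [], iRt s.ix), 0), (s.mu, s.act, s.act, s.rcd))

/-- message inside the loop -/
noncomputable def nxB (s : St) (τ : Tr3) : St :=
  ((s.mode, s.ph, iMsg (s.hB, τ, s.key), s.key, τ.2.2.length),
    (s.mu, s.act, s.todo.tail, s.rcd))

/-- end of a round -/
def nxR (s : St) : St :=
  cond (eqb s.mode 3) ((1, s.1.2), (s.key :: s.mu, s.2.2))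
    ((0, s.ph + 1, s.1.2.2), (s.key :: s.mu, s.act, s.todo, s.rcd ++ [Nat.pair s.key s.len]))

noncomputable def nx3 (s : St) (d : ℕ × Tr3) : St :=
  cond (eqb s.todo.length 0) (nxR s)
    (cond (eqb d.1 0) (nxB s d.2) (nxAb s (s.mode - 2) (s.todo.getD 0 0) (d.1 - 1)))

noncomputable def nx (s : St) (d : ℕ × Tr3) : St :=
  cond (eqb s.mode 0) (nx0 s d) (cond (eqb s.mode 1) (nx1 s d)
    (cond (eqb s.mode 2) (nx2 s) (nx3 s d)))

/-- some member of the class makes functional `e` diverge at `n` -/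
def Dv (μ : List ℕ) (i e : ℕ) (A : CS) (n : ℕ) : Prop := ∃ X ∈ UU μ i A, ∀ b, ¬ Ps e X n b

def Read (X : CS) (s : St) (d : ℕ × Tr3) : Prop :=
  (s.mode = 0 → (d.1 = 0 ∧ ∀ n, ¬ Dv s.mu s.ix s.ph (lev s.mu X) n) ∨
    (d.1 ≠ 0 ∧ Dv s.mu s.ix s.ph (lev s.mu X) (d.1 - 1) ∧
      ∀ n < d.1 - 1, ¬ Dv s.mu s.ix s.ph (lev s.mu X) n)) ∧
  (s.mode = 1 → s.own ∈ s.act → HRead s.hA X d) ∧
  (3 ≤ s.mode → s.todo ≠ [] → HRead s.hB X d)

def Step (X : CS) (s s' : St) : Prop := ∃ d, Read X s d ∧ s' = nx s d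

/-- the class of a state at level `A` -/
def PS (s : St) (A : CS) : Set CS := UU s.mu s.ix A

def Leads (s : St) (A : CS) (s' : St) (A' : CS) : Prop :=
  PS s' A' ⊆ PS s A ∧ ∀ X ∈ PS s' A', Relation.ReflTransGen (Step X) s s'

end Pool.Agent.MinDeg
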