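import Pool.Agent.P.MP_f8f34d_lc.Force

/-! Computable maps, effectively closed relations, indices, stages and uniformisation. -/

namespace Pool.Agent.MinDeg

open Pool.Agent.Lib.ComputableProp

variable {α β γ : Type} [Primcodable α] [Primcodable β] [Primcodable γ]

def lf (z : CS) : CS := fun i => z (2 * i)
def rt (z : CS) : CS := fun i => z (2 * i + 1)
@[simp] theorem lf_jn (x y : CS) : lf (jn x y) = x := jn_ev x y
@[simp] theorem rt_jn (x y : CS) : rt (jn x y) = y := jn_od x y

/-- column `m` -/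
def col (X : CS) (m : ℕ) : CS := fun n => X (Nat.pair m n)
/-- the join of the columns listed in `μ` -/
def lev (μ : List ℕ) (X : CS) : CS := fun p =>
  cond (leb μ.length p.unpair.1) false (X (Nat.pair (μ.getD p.unpair.1 0) p.unpair.2))
/-- put `B` in front of `A` as a new first column -/
def rs (A B : CS) : CS := fun p =>
  cond (eqb p.unpair.1 0) (B p.unpair.2) (A (Nat.pair (p.unpair.1 - 1) p.unpair.2))
def tl (Z : CS) : CS := fun p => Z (Nat.pair (p.unpair.1 + 1) p.unpair.2)
def cat (ζ : List Bool) (A : CS) : CS := fun n =>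
  cond (leb ζ.length n) (A (n - ζ.length)) (ζ.getD n false)
def zz : CS := fun _ => false
def Ext (ζ : List Bool) (B : CS) : Prop := ∀ k < ζ.length, B k = ζ.getD k false

@[simp] theorem tl_rs (A B : CS) : tl (rs A B) = A := by
  funext p; simp [tl, rs, eqb]
@[simp] theorem col_rs (A B : CS) : col (rs A B) 0 = B := by
  funext p; simp [col, rs, eqb]
theorem rs_inj {A B A' B' : CS} (h : rs A B = rs A' B') : A = A' ∧ B = B' :=
  ⟨by simpa using congrArg tl h, by simpa using congrArg (col · 0) h⟩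
@[simp] theorem lev_nil (X : CS) : lev [] X = zz := by
  funext p; simp [lev, zz, leb]
theorem lev_cons (m : ℕ) (μ : List ℕ) (X : CS) : lev (m :: μ) X = rs (lev μ X) (col X m) := by
  funext p
  rcases h : p.unpair.1 with _ | j
  · simp [lev, rs, h, leb, eqb, col]
  · simp [lev, rs, h, leb, eqb]
theorem col_lev {μ : List ℕ} {j : ℕ} (h : j < μ.length) (X : CS) :
    col (lev μ X) j = col X (μ.getD j 0) := by
  funext n
  have : ¬ μ.length ≤ j := by omega
  simp [col, lev, leb, this]
theorem lev_eq_iff {μ : List ℕ} {X Y : CS} : lev μ X = lev μ Y ↔ ∀ m ∈ μ, col X m = col Y m := by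
  induction μ with
  | nil => simp
  | cons m μ ih =>
    rw [lev_cons, lev_cons, List.forall_mem_cons, ← ih]
    exact ⟨fun h => ⟨(rs_inj h).2, (rs_inj h).1⟩, fun h => by rw [h.1, h.2]⟩
theorem ext_cat (ζ : List Bool) (A : CS) : Ext ζ (cat ζ A) := fun k hk => by
  have : ¬ ζ.length ≤ k := by omega
  simp [cat, leb, this]
theorem cat_add (ζ : List Bool) (A : CS) (n : ℕ) : cat ζ A (ζ.length + n) = A n := by
  simp [cat, leb]
theorem ext_pre (x : CS) (n : ℕ) : Ext (pre x n) x := fun k hk => by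
  rw [pre_length] at hk; rw [pre_getD x hk]
theorem Ext.eq_pre {σ : List Bool} {x : CS} (h : Ext σ x) : pre x σ.length = σ := by
  apply List.ext_getElem (by simp)
  intro i hi hi'
  have := h i hi'
  simp only [pre, List.getElem_map, List.getElem_range]
  rw [this, List.getD_eq_getElem?_getD, List.getElem?_eq_getElem hi', Option.getD_some]
theorem ext_pre_iff {x y : CS} {n : ℕ} : Ext (pre x n) y ↔ ∀ k < n, y k = x k := by
  unfold Ext
  rw [pre_length]
  exact forall₂_congr fun k hk => by rw [pre_getD x hk]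
@[simp] theorem ext_nil (B : CS) : Ext [] B := fun k hk => by simp at hk

/-- an open set contains a cylinder around each point -/
theorem exists_pre_of_isOpen {s : Set CS} (hs : IsOpen s) {x : CS} (hx : x ∈ s) :
    ∃ n, ∀ m, n ≤ m → ∀ y, Ext (pre x m) y → y ∈ s := by
  obtain ⟨I, u, h1, h2⟩ := isOpen_pi_iff.1 hs x hx
  refine ⟨I.sup id + 1, fun m hm y hy => h2 fun i hi => ?_⟩
  have : i ≤ I.sup id := Finset.le_sup (f := id) hi
  rw [ext_pre_iff.1 hy i (by omega)]
  exact (h1 i hi).2

/-- a total computable map with a parameter -/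
def CM (F : CS → α → CS) : Prop := Sig (fun z (w : α × ℕ × Bool) => F z w.1 w.2.1 = w.2.2)

namespace CM

theorem id : CM (fun z (_ : α) => z) :=
  Sig.bit (f := fun w : α × ℕ × Bool => w.2.1) (by fun_prop) (by fun_prop)

theorem const {h : α → ℕ → Bool} (hh : Computable fun w : α × ℕ => h w.1 w.2) :
    CM (fun _ a => h a) :=
  Sig.of_re (RE.eq (hh.comp (g := fun w : α × ℕ × Bool => (w.1, w.2.1)) (by fun_prop))
    (by fun_prop))

theorem zz : CM (fun _ (_ : α) => zz) := const (h := fun _ _ => false) (by fun_prop)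

theorem comp {F : CS → β → CS} (h : CM F) {g : α → β} (hg : Computable g) :
    CM (fun z a => F z (g a)) :=
  Sig.comp (f := fun w : α × ℕ × Bool => (g w.1, w.2)) h (by fun_prop)

theorem bit {F : CS → α → CS} (h : CM F) {f : α → ℕ} {g : α → Bool} (hf : Computable f)
    (hg : Computable g) : Sig (fun z a => F z a (f a) = g a) :=
  Sig.comp (f := fun a : α => (a, f a, g a)) h (by fun_prop)

theorem re {F : CS → α → CS} (h : CM F) {f : α → ℕ → ℕ}
    (hf : Computable fun w : α × ℕ => f w.1 w.2) : CM (fun z a n => F z a (f a n)) :=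
  Sig.comp (f := fun w : α × ℕ × Bool => (w.1, f w.1 w.2.1, w.2.2)) h
    (c_pair (by fun_prop) (c_pair (hf.comp (g := fun w : α × ℕ × Bool => (w.1, w.2.1))
      (by fun_prop)) (by fun_prop)))

theorem cond {F G : CS → α → CS} (hF : CM F) (hG : CM G) {c : α → ℕ → Bool}
    (hc : Computable fun w : α × ℕ => c w.1 w.2) :
    CM (fun z a n => cond (c a n) (F z a n) (G z a n)) := by
  have hc' : Computable fun w : α × ℕ × Bool => c w.1 w.2.1 :=
    hc.comp (g := fun w : α × ℕ × Bool => (w.1, w.2.1)) (by fun_prop)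
  refine (Sig.or (Sig.and (Sig.of_re (RE.eq hc' (Computable.const true))) hF)
    (Sig.and (Sig.of_re (RE.eq hc' (Computable.const false))) hG)).of_iff fun z w => ?_
  beta_reduce
  cases c w.1 w.2.1 <;> simp

theorem lf {F : CS → α → CS} (h : CM F) : CM (fun z a => lf (F z a)) :=
  h.re (f := fun _ n => 2 * n) (by fun_prop)
theorem rt {F : CS → α → CS} (h : CM F) : CM (fun z a => rt (F z a)) :=
  h.re (f := fun _ n => 2 * n + 1) (by fun_prop)
theorem tl {F : CS → α → CS} (h : CM F) : CM (fun z a => tl (F z a)) :=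
  h.re (f := fun _ p => Nat.pair (p.unpair.1 + 1) p.unpair.2) (by fun_prop)
theorem col {F : CS → α → CS} (h : CM F) {m : α → ℕ} (hm : Computable m) :
    CM (fun z a => col (F z a) (m a)) :=
  h.re (f := fun a n => Nat.pair (m a) n) (by fun_prop)
theorem jn {F G : CS → α → CS} (hF : CM F) (hG : CM G) : CM (fun z a => jn (F z a) (G z a)) := by
  have := cond (hF.re (f := fun _ n => n / 2) (by fun_prop))
    (hG.re (f := fun _ n => n / 2) (by fun_prop)) (c := fun _ n => eqb (n % 2) 0) (by fun_prop)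
  refine Sig.of_iff this fun z w => ?_
  by_cases h : w.2.1 % 2 = 0 <;> simp [MinDeg.jn, eqb, h]
theorem rs {F G : CS → α → CS} (hF : CM F) (hG : CM G) : CM (fun z a => rs (F z a) (G z a)) :=
  cond (hG.re (f := fun _ p => p.unpair.2) (by fun_prop))
    (hF.re (f := fun _ p => Nat.pair (p.unpair.1 - 1) p.unpair.2) (by fun_prop))
    (c := fun _ p => eqb p.unpair.1 0) (by fun_prop)
theorem lev {F : CS → α → CS} (h : CM F) {μ : α → List ℕ} (hμ : Computable μ) :
    CM (fun z a => lev (μ a) (F z a)) :=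
  cond zz (h.re (f := fun a p => Nat.pair ((μ a).getD p.unpair.1 0) p.unpair.2) (by fun_prop))
    (c := fun a p => leb (μ a).length p.unpair.1) (by fun_prop)
theorem cat {F : CS → α → CS} (h : CM F) {ζ : α → List Bool} (hζ : Computable ζ) :
    CM (fun z a => cat (ζ a) (F z a)) :=
  cond (h.re (f := fun a n => n - (ζ a).length) (by fun_prop))
    (const (h := fun a n => (ζ a).getD n false) (by fun_prop))
    (c := fun a n => leb (ζ a).length n) (by fun_prop)

theorem ext {F : CS → α → CS} (h : CM F) {ζ : α → List Bool} (hζ : Computable ζ) :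
    Sig (fun z a => Ext (ζ a) (F z a)) :=
  Sig.forall_lt (l := fun a => (ζ a).length) (by fun_prop)
    ((h.comp (g := fun w : α × ℕ => w.1) (by fun_prop)).bit (by fun_prop) (by fun_prop))

end CM

theorem Sig.map {P : CS → β → Prop} (h : Sig P) {F : CS → α → CS} (hF : CM F) {g : α → β}
    (hg : Computable g) : Sig (fun z a => P (F z a) (g a)) := by
  obtain ⟨R, h1, -, h3⟩ := h
  have : Sig (fun (z : CS) (a : α) => ∃ σ : List Bool, Ext σ (F z a) ∧ R σ (g a)) :=
    Sig.ex (Sig.and ((hF.comp (g := fun w : α × List Bool => w.1) (by fun_prop)).ext (by fun_prop))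
      (Sig.of_re (h1.comp (f := fun w : α × List Bool => (w.2, g w.1)) (by fun_prop))))
  refine this.of_iff fun z a => ?_
  rw [h3]
  constructor
  · rintro ⟨σ, hσ, hR⟩
    exact ⟨σ.length, by rwa [hσ.eq_pre]⟩
  · rintro ⟨n, hn⟩
    exact ⟨_, ext_pre _ _, hn⟩

/-- universal quantification over a point (compactness) -/
theorem Sig.all {P : CS → CS → α → Prop} (h : Sig (fun z a => P (lf z) (rt z) a)) :
    Sig (fun x a => ∀ w, P x w a) := by
  refine (h.fibre c_ev i_ev).of_iff fun x a => ⟨fun H w => ?_, fun H z hz => ?_⟩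
  · have := H (jn x w) fun i => congrFun (jn_ev x w) i
    simpa using this
  · have : lf z = x := funext hz
    rw [this]; exact H _

theorem Sig.forall_mem {P : CS → α → β → Prop} {l : α → List β} (hl : Computable l)
    (h : Sig (fun x (z : α × β) => P x z.1 z.2)) : Sig (fun x a => ∀ b ∈ l a, P x a b) := by
  have : Sig (fun x a => ∀ i < (l a).length, ∃ b, (l a)[i]? = some b ∧ P x a b) :=
    Sig.forall_lt (by fun_prop) (Sig.ex (Sig.and (Sig.of_re (RE.eq (by fun_prop) (by fun_prop)))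
      (h.comp (f := fun w : (α × ℕ) × β => (w.1.1, w.2)) (by fun_prop))))
  refine this.of_iff fun x a => ⟨fun H b hb => ?_, fun H i hi => ?_⟩
  · obtain ⟨i, hi, rfl⟩ := List.getElem_of_mem hb
    obtain ⟨b, h1, h2⟩ := H i hi
    rw [List.getElem?_eq_getElem hi, Option.some.injEq] at h1
    rwa [h1]
  · exact ⟨_, List.getElem?_eq_getElem hi, H _ (List.getElem_mem hi)⟩

theorem re_not_enc : RE (fun n : ℕ => ¬ ∃ b : β, Encodable.encode b = n) := by
  have h : Computable fun n : ℕ => (Encodable.decode (α := β) n).map Encodable.encode :=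
    Computable.option_map Computable.decode (Computable.encode.comp Computable.snd).to₂
  refine (RE.ne h (g := fun n => some n) (by fun_prop)).of_iff fun n => ?_
  constructor
  · rintro H ⟨b, rfl⟩
    exact H (by simp)
  · intro H h1
    obtain ⟨b, -, hb⟩ := Option.map_eq_some_iff.1 h1
    exact H ⟨b, hb⟩

theorem Sig.forall_enc {P : CS → α → β → Prop} {l : α → ℕ} (hl : Computable l)
    (h : Sig (fun x (z : α × β) => P x z.1 z.2)) :
    Sig (fun x a => ∀ b, Encodable.encode b < l a → P x a b) := by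
  have : Sig (fun x a => ∀ i < l a, (¬ ∃ b : β, Encodable.encode b = i) ∨
      ∃ b, Encodable.encode b = i ∧ P x a b) :=
    Sig.forall_lt hl (Sig.or (Sig.of_re (re_not_enc.comp (by fun_prop)))
      (Sig.ex (Sig.and (Sig.of_re (RE.eq (by fun_prop) (by fun_prop)))
        (h.comp (f := fun w : (α × ℕ) × β => (w.1.1, w.2)) (by fun_prop)))))
  refine this.of_iff fun x a => ⟨fun H b hb => ?_, fun H i hi => ?_⟩
  · rcases H _ hb with h1 | ⟨b', h1, h2⟩
    · exact absurd ⟨b, rfl⟩ h1
    · rwa [Encodable.encode_injective h1] at h2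
  · by_cases h1 : ∃ b : β, Encodable.encode b = i
    · obtain ⟨b, rfl⟩ := h1
      exact Or.inr ⟨b, rfl, H b hi⟩
    · exact Or.inl h1

/-- uniformly effectively closed -/
def Pii (P : CS → α → Prop) : Prop := Sig (fun x a => ¬ P x a)

theorem Sig.imp {P Q : CS → α → Prop} (hP : Pii P) (hQ : Sig Q) : Sig (fun x a => P x a → Q x a) :=
  (Sig.or hP hQ).of_iff fun _ _ => imp_iff_not_or.symm

namespace Pii

theorem of_iff {P Q : CS → α → Prop} (h : Pii P) (H : ∀ x a, P x a ↔ Q x a) : Pii Q :=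
  Sig.of_iff h fun x a => not_congr (H x a)
theorem not {P : CS → α → Prop} (h : Sig P) : Pii (fun x a => ¬ P x a) :=
  h.of_iff fun _ _ => not_not.symm
theorem neg {P : CS → α → Prop} (h : Pii P) : Sig (fun x a => ¬ P x a) := h
theorem of_re {Q : α → Prop} (h : RE fun a => ¬ Q a) : Pii (fun _ a => Q a) := Sig.of_re h
theorem comp {P : CS → β → Prop} {f : α → β} (h : Pii P) (hf : Computable f) :
    Pii (fun x a => P x (f a)) := Sig.comp h hf
theorem map {P : CS → β → Prop} (h : Pii P) {F : CS → α → CS} (hF : CM F) {g : α → β}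
    (hg : Computable g) : Pii (fun z a => P (F z a) (g a)) := Sig.map h hF hg
theorem and {P Q : CS → α → Prop} (hP : Pii P) (hQ : Pii Q) : Pii (fun x a => P x a ∧ Q x a) :=
  (Sig.or hP hQ).of_iff fun _ _ => not_and_or.symm
theorem or {P Q : CS → α → Prop} (hP : Pii P) (hQ : Pii Q) : Pii (fun x a => P x a ∨ Q x a) :=
  (Sig.and hP hQ).of_iff fun _ _ => not_or.symm
theorem imp {P Q : CS → α → Prop} (hP : Sig P) (hQ : Pii Q) : Pii (fun x a => P x a → Q x a) :=
  (Sig.and hP hQ).of_iff fun _ _ => Classical.not_imp.symm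
theorem all {P : CS → α → β → Prop} (h : Pii (fun x (z : α × β) => P x z.1 z.2)) :
    Pii (fun x a => ∀ b, P x a b) :=
  (Sig.ex (P := fun x a b => ¬ P x a b) h).of_iff fun _ _ => not_forall.symm
theorem exists_lt {P : CS → α → ℕ → Prop} {l : α → ℕ} (hl : Computable l)
    (h : Pii (fun x (z : α × ℕ) => P x z.1 z.2)) : Pii (fun x a => ∃ b < l a, P x a b) :=
  (Sig.forall_lt (P := fun x a b => ¬ P x a b) hl h).of_iff fun _ _ => by simp
/-- existential quantification over a point (compactness) -/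
theorem exC {P : CS → CS → α → Prop} (h : Pii (fun z a => P (lf z) (rt z) a)) :
    Pii (fun x a => ∃ w, P x w a) :=
  (Sig.all (P := fun x w a => ¬ P x w a) h).of_iff fun _ _ => not_exists.symm
/-- universal quantification over a point -/
theorem allC {P : CS → CS → α → Prop} (h : Pii (fun z a => P (lf z) (rt z) a)) :
    Pii (fun x a => ∀ w, P x w a) := by
  have h1 : Sig (fun x (w : α × List Bool) => ∀ u, Ext w.2 u → ¬ P x u w.1) := by
    refine Sig.all (P := fun x u (w : α × List Bool) => Ext w.2 u → ¬ P x u w.1) (Sig.imp ?_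
      (Sig.comp (f := fun w : α × List Bool => w.1) h (by fun_prop)))
    refine (Sig.ex (P := fun z (w : α × List Bool) (k : ℕ) => k < w.2.length ∧
      rt z k = !(w.2.getD k false)) (Sig.and (Sig.of_re (RE.lt (by fun_prop) (by fun_prop)))
      (CM.id.rt.bit (by fun_prop) (by fun_prop)))).of_iff fun z w => ?_
    simp [Ext, Bool.eq_not_iff]
  refine (Sig.ex (P := fun x a (σ : List Bool) => ∀ u, Ext σ u → ¬ P x u a) h1).of_iff
    fun x a => ⟨?_, fun H => ?_⟩
  · rintro ⟨σ, hσ⟩ H
    exact hσ _ (ext_cat σ zz) (H _)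
  · obtain ⟨w, hw⟩ := not_forall.1 H
    have ho : IsOpen {z | ¬ P (lf z) (rt z) a} := Sig.isOpen h a
    obtain ⟨n, hn⟩ := exists_pre_of_isOpen ho (x := jn x w) (by simpa using hw)
    refine ⟨pre w n, fun u hu => ?_⟩
    have := hn n le_rfl (jn x u) (ext_pre_iff.2 fun k hk => by
      unfold jn
      split_ifs
      · rfl
      · exact ext_pre_iff.1 hu _ (by omega))
    simpa using this
theorem bit {F : CS → α → CS} (h : CM F) {f : α → ℕ} {g : α → Bool} (hf : Computable f)
    (hg : Computable g) : Pii (fun z a => F z a (f a) = g a) :=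
  (h.bit hf (c_not hg)).of_iff fun z a => by simp [Bool.eq_not_iff]
theorem beq {F G : CS → α → CS} (hF : CM F) (hG : CM G) {f g : α → ℕ} (hf : Computable f)
    (hg : Computable g) : Pii (fun z a => F z a (f a) = G z a (g a)) := by
  have : Sig (fun z a => ∃ b : Bool, F z a (f a) = b ∧ G z a (g a) = !b) :=
    Sig.ex (Sig.and ((hF.comp (g := fun w : α × Bool => w.1) (by fun_prop)).bit (by fun_prop)
      (by fun_prop)) ((hG.comp (g := fun w : α × Bool => w.1) (by fun_prop)).bit (by fun_prop)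
      (by fun_prop)))
  refine this.of_iff fun z a => ?_
  beta_reduce
  cases F z a (f a) <;> cases G z a (g a) <;> simp
theorem bne {F G : CS → α → CS} (hF : CM F) (hG : CM G) {f g : α → ℕ} (hf : Computable f)
    (hg : Computable g) : Pii (fun z a => F z a (f a) ≠ G z a (g a)) := by
  have : Sig (fun z a => ∃ b : Bool, F z a (f a) = b ∧ G z a (g a) = b) :=
    Sig.ex (Sig.and ((hF.comp (g := fun w : α × Bool => w.1) (by fun_prop)).bit (by fun_prop)
      (by fun_prop)) ((hG.comp (g := fun w : α × Bool => w.1) (by fun_prop)).bit (by fun_prop)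
      (by fun_prop)))
  refine this.of_iff fun z a => ?_
  beta_reduce
  cases F z a (f a) <;> cases G z a (g a) <;> simp
theorem eqC {F G : CS → α → CS} (hF : CM F) (hG : CM G) : Pii (fun z a => F z a = G z a) :=
  (all (beq (hF.comp (g := fun w : α × ℕ => w.1) (by fun_prop))
    (hG.comp (g := fun w : α × ℕ => w.1) (by fun_prop)) (f := fun w => w.2) (g := fun w => w.2)
    (by fun_prop) (by fun_prop))).of_iff fun _ _ => funext_iff.symm
theorem ext {F : CS → α → CS} (h : CM F) {ζ : α → List Bool} (hζ : Computable ζ) :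
    Pii (fun z a => Ext (ζ a) (F z a)) :=
  all (imp (Sig.of_re (RE.lt (by fun_prop) (by fun_prop)))
    (bit (h.comp (g := fun w : α × ℕ => w.1) (by fun_prop)) (by fun_prop) (by fun_prop)))
theorem isClosed {P : CS → α → Prop} (h : Pii P) (a : α) : IsClosed {x | P x a} :=
  ⟨Sig.isOpen h a⟩

end Pii

/-- the universal effectively open relation -/
def Un (i : ℕ) (x : CS) : Prop := ∃ σ : List Bool, Ext σ x ∧ ∃ s : ℕ,
  Nat.Partrec.Code.evaln s (Denumerable.ofNat Nat.Partrec.Code i.unpair.1)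
    (Nat.pair (Encodable.encode σ) i.unpair.2) = some 0

theorem sig_Un : Sig (fun x i => Un i x) := by
  refine Sig.ex (Sig.and (CM.id.ext (by fun_prop)) (Sig.of_re (RE.ex (RE.eq ?_ (by fun_prop)))))
  exact c_evaln (by fun_prop) (c_ofNat _ (by fun_prop)) (by fun_prop)

theorem Sig.index {P : CS → α → Prop} (h : Sig P) :
    ∃ e : ℕ, ∀ x a, P x a ↔ Un (Nat.pair e (Encodable.encode a)) x := by
  obtain ⟨R, ⟨t, ht, h1⟩, -, h3⟩ := h
  have hp : Partrec fun z : List Bool × α =>
      (Nat.rfind fun n => (Part.some (t (z, n)) : Part Bool)).map fun _ => (0 : ℕ) :=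
    (Partrec.rfind (p := fun (z : List Bool × α) n => (Part.some (t (z, n)) : Part Bool))
      ht.partrec).map (Computable.const 0).to₂
  obtain ⟨c, hc⟩ := Nat.Partrec.Code.exists_code.1 hp
  have key : ∀ σ a, R σ a ↔ ∃ s, Nat.Partrec.Code.evaln s c
      (Nat.pair (Encodable.encode σ) (Encodable.encode a)) = some 0 := by
    intro σ a
    have e1 : (∃ s, Nat.Partrec.Code.evaln s c
        (Nat.pair (Encodable.encode σ) (Encodable.encode a)) = some 0) ↔
        0 ∈ c.eval (Encodable.encode (σ, a)) := Nat.Partrec.Code.evaln_complete.symm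
    have e2 : R σ a ↔ ∃ n, t ((σ, a), n) = true := h1 (σ, a)
    rw [e1, hc, e2]
    simp only [Encodable.encodek, Part.coe_some, Part.bind_some, Part.mem_map_iff]
    constructor
    · rintro ⟨n, hn⟩
      obtain ⟨m, hm⟩ := Part.dom_iff_mem.1 ((Nat.rfind_dom
        (p := fun n => (Part.some (t ((σ, a), n)) : Part Bool))).2
        ⟨n, by rw [hn]; exact Part.mem_some _, fun _ => trivial⟩)
      exact ⟨0, ⟨m, hm, rfl⟩, rfl⟩
    · rintro ⟨_, ⟨m, hm, -⟩, -⟩
      exact ⟨m, by simpa using Nat.rfind_spec hm⟩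
  refine ⟨Encodable.encode c, fun x a => ?_⟩
  simp only [Un, Nat.unpair_pair, Denumerable.ofNat_encode, ← key, h3]
  constructor
  · rintro ⟨n, hn⟩
    exact ⟨_, ext_pre _ _, hn⟩
  · rintro ⟨σ, hσ, hR⟩
    exact ⟨σ.length, by rwa [hσ.eq_pre]⟩

/-- the effectively closed class with index `i` -/
def K (i : ℕ) : Set CS := {x | ¬ Un i x}

theorem pii_K {F : CS → α → CS} (hF : CM F) {g : α → ℕ} (hg : Computable g) :
    Pii (fun z a => F z a ∈ K (g a)) := Pii.not (sig_Un.map hF hg)

theorem Pii.index {P : CS → α → Prop} (h : Pii P) :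
    ∃ s : α → ℕ, Computable s ∧ ∀ x a, x ∈ K (s a) ↔ P x a := by
  obtain ⟨e, he⟩ := Sig.index h
  exact ⟨fun a => Nat.pair e (Encodable.encode a), by fun_prop, fun x a => by
    show ¬ Un _ x ↔ _
    rw [← he, not_not]⟩

theorem isClosed_K (i : ℕ) : IsClosed (K i) := (pii_K CM.id Computable.id).isClosed i

/-- stages -/
theorem Sig.stage {P : CS → α → Prop} (h : Sig P) : ∃ St : CS → α × ℕ → Prop, Sig St ∧ Pii St ∧
    (∀ x a s s', s ≤ s' → St x (a, s) → St x (a, s')) ∧ ∀ x a, P x a ↔ ∃ s, St x (a, s) := by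
  obtain ⟨R, ⟨t, ht, h1⟩, -, h3⟩ := h
  have hb : Sig (fun x (w : (α × ℕ) × Bool) =>
      t ((pre x w.1.2.unpair.1, w.1.1), w.1.2.unpair.2) = w.2) := by
    have : Sig (fun x (w : (α × ℕ) × Bool) => ∃ σ : List Bool, Ext σ x ∧
        (σ.length = w.1.2.unpair.1 ∧ t ((σ, w.1.1), w.1.2.unpair.2) = w.2)) :=
      Sig.ex (Sig.and (CM.id.ext (by fun_prop)) (Sig.of_re (RE.and
        (RE.eq (by fun_prop) (by fun_prop)) (RE.eq (by fun_prop) (by fun_prop)))))
    refine this.of_iff fun x w => ⟨?_, fun H => ⟨_, ext_pre x _, pre_length _ _, H⟩⟩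
    rintro ⟨σ, k1, k2, k3⟩
    rwa [← k2, k1.eq_pre]
  refine ⟨fun x w => ∃ s < w.2 + 1, t ((pre x s.unpair.1, w.1), s.unpair.2) = true,
    Sig.ex (Sig.and (Sig.of_re (RE.lt (by fun_prop) (by fun_prop)))
      (hb.comp (f := fun w : (α × ℕ) × ℕ => ((w.1.1, w.2), true)) (by fun_prop))),
    Pii.exists_lt (by fun_prop) ?_, ?_, fun x a => ?_⟩
  · exact (hb.comp (f := fun w : (α × ℕ) × ℕ => ((w.1.1, w.2), false)) (by fun_prop)).of_iff
      fun x w => by simp
  · rintro x a s s' hs ⟨u, hu, H⟩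
    exact ⟨u, by simp only at hu ⊢; omega, H⟩
  · rw [h3]
    constructor
    · rintro ⟨n, hn⟩
      obtain ⟨k, hk⟩ := (h1 (_, a)).1 hn
      exact ⟨Nat.pair n k, Nat.pair n k, Nat.lt_succ_self _, by
        rw [Nat.unpair_pair]; exact hk⟩
    · rintro ⟨s, u, -, H⟩
      exact ⟨_, (h1 (_, a)).2 ⟨_, H⟩⟩

/-- uniformisation -/
theorem Sig.unif {P : CS → α → β → Prop} (h : Sig (fun x (w : α × β) => P x w.1 w.2)) :
    ∃ P' : CS → α → β → Prop, Sig (fun x (w : α × β) => P' x w.1 w.2) ∧
      (∀ x a b, P' x a b → P x a b) ∧ (∀ x a b b', P' x a b → P' x a b' → b = b') ∧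
      ∀ x a b, P x a b → ∃ b', P' x a b' := by
  obtain ⟨St, h1, h2, -, h4⟩ := h.stage
  refine ⟨fun x a b => ∃ s, St x ((a, b), s) ∧ ∀ w : β × ℕ,
      Encodable.encode w < Encodable.encode (b, s) → ¬ St x ((a, w.1), w.2),
    Sig.ex (Sig.and h1 (Sig.forall_enc (l := fun u : (α × β) × ℕ => Encodable.encode (u.1.2, u.2))
      (by fun_prop) (Sig.comp (f := fun u : ((α × β) × ℕ) × β × ℕ => ((u.1.1.1, u.2.1), u.2.2)) h2
      (by fun_prop)))), ?_, ?_, fun x a b hb => ?_⟩
  · rintro x a b ⟨s, hs, -⟩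
    exact (h4 x (a, b)).2 ⟨s, hs⟩
  · rintro x a b b' ⟨s, hs, k⟩ ⟨s', hs', k'⟩
    rcases lt_trichotomy (Encodable.encode (b, s)) (Encodable.encode (b', s')) with e | e | e
    · exact absurd hs (k' (b, s) e)
    · exact congrArg Prod.fst (Encodable.encode_injective e)
    · exact absurd hs' (k (b', s') e)
  · classical
    obtain ⟨s, hs⟩ := (h4 x (a, b)).1 hb
    have hex : ∃ n, ∃ w : β × ℕ, Encodable.encode w = n ∧ St x ((a, w.1), w.2) :=
      ⟨_, (b, s), rfl, hs⟩
    obtain ⟨w, k1, k2⟩ := Nat.find_spec hex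
    exact ⟨w.1, w.2, k2, fun u hu hu' => Nat.find_min hex (k1 ▸ hu) ⟨u, rfl, hu'⟩⟩

end Pool.Agent.MinDeg
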